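import Mathlib

/-!
# Balls, twisted conjugacy classes, twisted conjugacy ratio, degree of twisted commutativity
-/

namespace Pool.Agent.Q105.TwBall

variable {G : Type*} [Group G]

/-- The ball of radius `n` with respect to `X`: all products of at most `n` elements of
`X ∪ X⁻¹`. -/
def Ball (X : Set G) (n : ℕ) : Set G :=
  {g | ∃ l : List G, l.length ≤ n ∧ (∀ x ∈ l, x ∈ X ∨ x⁻¹ ∈ X) ∧ l.prod = g}

/-- `x` and `y` are `φ`-conjugate: `x = z y φ(z)⁻¹` for some `z`. -/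
def TwConj (φ : G →* G) (x y : G) : Prop := ∃ z : G, x = z * y * (φ z)⁻¹

/-- The `φ`-conjugacy classes that meet the ball of radius `n`. -/
def twClasses (φ : G →* G) (X : Set G) (n : ℕ) : Set (Set G) :=
  {c | ∃ y ∈ Ball X n, c = {x | TwConj φ x y}}

/-- The `φ`-twisted conjugacy ratio of `G` with respect to `X`. -/
noncomputable def tcr (φ : G →* G) (X : Set G) : ℝ :=
  Filter.limsup (fun n : ℕ => ((twClasses φ X n).ncard : ℝ) / ((Ball X n).ncard : ℝ)) Filter.atTop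

/-- The degree of `φ`-twisted commutativity of `G` with respect to `X`. -/
noncomputable def tdc (φ : G →* G) (X : Set G) : ℝ :=
  Filter.limsup (fun n : ℕ =>
    (({p : G × G | p.1 ∈ Ball X n ∧ p.2 ∈ Ball X n ∧ p.1 * p.2 = p.2 * φ p.1}.ncard : ℕ) : ℝ) /
      ((Ball X n).ncard : ℝ) ^ 2) Filter.atTop

section Basic

variable (X : Set G)

lemma one_mem_Ball (n : ℕ) : (1 : G) ∈ Ball X n :=
  ⟨[], by simp, by simp, by simp⟩

lemma Ball_mono {m n : ℕ} (h : m ≤ n) : Ball X m ⊆ Ball X n := by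
  rintro g ⟨l, hl, h1, h2⟩
  exact ⟨l, hl.trans h, h1, h2⟩

lemma Ball_zero : Ball X 0 = {1} := by
  ext g
  constructor
  · rintro ⟨l, hl, _, rfl⟩
    have : l = [] := List.eq_nil_of_length_eq_zero (by omega)
    subst this
    simp
  · rintro rfl
    exact one_mem_Ball X 0

lemma mul_mem_Ball {m n : ℕ} {g h : G} (hg : g ∈ Ball X m) (hh : h ∈ Ball X n) :
    g * h ∈ Ball X (m + n) := by
  obtain ⟨l, hl, h1, rfl⟩ := hg
  obtain ⟨l', hl', h1', rfl⟩ := hh
  refine ⟨l ++ l', by simp; omega, ?_, by simp⟩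
  intro x hx
  rcases List.mem_append.mp hx with h | h
  · exact h1 x h
  · exact h1' x h

lemma inv_mem_Ball {n : ℕ} {g : G} (hg : g ∈ Ball X n) : g⁻¹ ∈ Ball X n := by
  obtain ⟨l, hl, h1, rfl⟩ := hg
  refine ⟨(l.map (·⁻¹)).reverse, by simpa using hl, ?_, by rw [List.prod_inv_reverse]⟩
  intro x hx
  simp only [List.mem_reverse, List.mem_map] at hx
  obtain ⟨a, ha, rfl⟩ := hx
  rcases h1 a ha with h | h
  · right; simpa using h
  · left; exact h

lemma mem_Ball_one_of_mem {x : G} (hx : x ∈ X) : x ∈ Ball X 1 :=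
  ⟨[x], by simp, by simp [hx], by simp⟩

lemma Ball_succ_eq (n : ℕ) :
    Ball X (n + 1) = Ball X n ∪ ⋃ x ∈ {x : G | x ∈ X ∨ x⁻¹ ∈ X}, (fun g => g * x) '' Ball X n := by
  ext g
  constructor
  · rintro ⟨l, hl, h1, rfl⟩
    rcases List.eq_nil_or_concat l with rfl | ⟨l', a, rfl⟩
    · left; simpa using one_mem_Ball X n
    · right
      simp only [Set.mem_iUnion]
      refine ⟨a, h1 a (by simp), l'.prod, ⟨l', ?_, fun x hx => h1 x (by simp [hx]), rfl⟩, by simp⟩
      simp at hl; omega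
  · rintro (h | h)
    · exact Ball_mono X (Nat.le_succ n) h
    · simp only [Set.mem_iUnion] at h
      obtain ⟨x, hx, g', hg', rfl⟩ := h
      exact mul_mem_Ball X hg' ⟨[x], by simp, by simpa using hx, by simp⟩

lemma Ball_finite (hX : X.Finite) (n : ℕ) : (Ball X n).Finite := by
  induction n with
  | zero => rw [Ball_zero]; exact Set.finite_singleton _
  | succ n ih =>
    rw [Ball_succ_eq]
    refine ih.union (Set.Finite.biUnion ?_ (fun x _ => ih.image _))
    have h : {x : G | x ∈ X ∨ x⁻¹ ∈ X} = X ∪ X⁻¹ := by ext; simp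
    rw [h]
    exact hX.union hX.inv

lemma Ball_ncard_pos (hX : X.Finite) (n : ℕ) : 0 < (Ball X n).ncard := by
  rw [Set.ncard_pos (Ball_finite X hX n)]
  exact ⟨1, one_mem_Ball X n⟩

lemma Ball_ncard_mono (hX : X.Finite) {m n : ℕ} (h : m ≤ n) :
    (Ball X m).ncard ≤ (Ball X n).ncard :=
  Set.ncard_le_ncard (Ball_mono X h) (Ball_finite X hX n)

lemma Ball_succ_ncard_le (hX : X.Finite) (n : ℕ) :
    (Ball X (n + 1)).ncard ≤ (2 * X.ncard + 1) * (Ball X n).ncard := by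
  classical
  rw [Ball_succ_eq]
  have h : {x : G | x ∈ X ∨ x⁻¹ ∈ X} = X ∪ X⁻¹ := by ext; simp
  rw [h]
  have hf : (X ∪ X⁻¹).Finite := hX.union hX.inv
  have h1 : (⋃ x ∈ X ∪ X⁻¹, (fun g => g * x) '' Ball X n).ncard ≤
      (X ∪ X⁻¹).ncard * (Ball X n).ncard := by
    have h2 : (⋃ x ∈ X ∪ X⁻¹, (fun g => g * x) '' Ball X n) =
        (fun p : G × G => p.2 * p.1) '' ((X ∪ X⁻¹) ×ˢ Ball X n) := by
      ext g
      simp only [Set.mem_iUnion, Set.mem_image, Set.mem_prod, Prod.exists]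
      constructor
      · rintro ⟨x, hx, g', hg', rfl⟩
        exact ⟨x, g', ⟨hx, hg'⟩, rfl⟩
      · rintro ⟨x, g', ⟨hx, hg'⟩, rfl⟩
        exact ⟨x, hx, g', hg', rfl⟩
    rw [h2]
    refine (Set.ncard_image_le (hf.prod (Ball_finite X hX n))).trans ?_
    rw [Set.ncard_prod]
  have h3 : (X ∪ X⁻¹).ncard ≤ 2 * X.ncard := by
    refine (Set.ncard_union_le _ _).trans ?_
    have : (X⁻¹).ncard = X.ncard := Set.ncard_inv X
    omega
  refine (Set.ncard_union_le _ _).trans ?_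
  nlinarith [h1, Nat.mul_le_mul_right (Ball X n).ncard h3]

lemma twClasses_eq_image (φ : G →* G) (n : ℕ) :
    twClasses φ X n = (fun y => {x | TwConj φ x y}) '' Ball X n := by
  ext c
  constructor
  · rintro ⟨y, hy, rfl⟩; exact ⟨y, hy, rfl⟩
  · rintro ⟨y, hy, rfl⟩; exact ⟨y, hy, rfl⟩

lemma twClasses_finite (hX : X.Finite) (φ : G →* G) (n : ℕ) : (twClasses φ X n).Finite := by
  rw [twClasses_eq_image]
  exact (Ball_finite X hX n).image _

lemma twClasses_ncard_le (hX : X.Finite) (φ : G →* G) (n : ℕ) :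
    (twClasses φ X n).ncard ≤ (Ball X n).ncard := by
  rw [twClasses_eq_image]
  exact Set.ncard_image_le (Ball_finite X hX n)

lemma twConj_refl (φ : G →* G) (x : G) : TwConj φ x x := ⟨1, by simp⟩

lemma TwConj.symm {φ : G →* G} {x y : G} (h : TwConj φ x y) : TwConj φ y x := by
  obtain ⟨z, rfl⟩ := h
  exact ⟨z⁻¹, by simp [mul_assoc]⟩

lemma TwConj.trans {φ : G →* G} {x y z : G} (h : TwConj φ x y) (h' : TwConj φ y z) :
    TwConj φ x z := by
  obtain ⟨a, rfl⟩ := h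
  obtain ⟨b, rfl⟩ := h'
  exact ⟨a * b, by simp [mul_assoc]⟩

lemma class_eq_iff (φ : G →* G) (x y : G) :
    {w | TwConj φ w x} = {w | TwConj φ w y} ↔ TwConj φ x y := by
  constructor
  · intro h
    have : x ∈ {w | TwConj φ w x} := twConj_refl φ x
    rw [h] at this
    exact this
  · intro h
    ext w
    exact ⟨fun hw => TwConj.trans hw h, fun hw => TwConj.trans hw h.symm⟩

lemma ratio_le_one (hX : X.Finite) (φ : G →* G) (n : ℕ) :
    ((twClasses φ X n).ncard : ℝ) / ((Ball X n).ncard : ℝ) ≤ 1 := by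
  have h1 := twClasses_ncard_le X hX φ n
  have h2 := Ball_ncard_pos X hX n
  rw [div_le_one (by exact_mod_cast h2)]
  exact_mod_cast h1

lemma ratio_nonneg (φ : G →* G) (n : ℕ) :
    0 ≤ ((twClasses φ X n).ncard : ℝ) / ((Ball X n).ncard : ℝ) := by positivity

lemma ratio_bddAbove (hX : X.Finite) (φ : G →* G) :
    Filter.IsBoundedUnder (· ≤ ·) Filter.atTop
      (fun n : ℕ => ((twClasses φ X n).ncard : ℝ) / ((Ball X n).ncard : ℝ)) :=
  Filter.isBoundedUnder_of ⟨1, ratio_le_one X hX φ⟩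

lemma ratio_bddBelow (φ : G →* G) :
    Filter.IsBoundedUnder (· ≥ ·) Filter.atTop
      (fun n : ℕ => ((twClasses φ X n).ncard : ℝ) / ((Ball X n).ncard : ℝ)) :=
  Filter.isBoundedUnder_of ⟨0, ratio_nonneg X φ⟩

lemma le_tcr_of_eventually (hX : X.Finite) (φ : G →* G) (c : ℝ)
    (h : ∀ᶠ n : ℕ in Filter.atTop,
      c ≤ ((twClasses φ X n).ncard : ℝ) / ((Ball X n).ncard : ℝ)) : c ≤ tcr φ X :=
  Filter.le_limsup_of_frequently_le h.frequently (ratio_bddAbove X hX φ)

end Basic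

end Pool.Agent.Q105.TwBall
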