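import Mathlib
import Pool.Agent.Q105.TwBall

/-!
# Conjugacy ratio, part 2: block decompositions
-/

namespace Pool.Agent.Q105.CR

open Pool.Agent.Q105.TwBall

variable {G : Type*} [Group G] (X : Set G) (H : Subgroup G)

/-- A list of blocks: elements of `H` together with a bound for their length. -/
def IsBlocks (us : List (G × ℕ)) : Prop := ∀ p ∈ us, p.1 ∈ H ∧ p.1 ∈ Ball X p.2 ∧ 1 ≤ p.2

/-- The product of a list of blocks. -/
def bprod (us : List (G × ℕ)) : G := (us.map Prod.fst).prod

/-- The total cost of a list of blocks. -/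
def bcost (us : List (G × ℕ)) : ℕ := (us.map Prod.snd).sum

@[simp] lemma bprod_nil : bprod ([] : List (G × ℕ)) = 1 := rfl

@[simp] lemma bcost_nil : bcost ([] : List (G × ℕ)) = 0 := rfl

@[simp] lemma bprod_cons (p : G × ℕ) (us : List (G × ℕ)) :
    bprod (p :: us) = p.1 * bprod us := by simp [bprod]

@[simp] lemma bcost_cons (p : G × ℕ) (us : List (G × ℕ)) :
    bcost (p :: us) = p.2 + bcost us := by simp [bcost]

@[simp] lemma bprod_append (us vs : List (G × ℕ)) :
    bprod (us ++ vs) = bprod us * bprod vs := by simp [bprod]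

@[simp] lemma bcost_append (us vs : List (G × ℕ)) :
    bcost (us ++ vs) = bcost us + bcost vs := by simp [bcost]

variable {X H}

lemma IsBlocks.nil : IsBlocks X H [] := by intro p hp; simp at hp

lemma IsBlocks.append {us vs : List (G × ℕ)} (h : IsBlocks X H us) (h' : IsBlocks X H vs) :
    IsBlocks X H (us ++ vs) := by
  intro p hp
  rcases List.mem_append.mp hp with h1 | h1
  · exact h p h1
  · exact h' p h1

lemma IsBlocks.of_subset {us vs : List (G × ℕ)} (h : IsBlocks X H us) (hs : vs ⊆ us) :
    IsBlocks X H vs := fun p hp => h p (hs hp)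

lemma IsBlocks.prod_mem {us : List (G × ℕ)} (h : IsBlocks X H us) : bprod us ∈ H := by
  induction us with
  | nil => simp
  | cons p us ih =>
    rw [bprod_cons]
    exact H.mul_mem (h p (by simp)).1 (ih fun q hq => h q (by simp [hq]))

lemma IsBlocks.prod_mem_Ball {us : List (G × ℕ)} (h : IsBlocks X H us) :
    bprod us ∈ Ball X (bcost us) := by
  induction us with
  | nil => exact one_mem_Ball X _
  | cons p us ih =>
    rw [bprod_cons, bcost_cons]
    exact mul_mem_Ball X (h p (by simp)).2.1 (ih fun q hq => h q (by simp [hq]))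

lemma IsBlocks.length_le {us : List (G × ℕ)} (h : IsBlocks X H us) :
    us.length ≤ bcost us := by
  induction us with
  | nil => simp
  | cons p us ih =>
    rw [List.length_cons, bcost_cons]
    have h1 := (h p (by simp)).2.2
    have h2 := ih fun q hq => h q (by simp [hq])
    omega

lemma isBlocks_flatten {Ws : List (List (G × ℕ))} (hW : ∀ W ∈ Ws, IsBlocks X H W) :
    IsBlocks X H Ws.flatten := by
  intro p hp
  obtain ⟨W, hW1, hW2⟩ := List.mem_flatten.mp hp
  exact hW W hW1 p hW2

open Classical in
/-- Replacing `t` copies of a segment by another one that differs by a central element. -/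
lemma replace (Ws : List (List (G × ℕ))) (hW : ∀ W ∈ Ws, IsBlocks X H W)
    (α σ β : List (G × ℕ)) (s' : G) (k' d : ℕ) (hs' : s' ∈ Ball X k') (hd : k' + d ≤ bcost σ)
    (z : G) (hz : s' = bprod σ * z) (hzc : ∀ h ∈ H, h * z = z * h) (t : ℕ)
    (ht : t ≤ Ws.count (α ++ σ ++ β)) :
    ∃ N, N + t * d ≤ bcost Ws.flatten ∧ bprod Ws.flatten * z ^ t ∈ Ball X N := by
  induction Ws generalizing t with
  | nil =>
    simp only [List.count_nil, Nat.le_zero] at ht
    subst ht
    exact ⟨0, by simp, by simpa using one_mem_Ball X 0⟩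
  | cons W Ws ih =>
    have hWs : ∀ W ∈ Ws, IsBlocks X H W := fun W' h => hW W' (by simp [h])
    have hWW := hW W (by simp)
    rw [List.flatten_cons, bcost_append, bprod_append]
    by_cases hcase : W = α ++ σ ++ β ∧ 1 ≤ t
    · obtain ⟨rfl, ht1⟩ := hcase
      obtain ⟨t, rfl⟩ : ∃ t', t = t' + 1 := ⟨t - 1, by omega⟩
      rw [List.count_cons_self] at ht
      obtain ⟨N, hN1, hN2⟩ := ih hWs t (by omega)
      have hα : IsBlocks X H α := hWW.of_subset (by intro p hp; simp [hp])
      have hβ : IsBlocks X H β := hWW.of_subset (by intro p hp; simp [hp])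
      refine ⟨bcost α + k' + bcost β + N, ?_, ?_⟩
      · simp only [bcost_append]
        nlinarith
      · have hcen : Commute z (bprod β) := (hzc _ hβ.prod_mem).symm
        have hcen2 : Commute z (bprod Ws.flatten) :=
          (hzc _ (isBlocks_flatten hWs).prod_mem).symm
        have h1 : bprod (α ++ σ ++ β) * bprod Ws.flatten * z ^ (t + 1) =
            bprod α * s' * bprod β * (bprod Ws.flatten * z ^ t) := by
          rw [hz, bprod_append, bprod_append]
          have e1 : z * bprod β = bprod β * z := hcen.eq
          have e2 : z * bprod Ws.flatten = bprod Ws.flatten * z := hcen2.eq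
          rw [pow_succ']
          calc bprod α * bprod σ * bprod β * bprod Ws.flatten * (z * z ^ t)
              = bprod α * bprod σ * bprod β * (bprod Ws.flatten * z) * z ^ t := by group
            _ = bprod α * bprod σ * bprod β * (z * bprod Ws.flatten) * z ^ t := by rw [e2]
            _ = bprod α * bprod σ * (bprod β * z) * bprod Ws.flatten * z ^ t := by group
            _ = bprod α * bprod σ * (z * bprod β) * bprod Ws.flatten * z ^ t := by rw [e1]
            _ = _ := by group
        rw [h1]
        exact mul_mem_Ball X (mul_mem_Ball X (mul_mem_Ball X hα.prod_mem_Ball hs')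
          hβ.prod_mem_Ball) hN2
    · have ht' : t ≤ Ws.count (α ++ σ ++ β) := by
        rw [not_and_or] at hcase
        rcases hcase with h | h
        · rwa [List.count_cons_of_ne h] at ht
        · omega
      obtain ⟨N, hN1, hN2⟩ := ih hWs t ht'
      refine ⟨bcost W + N, by omega, ?_⟩
      rw [mul_assoc]
      exact mul_mem_Ball X hWW.prod_mem_Ball hN2

open Classical in
/-- The same replacement followed by removing one replaced segment, after a rotation. -/
lemma replace_rotate (Ws : List (List (G × ℕ))) (hW : ∀ W ∈ Ws, IsBlocks X H W)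
    (α σ β : List (G × ℕ)) (s' : G) (k' : ℕ) (hs' : s' ∈ Ball X k') (hd : k' ≤ bcost σ)
    (z : G) (hz : s' = bprod σ * z) (hzc : ∀ h ∈ H, h * z = z * h) (t : ℕ)
    (ht : t + 1 ≤ Ws.count (α ++ σ ++ β))
    (hg : ∀ h ∈ H, h * bprod Ws.flatten = bprod Ws.flatten * h) :
    s'⁻¹ * (bprod Ws.flatten * z ^ (t + 1)) ∈ Ball X (bcost Ws.flatten) := by
  have hmem : (α ++ σ ++ β) ∈ Ws := List.count_pos_iff.mp (by omega)
  obtain ⟨W1, W2, hWs, hnot⟩ := List.eq_append_cons_of_mem hmem
  have hc1 : W1.count (α ++ σ ++ β) = 0 := List.count_eq_zero.mpr hnot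
  have hW1 : ∀ W ∈ W1, IsBlocks X H W := fun W h => hW W (by rw [hWs]; simp [h])
  have hW2 : ∀ W ∈ W2, IsBlocks X H W := fun W h => hW W (by rw [hWs]; simp [h])
  have hWW : IsBlocks X H (α ++ σ ++ β) := hW _ hmem
  have hα : IsBlocks X H α := hWW.of_subset (by intro p hp; simp [hp])
  have hβ : IsBlocks X H β := hWW.of_subset (by intro p hp; simp [hp])
  have ht2 : t ≤ W2.count (α ++ σ ++ β) := by
    rw [hWs, List.count_append, hc1, List.count_cons_self] at ht
    omega
  obtain ⟨N, hN1, hN2⟩ := replace W2 hW2 α σ β s' k' 0 hs' (by omega) z hz hzc t ht2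
  have e1 : z * bprod β = bprod β * z := (hzc _ hβ.prod_mem).symm
  have e2 : z * bprod W2.flatten = bprod W2.flatten * z :=
    (hzc _ (isBlocks_flatten hW2).prod_mem).symm
  set A := bprod W1.flatten * bprod α with hA
  have hAH : A ∈ H := H.mul_mem (isBlocks_flatten hW1).prod_mem hα.prod_mem
  set B := bprod β * (bprod W2.flatten * z ^ t) with hB
  have hdec : bprod Ws.flatten * z ^ (t + 1) = A * s' * B := by
    rw [hWs, hA, hB, hz]
    simp only [List.flatten_append, List.flatten_cons, bprod_append]
    rw [pow_succ']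
    calc bprod W1.flatten * (bprod α * bprod σ * bprod β * bprod W2.flatten) * (z * z ^ t)
        = bprod W1.flatten * bprod α * bprod σ * bprod β * (bprod W2.flatten * z) * z ^ t := by
          group
      _ = bprod W1.flatten * bprod α * bprod σ * bprod β * (z * bprod W2.flatten) * z ^ t := by
          rw [e2]
      _ = bprod W1.flatten * bprod α * bprod σ * (bprod β * z) * bprod W2.flatten * z ^ t := by
          group
      _ = bprod W1.flatten * bprod α * bprod σ * (z * bprod β) * bprod W2.flatten * z ^ t := by
          rw [e1]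
      _ = _ := by group
  have hAz : A * (bprod Ws.flatten * z ^ (t + 1)) = (bprod Ws.flatten * z ^ (t + 1)) * A := by
    have c1 : Commute A (bprod Ws.flatten) := hg A hAH
    have c2 : Commute A z := hzc A hAH
    exact (c1.mul_right (c2.pow_right _)).eq
  have hrot : s'⁻¹ * (bprod Ws.flatten * z ^ (t + 1)) = B * A := by
    rw [hdec] at hAz ⊢
    have : s' * (B * A) = A * s' * B := by
      have h3 : A * (s' * (B * A)) = A * (A * s' * B) := by
        rw [hAz]; group
      exact mul_left_cancel h3
    rw [← this]; group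
  rw [hrot]
  have hcost : bcost β + N + (bcost W1.flatten + bcost α) ≤ bcost Ws.flatten := by
    rw [hWs]
    simp only [List.flatten_append, List.flatten_cons, bcost_append]
    omega
  refine Ball_mono X hcost ?_
  exact mul_mem_Ball X (mul_mem_Ball X hβ.prod_mem_Ball hN2)
    (mul_mem_Ball X (isBlocks_flatten hW1).prod_mem_Ball hα.prod_mem_Ball)

/-- Cutting a list into windows of length `R`. -/
lemma exists_windows {α : Type*} (R q : ℕ) (us : List α) (h : q * R ≤ us.length) :
    ∃ (Ws : List (List α)) (rest : List α), us = Ws.flatten ++ rest ∧ Ws.length = q ∧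
      ∀ W ∈ Ws, W.length = R := by
  induction q generalizing us with
  | zero => exact ⟨[], us, by simp, rfl, by simp⟩
  | succ q ih =>
    obtain ⟨Ws, rest, h1, h2, h3⟩ := ih (us.drop R) (by
      rw [List.length_drop]
      have : (q + 1) * R = q * R + R := by ring
      omega)
    refine ⟨us.take R :: Ws, rest, ?_, by simp [h2], ?_⟩
    · rw [List.flatten_cons, List.append_assoc, ← h1, List.take_append_drop]
    · intro W hW
      rcases List.mem_cons.mp hW with rfl | h
      · rw [List.length_take]
        have : (q + 1) * R = q * R + R := by ring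
        omega
      · exact h3 W h

lemma bad_count (Ws : List (List (G × ℕ))) (T : ℕ) :
    (Ws.filter (fun W => ¬ bcost W ≤ T)).length * (T + 1) ≤ bcost Ws.flatten := by
  induction Ws with
  | nil => simp
  | cons W Ws ih =>
    rw [List.flatten_cons, bcost_append, List.filter_cons]
    split_ifs with h
    · rw [List.length_cons]
      have h' : T < bcost W := by simpa using h
      nlinarith
    · omega

variable (X H) in
/-- The finite set of window types. -/
def types (R T : ℕ) : Set (List (G × ℕ)) :=
  {τ | IsBlocks X H τ ∧ τ.length = R ∧ bcost τ ≤ T}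

lemma types_finite (hX : X.Finite) (R T : ℕ) : (types X H R T).Finite := by
  have h1 : (Ball X T ×ˢ (Set.Iic T : Set ℕ)).Finite :=
    (Ball_finite X hX T).prod (Set.finite_Iic T)
  have h2 : {l : List (G × ℕ) | l.length = R ∧ ∀ p ∈ l, p ∈ Ball X T ×ˢ (Set.Iic T : Set ℕ)}.Finite := by
    have := h1.to_subtype
    have h3 := List.finite_length_eq (Ball X T ×ˢ (Set.Iic T : Set ℕ)) R
    refine (h3.image (List.map Subtype.val)).subset ?_
    rintro l ⟨hl1, hl2⟩
    refine ⟨l.attach.map (fun p => ⟨p.1, hl2 p.1 p.2⟩), by simpa using hl1, ?_⟩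
    rw [List.map_map]
    exact List.attach_map_subtype_val l
  refine h2.subset ?_
  rintro τ ⟨h3, h4, h5⟩
  refine ⟨h4, fun p hp => ?_⟩
  have hle : p.2 ≤ bcost τ := by
    unfold bcost
    exact List.single_le_sum (by simp) _ (List.mem_map_of_mem hp)
  refine ⟨Ball_mono X (hle.trans h5) (h3 p hp).2.1, ?_⟩
  exact hle.trans h5

open Classical in
lemma sum_count (T : Finset (List (G × ℕ))) (good : List (List (G × ℕ)))
    (h : ∀ W ∈ good, W ∈ T) : ∑ τ ∈ T, good.count τ = good.length := by
  induction good with
  | nil => simp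
  | cons W good ih =>
    have h1 := ih fun V hV => h V (by simp [hV])
    have h2 := h W (by simp)
    simp only [List.count_cons, Finset.sum_add_distrib, h1, beq_iff_eq, Finset.sum_ite_eq, h2,
      if_true, List.length_cons]

open Classical in
/-- Many windows of the same type. -/
lemma exists_type (hX : X.Finite) (K R l : ℕ) (hK : 1 ≤ K) (hR : 1 ≤ R) (us : List (G × ℕ))
    (hus : IsBlocks X H us) (hcost : bcost us ≤ K * us.length)
    (hlen : R * (2 * ((types X H R (2 * R * K)).ncard * l) + 3) ≤ us.length) :
    ∃ (Ws : List (List (G × ℕ))) (τ : List (G × ℕ)), Ws.flatten = us ∧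
      τ ∈ types X H R (2 * R * K) ∧ l ≤ Ws.count τ := by
  set T := 2 * R * K with hT
  set M := (types X H R T).ncard with hM
  set q := us.length / R with hq
  obtain ⟨Ws, rest, h1, h2, h3⟩ := exists_windows R q us (Nat.div_mul_le_self _ _)
  have hWs : ∀ W ∈ Ws, IsBlocks X H W := by
    intro W hW
    refine hus.of_subset ?_
    rw [h1]
    intro p hp
    simp only [List.mem_append, List.mem_flatten]
    exact Or.inl ⟨W, hW, hp⟩
  have hbad := bad_count Ws T
  have hcWs : bcost Ws.flatten ≤ bcost us := by rw [h1, bcost_append]; omega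
  have hq1 : us.length < (q + 1) * R := by
    have := Nat.lt_div_mul_add (a := us.length) (b := R) (by omega)
    rw [hq]; nlinarith
  set bad := (Ws.filter (fun W => ¬ bcost W ≤ T)).length with hbadd
  set good := Ws.filter (fun W => bcost W ≤ T) with hgood
  have hsum : good.length + bad = q := by
    rw [← h2, hgood, hbadd]
    have := List.length_eq_length_filter_add (l := Ws) (fun W => decide (bcost W ≤ T))
    rw [this]
    congr 3
    ext W
    simp only [decide_not]
  have h4 : bad * (2 * R * K) ≤ K * ((q + 1) * R) := by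
    calc bad * (2 * R * K) ≤ bad * (T + 1) := Nat.mul_le_mul_left _ (by omega)
      _ ≤ bcost Ws.flatten := hbad
      _ ≤ bcost us := hcWs
      _ ≤ K * us.length := hcost
      _ ≤ K * ((q + 1) * R) := Nat.mul_le_mul_left _ hq1.le
  have h5 : bad * 2 ≤ q + 1 := by
    have h6 : (bad * 2) * (R * K) ≤ (q + 1) * (R * K) := by nlinarith
    exact Nat.le_of_mul_le_mul_right h6 (by positivity)
  have hq2 : 2 * (M * l) + 3 ≤ q := by
    rw [hq, Nat.le_div_iff_mul_le (by omega)]
    nlinarith
  have h7 : M * l < good.length := by omega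
  have hgt : ∀ W ∈ good, W ∈ types X H R T := by
    intro W hW
    rw [hgood, List.mem_filter] at hW
    exact ⟨hWs W hW.1, h3 W hW.1, by simpa using hW.2⟩
  have hex : ∃ τ ∈ types X H R T, l ≤ good.count τ := by
    by_contra hcon
    push Not at hcon
    have hfin := types_finite (X := X) (H := H) hX R T
    have h8 : ∑ τ ∈ hfin.toFinset, good.count τ = good.length :=
      sum_count _ _ fun W hW => by
        rw [Set.Finite.mem_toFinset]
        exact hgt W hW
    have h9 : ∑ τ ∈ hfin.toFinset, good.count τ ≤ ∑ τ ∈ hfin.toFinset, l := by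
      apply Finset.sum_le_sum
      intro τ hτ
      exact (hcon τ (by simpa using hτ)).le
    rw [Finset.sum_const, smul_eq_mul, ← Set.ncard_eq_toFinset_card _ hfin, ← hM] at h9
    omega
  obtain ⟨τ, hτ, hcount⟩ := hex
  refine ⟨Ws ++ [rest], τ, ?_, hτ, ?_⟩
  · rw [h1]; simp
  · rw [List.count_append]
    have : good.count τ ≤ Ws.count τ := (List.filter_sublist).count_le τ
    omega

end Pool.Agent.Q105.CR
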