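import Mathlib
import Pool.Agent.Q105.TwBall
import Pool.Agent.Q105.CRb

/-!
# Conjugacy ratio, part 3: counting
-/

namespace Pool.Agent.Q105.CR

open Pool.Agent.Q105.TwBall

variable {G : Type*} [Group G] {X : Set G}

/-- The centre of `H`, as a subgroup of `G`. -/
def Zc (H : Subgroup G) : Subgroup G := H ⊓ Subgroup.centralizer (H : Set G)

lemma mem_Zc {H : Subgroup G} {z : G} : z ∈ Zc H ↔ z ∈ H ∧ ∀ h ∈ H, h * z = z * h := by
  unfold Zc
  rw [Subgroup.mem_inf, Subgroup.mem_centralizer_iff]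
  rfl

lemma Zc_comm {H : Subgroup G} {x y : G} (hx : x ∈ Zc H) (hy : y ∈ Zc H) : x * y = y * x :=
  (mem_Zc.mp hy).2 x (mem_Zc.mp hx).1

lemma exists_rho (X : Set G) (Z : Subgroup G) : ∃ rho : G → G, (∀ v, v⁻¹ * rho v ∈ Z) ∧
    (∀ v n, v ∈ Ball X n → rho v ∈ Ball X n) ∧ (∀ v v', v⁻¹ * v' ∈ Z → rho v = rho v') := by
  classical
  have key : ∀ κ : G ⧸ Z, ∃ r : G, (r : G ⧸ Z) = κ ∧
      ∀ (v : G) (n : ℕ), (v : G ⧸ Z) = κ → v ∈ Ball X n → r ∈ Ball X n := by
    intro κ
    by_cases h : ∃ n, ∃ v : G, (v : G ⧸ Z) = κ ∧ v ∈ Ball X n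
    · obtain ⟨r, hr1, hr2⟩ := Nat.find_spec h
      refine ⟨r, hr1, fun v n hv hn => ?_⟩
      exact Ball_mono X (Nat.find_min' h ⟨v, hv, hn⟩) hr2
    · push Not at h
      obtain ⟨r, hr⟩ := QuotientGroup.mk_surjective κ
      exact ⟨r, hr, fun v n hv hn => absurd hn (h n v hv)⟩
  choose r hr1 hr2 using key
  refine ⟨fun v => r (v : G ⧸ Z), fun v => ?_, fun v n hn => hr2 _ v n rfl hn, fun v v' h => ?_⟩
  · exact QuotientGroup.eq.mp (hr1 (v : G ⧸ Z)).symm
  · simp only
    rw [QuotientGroup.eq.mpr h]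

variable (X) in
/-- Bad elements for `v`. -/
def Bad (Z : Subgroup G) (rho : G → G) (n l : ℕ) (v : G) : Set G :=
  {g | g ∈ Z ∧ g ∈ Ball X n ∧ (rho v)⁻¹ * g ∉ Ball X n ∧
    ∀ t, 1 ≤ t → t ≤ l → g * (v⁻¹ * rho v) ^ t ∈ Ball X n ∧
      (rho v)⁻¹ * (g * (v⁻¹ * rho v) ^ t) ∈ Ball X n}

lemma bad_card (hX : X.Finite) (Z : Subgroup G) (rho : G → G) (n l : ℕ) (v : G) :
    (l + 1) * (Bad X Z rho n l v).ncard ≤ (Ball X n).ncard := by
  have h1 : (Bad X Z rho n l v ×ˢ (Set.Iic l : Set ℕ)).ncard ≤ (Ball X n).ncard := by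
    refine Set.ncard_le_ncard_of_injOn (fun p => p.1 * (v⁻¹ * rho v) ^ p.2) ?_ ?_
      (Ball_finite X hX n)
    · rintro ⟨g, t⟩ ⟨hg, ht⟩
      rcases Nat.eq_zero_or_pos t with rfl | hpos
      · simpa using hg.2.1
      · exact (hg.2.2.2 t hpos ht).1
    · have aux : ∀ (g g' : G) (t t' : ℕ), g ∈ Bad X Z rho n l v → g' ∈ Bad X Z rho n l v →
          t ≤ l → t' ≤ l → t ≤ t' →
          g * (v⁻¹ * rho v) ^ t = g' * (v⁻¹ * rho v) ^ t' → g = g' ∧ t = t' := by
        intro g g' t t' hg hg' ht ht' htt e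
        have h2 : g = g' * (v⁻¹ * rho v) ^ (t' - t) := by
          have h3 : (v⁻¹ * rho v) ^ t' = (v⁻¹ * rho v) ^ (t' - t) * (v⁻¹ * rho v) ^ t := by
            rw [← pow_add]; congr 1; omega
          rw [h3, ← mul_assoc] at e
          exact mul_right_cancel e
        rcases Nat.eq_zero_or_pos (t' - t) with h0 | hpos
        · rw [h0, pow_zero, mul_one] at h2
          exact ⟨h2, by omega⟩
        · exfalso
          apply hg.2.2.1
          rw [h2]
          exact (hg'.2.2.2 (t' - t) hpos (by omega)).2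
      rintro ⟨g, t⟩ ⟨hg, ht⟩ ⟨g', t'⟩ ⟨hg', ht'⟩ e
      simp only at e hg hg' ht ht'
      rcases le_total t t' with h | h
      · obtain ⟨rfl, rfl⟩ := aux g g' t t' hg hg' ht ht' h e
        rfl
      · obtain ⟨rfl, rfl⟩ := aux g' g t' t hg' hg ht' ht h e.symm
        rfl
  rw [Set.ncard_prod] at h1
  have h2 : (Set.Iic l : Set ℕ).ncard = l + 1 := by
    rw [← Nat.card_coe_set_eq]; simp
  rw [h2, mul_comm] at h1
  exact h1

variable (X) in
/-- Good elements. -/
def GoodSet (H : Subgroup G) (rho : G → G) (n R : ℕ) : Set G :=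
  {g | (g ∈ Zc H ∧ g ∈ Ball X n) ∧ ∃ f : Fin R → G, (∀ a, f a ∈ H) ∧ (∀ a b, (f a)⁻¹ * f b ∈ Zc H → a = b) ∧
    ∀ a, (rho (f a))⁻¹ * g ∈ Ball X n}

lemma good_card (hX : X.Finite) (H : Subgroup G) (rho : G → G)
    (h1 : ∀ v, v⁻¹ * rho v ∈ Zc H) (h3 : ∀ v v', v⁻¹ * v' ∈ Zc H → rho v = rho v') (n R : ℕ) :
    R * (GoodSet X H rho n R).ncard ≤ (Ball X n).ncard := by
  classical
  by_cases hR : R = 0
  · rw [hR]; simp
  have hex : ∀ g : G, ∃ f : Fin R → G, g ∈ GoodSet X H rho n R → (∀ a, f a ∈ H) ∧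
      (∀ a b, (f a)⁻¹ * f b ∈ Zc H → a = b) ∧ ∀ a, (rho (f a))⁻¹ * g ∈ Ball X n := by
    intro g
    by_cases hg : g ∈ GoodSet X H rho n R
    · obtain ⟨f, hf⟩ := hg.2
      exact ⟨f, fun _ => hf⟩
    · exact ⟨fun _ => 1, fun h => absurd h hg⟩
  choose f hf using hex
  have h4 : (GoodSet X H rho n R ×ˢ (Set.univ : Set (Fin R))).ncard ≤ (Ball X n).ncard := by
    refine Set.ncard_le_ncard_of_injOn (fun p => (rho (f p.1 p.2))⁻¹ * p.1) ?_ ?_
      (Ball_finite X hX n)
    · rintro ⟨g, a⟩ ⟨hg, _⟩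
      exact (hf g hg).2.2 a
    · rintro ⟨g, a⟩ ⟨hg, _⟩ ⟨g', a'⟩ ⟨hg', _⟩ e
      simp only at e hg hg'
      have hrH : ∀ v ∈ H, rho v ∈ H := by
        intro v hv
        have := H.mul_mem hv (mem_Zc.mp (h1 v)).1
        simpa using this
      have hgz := hg.1.1
      have hgz' := hg'.1.1
      set r := rho (f g a) with hr
      set r' := rho (f g' a') with hr'
      have hrm : r ∈ H := hrH _ ((hf g hg).1 a)
      have hrm' : r' ∈ H := hrH _ ((hf g' hg').1 a')
      have c1 : r⁻¹ * g = g * r⁻¹ := (mem_Zc.mp hgz).2 _ (H.inv_mem hrm)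
      have c2 : r'⁻¹ * g' = g' * r'⁻¹ := (mem_Zc.mp hgz').2 _ (H.inv_mem hrm')
      have hz : r⁻¹ * r' ∈ Zc H := by
        have e2 : r⁻¹ = g' * r'⁻¹ * g⁻¹ := by
          have : r⁻¹ * g = g' * r'⁻¹ := by rw [e, c2]
          rw [← this]; group
        have e3 : r⁻¹ * r' = g' * (r'⁻¹ * (g⁻¹ * r')) := by rw [e2]; group
        have c3 : g⁻¹ * r' = r' * g⁻¹ :=
          ((mem_Zc.mp ((Zc H).inv_mem hgz)).2 _ hrm').symm
        rw [e3, c3]
        have : g' * (r'⁻¹ * (r' * g⁻¹)) = g' * g⁻¹ := by group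
        rw [this]
        exact (Zc H).mul_mem hgz' ((Zc H).inv_mem hgz)
      have hz2 : (f g a)⁻¹ * (f g' a') ∈ Zc H := by
        have e4 : (f g a)⁻¹ * (f g' a') =
            ((f g a)⁻¹ * r) * (r⁻¹ * r') * ((f g' a')⁻¹ * r')⁻¹ := by group
        rw [e4]
        exact (Zc H).mul_mem ((Zc H).mul_mem (h1 _) hz) ((Zc H).inv_mem (h1 _))
      have hrr : r = r' := h3 _ _ hz2
      have hgg : g = g' := by
        rw [hrr] at e
        exact mul_left_cancel e
      subst hgg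
      have := (hf g hg).2.1 a a' hz2
      subst this
      rfl
  rw [Set.ncard_prod, Set.ncard_univ, Nat.card_eq_fintype_card, Fintype.card_fin, mul_comm] at h4
  exact h4

/-- The elements that can be shortened by a power of a short central element. -/
def Shrink (X : Set G) (Z : Subgroup G) (T n l : ℕ) : Set G :=
  {g | g ∈ Z ∧ ∃ z ∈ Z, z ∈ Ball X T ∧ g * z⁻¹ ^ l ∈ Ball X (n - l)}

lemma shrink_card (hX : X.Finite) (Z : Subgroup G) (T n l : ℕ) :
    (Shrink X Z T n l).ncard ≤ (Ball X T).ncard * (Ball X (n - l) ∩ Z).ncard := by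
  have h1 : Shrink X Z T n l ⊆
      (fun p : G × G => p.2 * p.1 ^ l) '' (Ball X T ×ˢ (Ball X (n - l) ∩ Z)) := by
    rintro g ⟨hg, z, hz, hzT, hgz⟩
    refine ⟨(z, g * z⁻¹ ^ l), ⟨hzT, hgz, Z.mul_mem hg (Z.pow_mem (Z.inv_mem hz) _)⟩, ?_⟩
    simp
  have hfin : (Ball X T ×ˢ (Ball X (n - l) ∩ (Z : Set G))).Finite :=
    (Ball_finite X hX T).prod ((Ball_finite X hX _).subset Set.inter_subset_left)
  refine (Set.ncard_le_ncard h1 (hfin.image _)).trans ((Set.ncard_image_le hfin).trans ?_)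
  rw [Set.ncard_prod]

/-- The trichotomy for elements with long block decompositions. -/
lemma trichotomy (hX : X.Finite) (H : Subgroup G) (rho : G → G)
    (h1 : ∀ v, v⁻¹ * rho v ∈ Zc H) (h2 : ∀ v n, v ∈ Ball X n → rho v ∈ Ball X n)
    (K R l n : ℕ) (hK : 1 ≤ K) (hR : 1 ≤ R) (us : List (G × ℕ))
    (hus : IsBlocks X H us) (hcost : bcost us ≤ K * us.length) (hn : bcost us ≤ n)
    (hlen : R * (2 * ((types X H R (2 * R * K)).ncard * l) + 3) ≤ us.length)
    (hcen : ∀ h ∈ H, h * bprod us = bprod us * h) :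
    bprod us ∈ Shrink X (Zc H) (2 * R * K) n l ∨
    (∃ v ∈ Ball X (2 * R * K), bprod us ∈ Bad X (Zc H) rho n l v) ∨
    bprod us ∈ GoodSet X H rho n R := by
  classical
  obtain ⟨Ws, τ, hWs, hτ, hcount⟩ := exists_type hX K R l hK hR us hus hcost hlen
  obtain ⟨hτb, hτl, hτc⟩ := hτ
  have hW : ∀ W ∈ Ws, IsBlocks X H W := by
    intro W hW
    refine hus.of_subset ?_
    rw [← hWs]
    intro p hp
    exact List.mem_flatten.mpr ⟨W, hW, hp⟩
  have hgZ : bprod us ∈ Zc H := mem_Zc.mpr ⟨hus.prod_mem, hcen⟩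
  have htake : ∀ a, IsBlocks X H (τ.take a) := fun a => hτb.of_subset (List.take_subset _ _)
  have hcostle : ∀ a, bcost (τ.take a) ≤ bcost τ := by
    intro a
    conv_rhs => rw [← List.take_append_drop a τ]
    rw [bcost_append]; omega
  by_cases hii : ∃ a b, a < b ∧ b < R ∧ (bprod (τ.take a))⁻¹ * bprod (τ.take b) ∈ Zc H
  · left
    obtain ⟨a, b, hab, hb, hz⟩ := hii
    set α := τ.take a with hα
    set σ := (τ.drop a).take (b - a) with hσ
    set β := τ.drop b with hβ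
    have hdec : α ++ σ ++ β = τ := by
      have e1 : α ++ σ = τ.take b := by
        rw [hα, hσ]
        have := List.take_add (l := τ) (i := a) (j := b - a)
        rw [show a + (b - a) = b by omega] at this
        exact this.symm
      rw [e1, hβ, List.take_append_drop]
    have hzσ : (bprod (τ.take a))⁻¹ * bprod (τ.take b) = bprod σ := by
      have e1 : τ.take b = α ++ σ := by
        rw [hα, hσ]
        have := List.take_add (l := τ) (i := a) (j := b - a)
        rw [show a + (b - a) = b by omega] at this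
        exact this
      rw [e1, bprod_append, hα]; group
    rw [hzσ] at hz
    have hσb : IsBlocks X H σ := hτb.of_subset (by rw [← hdec]; intro p hp; simp [hp])
    have hσlen : σ.length = b - a := by
      rw [hσ, List.length_take, List.length_drop, hτl]; omega
    have hσc : 1 ≤ bcost σ := by
      have := hσb.length_le
      omega
    have hσT : bcost σ ≤ 2 * R * K := by
      have : bcost σ ≤ bcost τ := by
        conv_rhs => rw [← hdec]
        simp only [bcost_append]; omega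
      omega
    have hcount' : l ≤ Ws.count (α ++ σ ++ β) := by rw [hdec]; exact hcount
    obtain ⟨N, hN1, hN2⟩ := replace Ws hW α σ β 1 0 1 (one_mem_Ball X 0) (by omega)
      (bprod σ)⁻¹ (by simp) (fun h hh => (mem_Zc.mp ((Zc H).inv_mem hz)).2 h hh) l hcount'
    rw [hWs] at hN1 hN2
    refine ⟨hgZ, bprod σ, hz, Ball_mono X hσT hσb.prod_mem_Ball, ?_⟩
    exact Ball_mono X (by omega) hN2
  · right
    push Not at hii
    set v : ℕ → G := fun a => bprod (τ.take a) with hv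
    have hvH : ∀ a, v a ∈ H := fun a => (htake a).prod_mem
    have hvB : ∀ a, v a ∈ Ball X (bcost (τ.take a)) := fun a => (htake a).prod_mem_Ball
    have hcount' : ∀ a, l ≤ Ws.count ([] ++ τ.take a ++ τ.drop a) := by
      intro a
      rw [List.nil_append, List.take_append_drop]
      exact hcount
    by_cases hbad : ∃ a, (rho (v a))⁻¹ * bprod us ∉ Ball X n
    · left
      obtain ⟨a, ha⟩ := hbad
      refine ⟨v a, Ball_mono X ((hcostle a).trans hτc) (hvB a), hgZ,
        Ball_mono X hn hus.prod_mem_Ball, ha, ?_⟩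
      intro t ht1 htl
      have hzc : ∀ h ∈ H, h * ((v a)⁻¹ * rho (v a)) = ((v a)⁻¹ * rho (v a)) * h :=
        (mem_Zc.mp (h1 (v a))).2
      constructor
      · obtain ⟨N, hN1, hN2⟩ := replace Ws hW [] (τ.take a) (τ.drop a) (rho (v a))
          (bcost (τ.take a)) 0 (h2 _ _ (hvB a)) (by omega) ((v a)⁻¹ * rho (v a))
          (by rw [hv]; group) hzc t (htl.trans (hcount' a))
        rw [hWs] at hN1 hN2
        exact Ball_mono X (by omega) hN2
      · obtain ⟨t, rfl⟩ : ∃ t', t = t' + 1 := ⟨t - 1, by omega⟩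
        have := replace_rotate Ws hW [] (τ.take a) (τ.drop a) (rho (v a))
          (bcost (τ.take a)) (h2 _ _ (hvB a)) (le_refl _) ((v a)⁻¹ * rho (v a))
          (by rw [hv]; group) hzc t (htl.trans (hcount' a)) (by rw [hWs]; exact hcen)
        rw [hWs] at this
        exact Ball_mono X hn this
    · right
      push Not at hbad
      refine ⟨⟨hgZ, Ball_mono X hn hus.prod_mem_Ball⟩, fun a => v a, fun a => hvH a, ?_,
        fun a => hbad a⟩
      intro a b hab
      by_contra hne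
      rcases lt_or_gt_of_ne (fun h => hne (Fin.ext h) : (a : ℕ) ≠ b) with h | h
      · exact hii a b h b.2 hab
      · apply hii b a h a.2
        have := (Zc H).inv_mem hab
        simpa using this

/-- Every element of a generated group lies in a ball. -/
lemma exists_mem_Ball (hgen : Subgroup.closure X = ⊤) (g : G) : ∃ n, g ∈ Ball X n := by
  have hg : g ∈ Subgroup.closure X := by rw [hgen]; trivial
  induction hg using Subgroup.closure_induction with
  | mem x hx => exact ⟨1, mem_Ball_one_of_mem X hx⟩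
  | one => exact ⟨0, one_mem_Ball X 0⟩
  | mul x y _ _ hx hy =>
    obtain ⟨m, hm⟩ := hx
    obtain ⟨n, hn⟩ := hy
    exact ⟨m + n, mul_mem_Ball X hm hn⟩
  | inv x _ hx =>
    obtain ⟨m, hm⟩ := hx
    exact ⟨m, inv_mem_Ball X hm⟩

lemma exists_ball_of_finite (hgen : Subgroup.closure X = ⊤) {ι : Type*} [Finite ι] (f : ι → G) :
    ∃ n, ∀ i, f i ∈ Ball X n := by
  classical
  have := Fintype.ofFinite ι
  choose m hm using fun i => exists_mem_Ball hgen (f i)
  refine ⟨Finset.univ.sup m, fun i => Ball_mono X ?_ (hm i)⟩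
  exact Finset.le_sup (Finset.mem_univ i)

/-- The balls of an infinite group are unbounded. -/
lemma ball_tendsto (hX : X.Finite) (hgen : Subgroup.closure X = ⊤) [Infinite G] (N : ℕ) :
    ∀ᶠ n in Filter.atTop, N ≤ (Ball X n).ncard := by
  obtain ⟨f⟩ : Nonempty (Fin N ↪ G) := ⟨(Fin.valEmbedding).trans (Infinite.natEmbedding G)⟩
  obtain ⟨n, hn⟩ := exists_ball_of_finite hgen f
  filter_upwards [Filter.eventually_ge_atTop n] with m hm
  have h1 : (Set.range f).ncard ≤ (Ball X m).ncard := by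
    apply Set.ncard_le_ncard _ (Ball_finite X hX m)
    rintro _ ⟨i, rfl⟩
    exact Ball_mono X hm (hn i)
  have h2 : (Set.range f).ncard = N := by
    rw [← Set.image_univ, Set.ncard_image_of_injective _ f.injective, Set.ncard_univ]
    simp
  omega

/-- If abelian `Z` is not negligible in all balls, uniformly after shrinking, then it has finite
index. -/
lemma finiteIndex_of_dense (hX : X.Finite) (hgen : Subgroup.closure X = ⊤) (Z : Subgroup G)
    (C : ℝ) (l0 : ℕ)
    (h : ∀ l, l0 ≤ l → ∃ᶠ n in Filter.atTop, ((Ball X n).ncard : ℝ) ≤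
      C * ((Ball X (n - l) ∩ (Z : Set G)).ncard : ℝ)) : Z.index ≠ 0 := by
  classical
  intro hidx
  have hinf : Infinite (G ⧸ Z) := by
    rw [← not_finite_iff_infinite]
    intro hfin
    have := Subgroup.index_ne_zero_of_finite (H := Z)
    exact this hidx
  set k : ℕ := ⌊C⌋₊ + 1 with hk
  obtain ⟨f⟩ : Nonempty (Fin k ↪ G ⧸ Z) :=
    ⟨(Fin.valEmbedding).trans (Infinite.natEmbedding (G ⧸ Z))⟩
  choose y hy using fun i => QuotientGroup.mk_surjective (f i)
  obtain ⟨l1, hl1⟩ := exists_ball_of_finite hgen y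
  set l := max l0 l1 with hl
  obtain ⟨n, hn, hnl⟩ := ((h l (le_max_left _ _)).and_eventually
    (Filter.eventually_ge_atTop l)).exists
  have h1 : ((Set.univ : Set (Fin k)) ×ˢ (Ball X (n - l) ∩ (Z : Set G))).ncard ≤
      (Ball X n).ncard := by
    refine Set.ncard_le_ncard_of_injOn (fun p => y p.1 * p.2) ?_ ?_ (Ball_finite X hX n)
    · rintro ⟨i, z⟩ ⟨_, hz⟩
      have h2 := mul_mem_Ball X (Ball_mono X (le_max_right l0 l1) (hl1 i)) hz.1
      exact Ball_mono X (by omega) h2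
    · rintro ⟨i, z⟩ ⟨_, hz⟩ ⟨j, w⟩ ⟨_, hw⟩ e
      simp only at e hz hw
      have h3 : f i = f j := by
        rw [← hy i, ← hy j, QuotientGroup.eq]
        have : (y i)⁻¹ * y j = z * w⁻¹ := by
          have : y j = y i * z * w⁻¹ := by rw [e]; group
          rw [this]; group
        rw [this]
        exact Z.mul_mem hz.2 (Z.inv_mem hw.2)
      have h4 := f.injective h3
      subst h4
      rw [mul_left_cancel e]
  rw [Set.ncard_prod, Set.ncard_univ, Nat.card_eq_fintype_card, Fintype.card_fin] at h1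
  have h2 : ((k : ℝ)) * ((Ball X (n - l) ∩ (Z : Set G)).ncard : ℝ) ≤ ((Ball X n).ncard : ℝ) := by
    exact_mod_cast h1
  have h3 : 0 < (Ball X (n - l) ∩ (Z : Set G)).ncard := by
    rw [Set.ncard_pos ((Ball_finite X hX _).subset Set.inter_subset_left)]
    exact ⟨1, one_mem_Ball X _, Z.one_mem⟩
  have h4 : (0 : ℝ) < ((Ball X (n - l) ∩ (Z : Set G)).ncard : ℝ) := by exact_mod_cast h3
  have h5 : (k : ℝ) ≤ C := le_of_mul_le_mul_right (h2.trans hn) h4
  have h6 : C < k := by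
    rw [hk]; push_cast; exact Nat.lt_floor_add_one C
  linarith

/-- The main counting theorem. -/
theorem index_ne_zero_of_blocks (hX : X.Finite) (hgen : Subgroup.closure X = ⊤)
    (H : Subgroup G) (K : ℕ) (hK : 1 ≤ K) (ε : ℝ) (hε : 0 < ε)
    (h : ∃ᶠ n : ℕ in Filter.atTop, ∃ W : Set G, ε * ((Ball X n).ncard : ℝ) ≤ (W.ncard : ℝ) ∧
      ∀ g ∈ W, ∃ us : List (G × ℕ), IsBlocks X H us ∧ bprod us = g ∧ bcost us ≤ n ∧
        bcost us ≤ K * us.length ∧ ∀ h ∈ H, h * g = g * h) : (Zc H).index ≠ 0 := by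
  classical
  rcases finite_or_infinite G with hfin | hinf
  · exact Subgroup.index_ne_zero_of_finite
  obtain ⟨rho, hr1, hr2, hr3⟩ := exists_rho X (Zc H)
  set R : ℕ := ⌈4 / ε⌉₊ + 1 with hR
  have hR1 : 1 ≤ R := by omega
  have hRε : 4 / ε ≤ R := by
    rw [hR]; push_cast
    have := Nat.le_ceil (4 / ε)
    linarith
  set T := 2 * R * K with hT
  set β := (Ball X T).ncard with hβ
  set l0 : ℕ := ⌈4 * β / ε⌉₊ with hl0
  refine finiteIndex_of_dense hX hgen (Zc H) (4 * β / ε) l0 fun l hl => ?_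
  set M := (types X H R T).ncard with hM
  set q0 := R * (2 * (M * l) + 3) with hq0
  set N0 : ℕ := ⌈4 * ((Ball X (K * q0)).ncard : ℝ) / ε⌉₊ with hN0
  refine (h.and_eventually (ball_tendsto hX hgen N0)).mono ?_
  rintro n ⟨⟨W, hW1, hW2⟩, hn⟩
  have hsub : W ⊆ Ball X (K * q0) ∪ (Shrink X (Zc H) T n l ∪
      ((⋃ v ∈ Ball X T, Bad X (Zc H) rho n l v) ∪ GoodSet X H rho n R)) := by
    intro g hg
    obtain ⟨us, hus, rfl, hc1, hc2, hc3⟩ := hW2 g hg
    by_cases hlen : q0 ≤ us.length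
    · right
      rcases trichotomy hX H rho hr1 hr2 K R l n hK hR1 us hus hc2 hc1 hlen hc3 with h | h | h
      · left; exact h
      · right; left
        obtain ⟨v, hv1, hv2⟩ := h
        simp only [Set.mem_iUnion]
        exact ⟨v, hv1, hv2⟩
      · right; right; exact h
    · left
      push Not at hlen
      refine Ball_mono X ?_ hus.prod_mem_Ball
      exact hc2.trans (Nat.mul_le_mul_left _ hlen.le)
  have hfB : ∀ m, (Ball X m).Finite := Ball_finite X hX
  have hfS : (Shrink X (Zc H) T n l).Finite := by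
    refine (((hfB T).prod (hfB (n - l))).image (fun p : G × G => p.2 * p.1 ^ l)).subset ?_
    rintro g ⟨_, z, _, hzT, hgz⟩
    exact ⟨(z, g * z⁻¹ ^ l), ⟨hzT, hgz⟩, by simp⟩
  have hfBad : ∀ v, (Bad X (Zc H) rho n l v).Finite := fun v =>
    (hfB n).subset fun g hg => hg.2.1
  have hfG : (GoodSet X H rho n R).Finite := (hfB n).subset fun g hg => hg.1.2
  have hfU : (⋃ v ∈ Ball X T, Bad X (Zc H) rho n l v).Finite :=
    Set.Finite.biUnion (hfB T) fun v _ => hfBad v
  have hc1 := shrink_card hX (Zc H) T n l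
  have hc2 : (l + 1) * (⋃ v ∈ Ball X T, Bad X (Zc H) rho n l v).ncard ≤
      β * (Ball X n).ncard := by
    have e1 : (⋃ v ∈ Ball X T, Bad X (Zc H) rho n l v) =
        ⋃ v ∈ (hfB T).toFinset, Bad X (Zc H) rho n l v := by simp
    have e2 := Finset.set_ncard_biUnion_le (hfB T).toFinset (fun v => Bad X (Zc H) rho n l v)
    rw [← e1] at e2
    calc (l + 1) * (⋃ v ∈ Ball X T, Bad X (Zc H) rho n l v).ncard
        ≤ (l + 1) * ∑ v ∈ (hfB T).toFinset, (Bad X (Zc H) rho n l v).ncard :=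
          Nat.mul_le_mul_left _ e2
      _ = ∑ v ∈ (hfB T).toFinset, (l + 1) * (Bad X (Zc H) rho n l v).ncard := by
          rw [Finset.mul_sum]
      _ ≤ ∑ v ∈ (hfB T).toFinset, (Ball X n).ncard :=
          Finset.sum_le_sum fun v _ => bad_card hX (Zc H) rho n l v
      _ = β * (Ball X n).ncard := by
          rw [Finset.sum_const, smul_eq_mul, ← Set.ncard_eq_toFinset_card _ (hfB T)]
  have hc3 := good_card hX H rho hr1 hr3 n R
  have hc4 : W.ncard ≤ (Ball X (K * q0)).ncard + ((Shrink X (Zc H) T n l).ncard +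
      ((⋃ v ∈ Ball X T, Bad X (Zc H) rho n l v).ncard + (GoodSet X H rho n R).ncard)) := by
    refine (Set.ncard_le_ncard hsub ((hfB _).union (hfS.union (hfU.union hfG)))).trans ?_
    refine (Set.ncard_union_le _ _).trans (Nat.add_le_add_left ?_ _)
    refine (Set.ncard_union_le _ _).trans (Nat.add_le_add_left ?_ _)
    exact Set.ncard_union_le _ _
  set b : ℝ := ((Ball X n).ncard : ℝ) with hb
  set z : ℝ := ((Ball X (n - l) ∩ (Zc H : Set G)).ncard : ℝ) with hz
  have hb0 : 0 < b := by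
    rw [hb]; exact_mod_cast Ball_ncard_pos X hX n
  have r1 : ((Shrink X (Zc H) T n l).ncard : ℝ) ≤ β * z := by
    rw [hz]; exact_mod_cast hc1
  have r2 : ((l : ℝ) + 1) * ((⋃ v ∈ Ball X T, Bad X (Zc H) rho n l v).ncard : ℝ) ≤ β * b := by
    rw [hb]; exact_mod_cast hc2
  have r3 : (R : ℝ) * ((GoodSet X H rho n R).ncard : ℝ) ≤ b := by
    rw [hb]; exact_mod_cast hc3
  have r4 : (W.ncard : ℝ) ≤ ((Ball X (K * q0)).ncard : ℝ) +
      (((Shrink X (Zc H) T n l).ncard : ℝ) +
      (((⋃ v ∈ Ball X T, Bad X (Zc H) rho n l v).ncard : ℝ) +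
        ((GoodSet X H rho n R).ncard : ℝ))) := by exact_mod_cast hc4
  have r5 : ((Ball X (K * q0)).ncard : ℝ) ≤ ε / 4 * b := by
    have h1 : (N0 : ℝ) ≤ b := by rw [hb]; exact_mod_cast hn
    have h2 : 4 * ((Ball X (K * q0)).ncard : ℝ) / ε ≤ N0 := by rw [hN0]; exact Nat.le_ceil _
    have h3 : 4 * ((Ball X (K * q0)).ncard : ℝ) / ε ≤ b := h2.trans h1
    rw [div_le_iff₀ hε] at h3
    linarith
  have r6 : ((⋃ v ∈ Ball X T, Bad X (Zc H) rho n l v).ncard : ℝ) ≤ ε / 4 * b := by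
    have h1 : 4 * (β : ℝ) / ε ≤ l := by
      have h2 : 4 * (β : ℝ) / ε ≤ l0 := by rw [hl0]; exact Nat.le_ceil _
      have h3 : (l0 : ℝ) ≤ l := by exact_mod_cast hl
      linarith
    have h4 : (β : ℝ) ≤ ε / 4 * (l + 1) := by
      rw [div_le_iff₀ hε] at h1
      nlinarith
    have h5 : ((l : ℝ) + 1) * ((⋃ v ∈ Ball X T, Bad X (Zc H) rho n l v).ncard : ℝ) ≤
        (l + 1) * (ε / 4 * b) := by
      calc _ ≤ (β : ℝ) * b := r2
        _ ≤ (ε / 4 * (l + 1)) * b := mul_le_mul_of_nonneg_right h4 hb0.le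
        _ = _ := by ring
    exact le_of_mul_le_mul_left h5 (by positivity)
  have r7 : ((GoodSet X H rho n R).ncard : ℝ) ≤ ε / 4 * b := by
    have h1 : 4 ≤ ε * R := by
      rw [div_le_iff₀ hε] at hRε
      linarith
    have hg0 : (0 : ℝ) ≤ ((GoodSet X H rho n R).ncard : ℝ) := by positivity
    nlinarith
  have r8 : ε * b ≤ ε / 4 * b + (β * z + (ε / 4 * b + ε / 4 * b)) := by linarith
  have r9 : ε * b ≤ 4 * (β * z) := by linarith
  rw [div_mul_eq_mul_div, le_div_iff₀ hε]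
  linarith

end Pool.Agent.Q105.CR
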