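import Mathlib
import Pool.Agent.Q105.TwBall
import Pool.Agent.Q105.CRb
import Pool.Agent.Q105.CRc

/-!
# Conjugacy ratio, part 1: from many small classes to block decompositions
-/

namespace Pool.Agent.Q105.CR

open Pool.Agent.Q105.TwBall

variable {G : Type*} [Group G] {X : Set G}

open Classical in
/-- The number of returns of the partial products to a subgroup. -/
noncomputable def ret (H : Subgroup G) (q : G) (w : List G) : ℕ :=
  ∑ i ∈ Finset.range w.length, if q * (w.take i).prod ∈ H then 1 else 0

open Classical in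
lemma ret_cons (H : Subgroup G) (q x : G) (w : List G) :
    ret H q (x :: w) = (if q ∈ H then 1 else 0) + ret H (q * x) w := by
  unfold ret
  rw [List.length_cons, Finset.sum_range_succ', add_comm]
  congr 1
  · exact if_congr (by simp) rfl rfl
  · refine Finset.sum_congr rfl fun i _ => ?_
    exact if_congr (by rw [List.take_succ_cons, List.prod_cons, ← mul_assoc]) rfl rfl

lemma ret_mul (H : Subgroup G) (q x : G) (hq : q ∈ H) (w : List G) :
    ret H (q * x) w = ret H x w := by
  unfold ret
  refine Finset.sum_congr rfl fun i _ => ?_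
  rw [mul_assoc, H.mul_mem_cancel_left hq]

lemma exists_blocks_aux (H : Subgroup G) (w : List G) (hw : ∀ x ∈ w, x ∈ Ball X 1) :
    ∀ (q : G) (k : ℕ), q ∈ Ball X k → 1 ≤ k → q * w.prod ∈ H →
      ∃ us : List (G × ℕ), IsBlocks X H us ∧ bprod us = q * w.prod ∧
        bcost us = k + w.length ∧ us.length = 1 + ret H q w := by
  induction w with
  | nil =>
    intro q k hq hk hH
    refine ⟨[(q, k)], ?_, by simp, by simp, by simp [ret]⟩
    intro p hp
    simp only [List.mem_singleton] at hp
    subst hp
    exact ⟨by simpa using hH, hq, hk⟩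
  | cons x w ih =>
    intro q k hq hk hH
    have hx : x ∈ Ball X 1 := hw x (by simp)
    have hw' : ∀ y ∈ w, y ∈ Ball X 1 := fun y hy => hw y (by simp [hy])
    rw [List.prod_cons] at hH ⊢
    by_cases hqH : q ∈ H
    · obtain ⟨us, h1, h2, h3, h4⟩ := ih hw' x 1 hx (le_refl _)
        ((H.mul_mem_cancel_left hqH).mp hH)
      refine ⟨(q, k) :: us, ?_, ?_, ?_, ?_⟩
      · intro p hp
        rcases List.mem_cons.mp hp with rfl | h
        · exact ⟨hqH, hq, hk⟩
        · exact h1 p h
      · rw [bprod_cons, h2]
      · rw [bcost_cons, h3, List.length_cons]; ring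
      · rw [List.length_cons, h4, ret_cons, if_pos hqH, ret_mul H q x hqH]; ring
    · obtain ⟨us, h1, h2, h3, h4⟩ := ih hw' (q * x) (k + 1) (mul_mem_Ball X hq hx) (by omega)
        (by rwa [mul_assoc])
      refine ⟨us, h1, by rw [h2, mul_assoc], by rw [h3, List.length_cons]; ring, ?_⟩
      rw [h4, ret_cons, if_neg hqH, zero_add]

lemma exists_blocks (H : Subgroup G) (w : List G) (hw : ∀ x ∈ w, x ∈ Ball X 1)
    (hH : w.prod ∈ H) :
    ∃ us : List (G × ℕ), IsBlocks X H us ∧ bprod us = w.prod ∧
        bcost us = w.length ∧ us.length = ret H 1 w := by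
  cases w with
  | nil => exact ⟨[], IsBlocks.nil, by simp, by simp, by simp [ret]⟩
  | cons x w =>
    rw [List.prod_cons] at hH
    obtain ⟨us, h1, h2, h3, h4⟩ := exists_blocks_aux H w (fun y hy => hw y (by simp [hy])) x 1
      (hw x (by simp)) (le_refl _) hH
    refine ⟨us, h1, by rw [h2, List.prod_cons], by rw [h3, List.length_cons]; ring, ?_⟩
    rw [h4, ret_cons, if_pos H.one_mem, one_mul]

/-- The conjugate of `g` by the prefix of length `i`. -/
def cj (g : G) (w : List G) (i : ℕ) : G := (w.take i).prod⁻¹ * g * (w.take i).prod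

lemma cj_succ (g : G) (w : List G) (i : ℕ) (hi : i < w.length) :
    cj g w (i + 1) = (w[i])⁻¹ * cj g w i * w[i] := by
  unfold cj
  have : (w.take (i + 1)).prod = (w.take i).prod * w[i] := by
    rw [List.take_succ_eq_append_getElem hi, List.prod_append, List.prod_singleton]
  rw [this]; group

lemma rotate_prod (w : List G) (i : ℕ) (hi : i ≤ w.length) :
    (w.rotate i).prod = cj w.prod w i := by
  rw [List.rotate_eq_drop_append_take hi, List.prod_append]
  unfold cj
  have : w.prod = (w.take i).prod * (w.drop i).prod := by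
    rw [← List.prod_append, List.take_append_drop]
  rw [this]; group

/-- Short conjugators exist when the orbit is small. -/
lemma exists_short (g : G) (w : List G) (hw : ∀ x ∈ w, x ∈ Ball X 1) (V : Set G) (hV : V.Finite)
    (K : ℕ) (hK : V.ncard ≤ K) (hmem : ∀ i ≤ w.length, cj g w i ∈ V) :
    ∀ i ≤ w.length, ∃ q ∈ Ball X K, q⁻¹ * g * q = cj g w i := by
  classical
  set D : ℕ → Set G := fun j =>
    {v | (∃ i ≤ w.length, v = cj g w i) ∧ ∃ q ∈ Ball X j, q⁻¹ * g * q = v} with hD
  have hDV : ∀ j, D j ⊆ V := by
    rintro j v ⟨⟨i, hi, rfl⟩, _⟩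
    exact hmem i hi
  have h0 : ∀ j, cj g w 0 ∈ D j := by
    intro j
    refine ⟨⟨0, Nat.zero_le _, rfl⟩, 1, one_mem_Ball X j, ?_⟩
    simp [cj]
  have key : ∀ j, (∀ i ≤ w.length, cj g w i ∈ D j) ∨ j + 1 ≤ (D j).ncard := by
    intro j
    induction j with
    | zero =>
      right
      rw [Nat.add_one_le_iff, Set.ncard_pos (hV.subset (hDV 0))]
      exact ⟨_, h0 0⟩
    | succ j ih =>
      have hmono : D j ⊆ D (j + 1) := by
        rintro v ⟨h1, q, hq, h2⟩
        exact ⟨h1, q, Ball_mono X (Nat.le_succ j) hq, h2⟩
      rcases ih with ih | ih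
      · left
        exact fun i hi => hmono (ih i hi)
      · by_cases hall : ∀ i ≤ w.length, cj g w i ∈ D j
        · left
          exact fun i hi => hmono (hall i hi)
        · right
          push Not at hall
          have hex : ∃ i, i ≤ w.length ∧ cj g w i ∉ D j := hall
          obtain ⟨hi1, hi2⟩ := Nat.find_spec hex
          set i := Nat.find hex with hi
          have hipos : i ≠ 0 := by
            intro h
            rw [h] at hi2
            exact hi2 (h0 j)
          obtain ⟨i', hi'⟩ := Nat.exists_eq_succ_of_ne_zero hipos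
          have hprev : cj g w i' ∈ D j := by
            by_contra hcon
            have := Nat.find_min hex (m := i') (by omega)
            exact this ⟨by omega, hcon⟩
          obtain ⟨_, q, hq, hq2⟩ := hprev
          have hnew : cj g w i ∈ D (j + 1) := by
            refine ⟨⟨i, hi1, rfl⟩, q * w[i'], ?_, ?_⟩
            · exact mul_mem_Ball X hq (hw _ (List.getElem_mem _))
            · rw [hi', Nat.succ_eq_add_one, cj_succ g w i' (by omega), ← hq2]; group
          have hss : D j ⊂ D (j + 1) := ⟨hmono, fun h => hi2 (h hnew)⟩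
          have := Set.ncard_lt_ncard hss (hV.subset (hDV (j + 1)))
          omega
  rcases key K with h | h
  · intro i hi
    obtain ⟨_, q, hq1, hq2⟩ := h i hi
    exact ⟨q, hq1, hq2⟩
  · exfalso
    have := Set.ncard_le_ncard (hDV K) hV
    omega

variable (X) in
/-- The short elements of the centraliser. -/
def shortCent (K : ℕ) (g : G) : Set G := {c | c ∈ Ball X K ∧ c * g = g * c}

lemma prefix_mem (g : G) (w : List G) (hw : ∀ x ∈ w, x ∈ Ball X 1) (V : Set G) (hV : V.Finite)
    (K : ℕ) (hK : V.ncard ≤ K) (hmem : ∀ i ≤ w.length, cj g w i ∈ V) (i : ℕ)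
    (hi : i ≤ w.length) (hfix : cj g w i = g) :
    (w.take i).prod ∈ Subgroup.closure (shortCent X (K + 1 + K) g) := by
  classical
  have hs := exists_short g w hw V hV K hK hmem
  have hchoose : ∀ v : G, ∃ q : G, (v = g → q = 1) ∧ ((∃ i ≤ w.length, cj g w i = v) →
      q ∈ Ball X K ∧ q⁻¹ * g * q = v) := by
    intro v
    by_cases hv : v = g
    · exact ⟨1, fun _ => rfl, fun _ => ⟨one_mem_Ball X K, by rw [hv]; simp⟩⟩
    · by_cases h : ∃ i ≤ w.length, cj g w i = v
      · obtain ⟨i, hi, rfl⟩ := h
        obtain ⟨q, hq1, hq2⟩ := hs i hi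
        exact ⟨q, fun h => absurd h hv, fun _ => ⟨hq1, hq2⟩⟩
      · exact ⟨1, fun h => absurd h hv, fun h' => absurd h' h⟩
  choose t ht1 ht2 using hchoose
  set H := Subgroup.closure (shortCent X (K + 1 + K) g) with hH
  have main : ∀ i ≤ w.length, (w.take i).prod * (t (cj g w i))⁻¹ ∈ H := by
    intro i
    induction i with
    | zero =>
      intro _
      have : cj g w 0 = g := by simp [cj]
      rw [this, ht1 g rfl]
      simp
    | succ i ih =>
      intro hi
      have h1 := ih (by omega)
      obtain ⟨a1, a2⟩ := ht2 (cj g w i) ⟨i, by omega, rfl⟩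
      obtain ⟨b1, b2⟩ := ht2 (cj g w (i + 1)) ⟨i + 1, hi, rfl⟩
      have hx : w[i] ∈ Ball X 1 := hw _ (List.getElem_mem _)
      have hmid : t (cj g w i) * w[i] * (t (cj g w (i + 1)))⁻¹ ∈ H := by
        apply Subgroup.subset_closure
        refine ⟨mul_mem_Ball X (mul_mem_Ball X a1 hx) (inv_mem_Ball X b1), ?_⟩
        rw [cj_succ g w i (by omega)] at b2 ⊢
        set c := cj g w i with hc
        set s := t c with hs
        set u := t ((w[i])⁻¹ * c * w[i]) with hu
        have e1 : g * u = u * ((w[i])⁻¹ * c * w[i]) := by rw [← b2]; group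
        have e2 : g * s = s * c := by rw [← a2]; group
        have e3 : u⁻¹ * g = ((w[i])⁻¹ * c * w[i]) * u⁻¹ := by rw [← b2]; group
        calc s * w[i] * u⁻¹ * g = s * w[i] * (u⁻¹ * g) := by group
          _ = s * w[i] * (((w[i])⁻¹ * c * w[i]) * u⁻¹) := by rw [e3]
          _ = (s * c) * w[i] * u⁻¹ := by group
          _ = (g * s) * w[i] * u⁻¹ := by rw [e2]
          _ = g * (s * w[i] * u⁻¹) := by group
      have h2 : (w.take (i + 1)).prod = (w.take i).prod * w[i] := by
        rw [List.take_succ_eq_append_getElem (by omega), List.prod_append, List.prod_singleton]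
      have h3 : (w.take (i + 1)).prod * (t (cj g w (i + 1)))⁻¹ =
          ((w.take i).prod * (t (cj g w i))⁻¹) *
            (t (cj g w i) * w[i] * (t (cj g w (i + 1)))⁻¹) := by
        rw [h2]; group
      rw [h3]
      exact H.mul_mem h1 hmid
  have := main i hi
  rwa [hfix, ht1 g rfl, inv_one, mul_one] at this

lemma closure_shortCent_comm (K : ℕ) (g h : G)
    (hh : h ∈ Subgroup.closure (shortCent X K g)) : h * g = g * h := by
  have : Subgroup.closure (shortCent X K g) ≤ Subgroup.centralizer {g} := by
    rw [Subgroup.closure_le]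
    rintro c ⟨_, hc⟩
    rw [SetLike.mem_coe, Subgroup.mem_centralizer_iff]
    intro y hy
    rw [Set.mem_singleton_iff.mp hy, hc]
  have h2 := this hh
  rw [Subgroup.mem_centralizer_iff] at h2
  exact (h2 g rfl).symm

/-- Each class with few elements in the ball has a good representative. -/
lemma class_blocks (hX : X.Finite) (n K : ℕ) (κ : ConjClasses G)
    (hκ : κ ∈ ConjClasses.mk '' Ball X n) (hcard : (κ.carrier ∩ Ball X n).ncard ≤ K) :
    ∃ g, ConjClasses.mk g = κ ∧ g ∈ Ball X n ∧ ∃ us : List (G × ℕ),
      IsBlocks X (Subgroup.closure (shortCent X (K + 1 + K) g)) us ∧ bprod us = g ∧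
        bcost us ≤ n ∧ bcost us ≤ K * us.length := by
  classical
  obtain ⟨g0, ⟨w0, hw0, hl0, hg0⟩, rfl⟩ := hκ
  rcases Nat.eq_zero_or_pos w0.length with hz | hpos
  · have : w0 = [] := List.eq_nil_of_length_eq_zero hz
    subst this
    simp only [List.prod_nil] at hg0
    exact ⟨g0, rfl, ⟨[], hw0, hl0, hg0⟩, [], IsBlocks.nil, by rw [← hg0]; simp, by simp, by simp⟩
  set m := w0.length with hm
  set F := (ConjClasses.mk g0).carrier ∩ Ball X n with hF
  have hFf : F.Finite := (Ball_finite X hX n).subset Set.inter_subset_right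
  set f : ℕ → G := fun i => (w0.rotate i).prod with hf
  have hl1 : ∀ x ∈ w0, x ∈ Ball X 1 := fun x hx =>
    ⟨[x], by simp, by simpa using hl0 x hx, by simp⟩
  have hper : ∀ i, f (i + m) = f i := by
    intro i
    simp only [hf]
    rw [← List.rotate_mod w0 (i + m), ← List.rotate_mod w0 i, hm, Nat.add_mod_right]
  have hfF : ∀ i, f i ∈ F := by
    intro i
    have h1 : f i = f (i % m) := by
      simp only [hf]
      rw [hm, List.rotate_mod]
    rw [h1]
    have hlt := Nat.mod_lt i hpos
    refine ⟨?_, w0.rotate (i % m), by rw [List.length_rotate]; exact hw0, ?_, rfl⟩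
    · rw [ConjClasses.mem_carrier_iff_mk_eq, ConjClasses.mk_eq_mk_iff_isConj]
      simp only [hf]
      rw [rotate_prod w0 _ hlt.le]
      rw [isConj_iff]
      exact ⟨(w0.take (i % m)).prod, by rw [cj, ← hg0]; group⟩
    · intro x hx
      rw [List.mem_rotate] at hx
      exact hl0 x hx
  -- a popular value
  obtain ⟨h, hhF, hpop⟩ : ∃ h ∈ F, m ≤ K * ((Finset.range m).filter (fun i => f i = h)).card := by
    by_contra hcon
    push Not at hcon
    have h1 : m = ∑ h ∈ hFf.toFinset, ((Finset.range m).filter (fun i => f i = h)).card := by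
      have := Finset.card_eq_sum_card_fiberwise (s := Finset.range m) (t := hFf.toFinset)
        (f := f) (by intro i _; simpa using hfF i)
      rwa [Finset.card_range] at this
    have h2 : K * m < K * m := by
      calc K * m = ∑ h ∈ hFf.toFinset,
            K * ((Finset.range m).filter (fun i => f i = h)).card := by
            conv_lhs => rw [h1]
            rw [Finset.mul_sum]
        _ < ∑ h ∈ hFf.toFinset, m := by
            apply Finset.sum_lt_sum_of_nonempty
            · exact ⟨f 0, by simpa using hfF 0⟩
            · intro h hh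
              exact hcon h (by simpa using hh)
        _ = F.ncard * m := by
            rw [Finset.sum_const, smul_eq_mul, ← Set.ncard_eq_toFinset_card _ hFf]
        _ ≤ K * m := Nat.mul_le_mul_right _ hcard
    exact lt_irrefl _ h2
  have hne : ((Finset.range m).filter (fun i => f i = h)).Nonempty := by
    rw [← Finset.card_pos]
    rcases Nat.eq_zero_or_pos ((Finset.range m).filter (fun i => f i = h)).card with h0 | h0
    · rw [h0] at hpop; omega
    · exact h0
  obtain ⟨j, hj⟩ := hne
  rw [Finset.mem_filter, Finset.mem_range] at hj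
  obtain ⟨hj1, hj2⟩ := hj
  set w := w0.rotate j with hw
  have hwl : w.length = m := by rw [hw, List.length_rotate]
  have hwp : w.prod = h := hj2
  have hwlet : ∀ x ∈ w, x ∈ Ball X 1 := by
    intro x hx
    rw [hw, List.mem_rotate] at hx
    exact hl1 x hx
  have hwrot : ∀ i, (w.rotate i).prod = f (j + i) := by
    intro i
    rw [hw, List.rotate_rotate]
  have hcj : ∀ i ≤ w.length, cj h w i = f (j + i) := by
    intro i hi
    rw [← hwrot, rotate_prod w i hi, hwp]
  have hmemF : ∀ i ≤ w.length, cj h w i ∈ F := fun i hi => by rw [hcj i hi]; exact hfF _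
  set H := Subgroup.closure (shortCent X (K + 1 + K) h) with hH
  have hpre : ∀ i ≤ w.length, cj h w i = h → (w.take i).prod ∈ H := fun i hi hfix =>
    prefix_mem h w hwlet F hFf K hcard hmemF i hi hfix
  have hprodH : w.prod ∈ H := by
    have := hpre w.length (le_refl _) (by
      unfold cj
      rw [List.take_length, hwp]; group)
    rwa [List.take_length] at this
  obtain ⟨us, hus1, hus2, hus3, hus4⟩ := exists_blocks H w hwlet hprodH
  refine ⟨h, ?_, hhF.2, us, hus1, by rw [hus2, hwp], by omega, ?_⟩
  · exact ConjClasses.mem_carrier_iff_mk_eq.mp hhF.1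
  · rw [hus3, hus4, hwl]
    refine hpop.trans (Nat.mul_le_mul_left _ ?_)
    have hshift : ((Finset.range m).filter (fun i => f i = h)).card =
        ((Finset.range m).filter (fun i => f (j + i) = h)).card := by
      have hp : Function.Periodic (fun i => f i = h) m := by
        intro i
        simp only [hper i]
      have e1 := Nat.filter_Ico_card_eq_of_periodic 0 m (fun i => f i = h) hp
      have e2 := Nat.filter_Ico_card_eq_of_periodic j m (fun i => f i = h) hp
      have e3 : ((Finset.Ico j (j + m)).filter (fun i => f i = h)).card =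
          ((Finset.range m).filter (fun i => f (j + i) = h)).card := by
        have : Finset.Ico j (j + m) = (Finset.range m).image (fun i => j + i) := by
          rw [Finset.range_eq_Ico, Finset.image_add_left_Ico]; simp
        rw [this, Finset.filter_image, Finset.card_image_of_injective _
          (fun a b hab => Nat.add_left_cancel hab)]
      have e0 : ((Finset.range m).filter (fun i => f i = h)).card =
          ((Finset.Ico 0 (0 + m)).filter (fun i => f i = h)).card := by
        rw [zero_add, Finset.range_eq_Ico]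
      rw [e0, e1, ← e2, e3]
    rw [hshift]
    unfold ret
    rw [Finset.card_filter, hwl]
    apply Finset.sum_le_sum
    intro i hi
    rw [Finset.mem_range] at hi
    split_ifs with c1 c2
    · exact le_refl _
    · exfalso
      apply c2
      rw [one_mul]
      exact hpre i (by omega) (by rw [hcj i (by omega)]; exact c1)
    · exact Nat.zero_le _
    · exact le_refl _

end Pool.Agent.Q105.CR
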