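import Mathlib
import Pool.Agent.Q105.TwBall
import Pool.Agent.Q105.CRa

/-!
# Positive conjugacy ratio implies virtually abelian
-/

namespace Pool.Agent.Q105.CR

open Pool.Agent.Q105.TwBall

variable {G : Type*} [Group G] {X : Set G}

/-- The conjugacy classes that meet the ball of radius `n`. -/
def conjBall (X : Set G) (n : ℕ) : Set (ConjClasses G) := ConjClasses.mk '' Ball X n

lemma conjBall_finite (hX : X.Finite) (n : ℕ) : (conjBall X n).Finite :=
  (Ball_finite X hX n).image _

lemma large_classes (hX : X.Finite) (n K : ℕ) :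
    (K + 1) * {κ ∈ conjBall X n | ¬ (κ.carrier ∩ Ball X n).ncard ≤ K}.ncard ≤
      (Ball X n).ncard := by
  classical
  have hB := Ball_finite X hX n
  have hC := conjBall_finite hX n
  have hL : {κ ∈ conjBall X n | ¬ (κ.carrier ∩ Ball X n).ncard ≤ K}.Finite :=
    hC.subset (Set.sep_subset _ _)
  have h1 : (Ball X n).ncard = ∑ κ ∈ hC.toFinset, (κ.carrier ∩ Ball X n).ncard := by
    rw [Set.ncard_eq_toFinset_card _ hB]
    rw [Finset.card_eq_sum_card_fiberwise (s := hB.toFinset) (t := hC.toFinset)
      (f := ConjClasses.mk) (by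
        intro g hg
        simp only [Finset.mem_coe, Set.Finite.mem_toFinset] at hg ⊢
        exact ⟨g, hg, rfl⟩)]
    refine Finset.sum_congr rfl fun κ _ => ?_
    have hfin : (κ.carrier ∩ Ball X n).Finite := hB.subset Set.inter_subset_right
    rw [Set.ncard_eq_toFinset_card _ hfin]
    congr 1
    ext g
    simp only [Finset.mem_filter, Set.Finite.mem_toFinset, Set.mem_inter_iff,
      ConjClasses.mem_carrier_iff_mk_eq]
    tauto
  calc (K + 1) * {κ ∈ conjBall X n | ¬ (κ.carrier ∩ Ball X n).ncard ≤ K}.ncard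
      = ∑ κ ∈ hL.toFinset, (K + 1) := by
        rw [Finset.sum_const, smul_eq_mul, ← Set.ncard_eq_toFinset_card _ hL, mul_comm]
    _ ≤ ∑ κ ∈ hL.toFinset, (κ.carrier ∩ Ball X n).ncard := by
        apply Finset.sum_le_sum
        intro κ hκ
        rw [Set.Finite.mem_toFinset] at hκ
        have := hκ.2
        omega
    _ ≤ ∑ κ ∈ hC.toFinset, (κ.carrier ∩ Ball X n).ncard := by
        apply Finset.sum_le_sum_of_subset
        intro κ hκ
        rw [Set.Finite.mem_toFinset] at hκ ⊢
        exact hκ.1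
    _ = _ := h1.symm

/-- A finitely generated group with positive conjugacy ratio is virtually abelian. -/
theorem virtuallyAbelian_of_frequently (hX : X.Finite) (hgen : Subgroup.closure X = ⊤)
    (c : ℝ) (hc : 0 < c)
    (h : ∃ᶠ n : ℕ in Filter.atTop, c * ((Ball X n).ncard : ℝ) ≤ ((conjBall X n).ncard : ℝ)) :
    ∃ A : Subgroup G, A.index ≠ 0 ∧ ∀ x ∈ A, ∀ y ∈ A, x * y = y * x := by
  classical
  set K : ℕ := ⌈2 / c⌉₊ with hK
  have hK1 : 1 ≤ K := by
    rw [hK]
    exact Nat.one_le_ceil_iff.mpr (by positivity)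
  have hKc : 2 ≤ c * K := by
    have h1 : 2 / c ≤ K := Nat.le_ceil _
    rw [div_le_iff₀ hc] at h1
    linarith
  set K' := K + 1 + K with hK'
  set P : Set (Set G) := 𝒫 (Ball X K') with hP
  have hPf : P.Finite := (Ball_finite X hX K').finite_subsets
  have hPpos : 0 < P.ncard := by
    rw [Set.ncard_pos hPf]
    exact ⟨∅, by rw [hP, Set.mem_powerset_iff]; exact Set.empty_subset _⟩
  set ε : ℝ := c / 2 / P.ncard with hε
  have hε0 : 0 < ε := by positivity
  set Q : ℕ → Set G → Prop := fun n S => ∃ W : Set G,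
    ε * ((Ball X n).ncard : ℝ) ≤ (W.ncard : ℝ) ∧
      ∀ g ∈ W, ∃ us : List (G × ℕ), IsBlocks X (Subgroup.closure S) us ∧ bprod us = g ∧
        bcost us ≤ n ∧ bcost us ≤ K * us.length ∧
          ∀ h ∈ Subgroup.closure S, h * g = g * h with hQ
  have hstep : ∃ᶠ n : ℕ in Filter.atTop, ∃ S ∈ P, Q n S := by
    refine h.mono fun n hn => ?_
    set Sm : Set (ConjClasses G) := {κ ∈ conjBall X n | (κ.carrier ∩ Ball X n).ncard ≤ K} with hSm
    have hC := conjBall_finite hX n
    have hSmf : Sm.Finite := hC.subset (Set.sep_subset _ _)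
    have hlarge := large_classes hX n K
    have hsplit : (conjBall X n).ncard ≤ Sm.ncard +
        {κ ∈ conjBall X n | ¬ (κ.carrier ∩ Ball X n).ncard ≤ K}.ncard := by
      refine (Set.ncard_le_ncard ?_ (hSmf.union (hC.subset (Set.sep_subset _ _)))).trans
        (Set.ncard_union_le _ _)
      intro κ hκ
      by_cases hh : (κ.carrier ∩ Ball X n).ncard ≤ K
      · left; exact ⟨hκ, hh⟩
      · right; exact ⟨hκ, hh⟩
    set b : ℝ := ((Ball X n).ncard : ℝ) with hb
    have hb0 : 0 < b := by rw [hb]; exact_mod_cast Ball_ncard_pos X hX n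
    have hSmb : c / 2 * b ≤ (Sm.ncard : ℝ) := by
      set L : ℝ := ({κ ∈ conjBall X n | ¬ (κ.carrier ∩ Ball X n).ncard ≤ K}.ncard : ℝ) with hL
      have r1 : ((K : ℝ) + 1) * L ≤ b := by rw [hL, hb]; exact_mod_cast hlarge
      have r2 : ((conjBall X n).ncard : ℝ) ≤ (Sm.ncard : ℝ) + L := by
        rw [hL]; exact_mod_cast hsplit
      have hL0 : 0 ≤ L := by rw [hL]; positivity
      have r3 : L ≤ c / 2 * b := by
        have : 2 * L ≤ c * b := by
          calc 2 * L ≤ (c * K) * L := mul_le_mul_of_nonneg_right hKc hL0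
            _ ≤ c * ((K + 1) * L) := by nlinarith
            _ ≤ c * b := mul_le_mul_of_nonneg_left r1 hc.le
        linarith
      linarith
    have hrep : ∀ κ : ConjClasses G, ∃ g : G, κ ∈ Sm → ConjClasses.mk g = κ ∧ g ∈ Ball X n ∧
        ∃ us : List (G × ℕ), IsBlocks X (Subgroup.closure (shortCent X K' g)) us ∧
          bprod us = g ∧ bcost us ≤ n ∧ bcost us ≤ K * us.length := by
      intro κ
      by_cases hκ : κ ∈ Sm
      · obtain ⟨g, hg⟩ := class_blocks hX n K κ hκ.1 hκ.2
        exact ⟨g, fun _ => hg⟩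
      · exact ⟨1, fun h => absurd h hκ⟩
    choose r hr using hrep
    set W : Set G := r '' Sm with hW
    have hWf : W.Finite := hSmf.image _
    have hWc : W.ncard = Sm.ncard := by
      rw [hW, Set.ncard_image_of_injOn]
      intro κ hκ κ' hκ' e
      rw [← (hr κ hκ).1, ← (hr κ' hκ').1, e]
    obtain ⟨S, hS, hScard⟩ : ∃ S ∈ hPf.toFinset,
        W.ncard ≤ P.ncard * (W ∩ {g | shortCent X K' g = S}).ncard := by
      by_contra hcon
      push Not at hcon
      have h1 : W.ncard ≤ ∑ S ∈ hPf.toFinset, (W ∩ {g | shortCent X K' g = S}).ncard := by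
        have e1 : W = ⋃ S ∈ hPf.toFinset, (W ∩ {g | shortCent X K' g = S}) := by
          ext g
          simp only [Set.mem_iUnion, Set.mem_inter_iff, Set.Finite.mem_toFinset,
            exists_prop]
          constructor
          · intro hg
            exact ⟨shortCent X K' g, fun c hc => hc.1, hg, rfl⟩
          · rintro ⟨S, _, hg, _⟩
            exact hg
        conv_lhs => rw [e1]
        exact Finset.set_ncard_biUnion_le _ _
      have h2 : P.ncard * W.ncard < P.ncard * W.ncard := by
        calc P.ncard * W.ncard ≤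
              ∑ S ∈ hPf.toFinset, P.ncard * (W ∩ {g | shortCent X K' g = S}).ncard := by
              rw [← Finset.mul_sum]
              exact Nat.mul_le_mul_left _ h1
          _ < ∑ S ∈ hPf.toFinset, W.ncard := by
              apply Finset.sum_lt_sum_of_nonempty
              · rw [← Finset.card_pos, ← Set.ncard_eq_toFinset_card _ hPf]
                exact hPpos
              · intro S hS
                exact hcon S hS
          _ = _ := by
              rw [Finset.sum_const, smul_eq_mul, ← Set.ncard_eq_toFinset_card _ hPf]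
      exact lt_irrefl _ h2
    refine ⟨S, by simpa using hS, W ∩ {g | shortCent X K' g = S}, ?_, ?_⟩
    · have r1 : (W.ncard : ℝ) ≤ (P.ncard : ℝ) *
          ((W ∩ {g | shortCent X K' g = S}).ncard : ℝ) := by exact_mod_cast hScard
      rw [hWc] at r1
      rw [hε, div_mul_eq_mul_div, div_le_iff₀ (by exact_mod_cast hPpos)]
      linarith
    · rintro g ⟨⟨κ, hκ, rfl⟩, hg⟩
      obtain ⟨_, _, us, h1, h2, h3, h4⟩ := hr κ hκ
      simp only [Set.mem_ofPred_eq] at hg
      rw [hg] at h1
      refine ⟨us, h1, h2, h3, h4, fun h hh => ?_⟩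
      rw [← hg] at hh
      exact closure_shortCent_comm K' _ h hh
  have hex : ∃ S ∈ P, ∃ᶠ n : ℕ in Filter.atTop, Q n S := by
    by_contra hcon
    push Not at hcon
    apply hstep
    have h1 : ∀ S ∈ P, ∀ᶠ n : ℕ in Filter.atTop, ¬ Q n S := hcon
    have h2 := (Filter.eventually_all_finite hPf).mpr h1
    filter_upwards [h2] with n hn
    push Not
    exact hn
  obtain ⟨S, _, hS⟩ := hex
  refine ⟨Zc (Subgroup.closure S),
    index_ne_zero_of_blocks hX hgen (Subgroup.closure S) K hK1 ε hε0 hS, ?_⟩
  intro x hx y hy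
  exact Zc_comm hx hy

end Pool.Agent.Q105.CR
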