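import Mathlib
import Pool.Agent.Q105.TwBall
import Pool.Agent.Q105.CRc

/-!
# Growth of virtually abelian groups: doubling, stability, equidistribution
-/

namespace Pool.Agent.Q105.Growth

open Pool.Agent.Q105.TwBall

variable {G : Type*} [Group G] {X : Set G}

section Annulus

lemma exists_split (r k : ℕ) {x : G} (hx : x ∈ Ball X (r + k)) :
    ∃ y, y ∈ Ball X r ∧ y⁻¹ * x ∈ Ball X k := by
  obtain ⟨l, hl, h1, rfl⟩ := hx
  refine ⟨(l.take r).prod, ⟨l.take r, by simp, fun x hx => h1 x (List.mem_of_mem_take hx), rfl⟩,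
    l.drop r, by simp; omega, fun x hx => h1 x (List.mem_of_mem_drop hx), ?_⟩
  have h2 : l.prod = (l.take r).prod * (l.drop r).prod := by
    rw [← List.prod_append, List.take_append_drop]
  rw [h2]; group

/-- The annulus inequality. -/
lemma annulus (hX : X.Finite) (r s : ℕ) (hs : 4 * s ≤ r) :
    (Ball X r \ Ball X (r - s)).ncard * (Ball X s).ncard ≤
      (Ball X (r - s) \ Ball X (r - 4 * s)).ncard * (Ball X (3 * s)).ncard := by
  classical
  have hB := Ball_finite X hX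
  -- for `x` of length `n` with `r - s < n ≤ r` go back `2 s` steps
  have key : ∀ x : G, ∃ y : G, x ∈ Ball X r \ Ball X (r - s) →
      y⁻¹ * x ∈ Ball X (2 * s) ∧ ∀ v ∈ Ball X s, y * v ∈ Ball X (r - s) \ Ball X (r - 4 * s) := by
    intro x
    by_cases hx : x ∈ Ball X r \ Ball X (r - s)
    · have hex : ∃ n, x ∈ Ball X n := ⟨r, hx.1⟩
      set n := Nat.find hex with hn
      have hxn : x ∈ Ball X n := Nat.find_spec hex
      have hnr : n ≤ r := Nat.find_min' hex hx.1
      have hns : r - s < n := by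
        by_contra hcon
        push Not at hcon
        exact hx.2 (Ball_mono X hcon hxn)
      obtain ⟨y, hy1, hy2⟩ := exists_split (X := X) (n - 2 * s) (2 * s) (x := x) (by
        rwa [show n - 2 * s + 2 * s = n by omega])
      refine ⟨y, fun _ => ⟨hy2, fun v hv => ⟨?_, ?_⟩⟩⟩
      · exact Ball_mono X (by omega) (mul_mem_Ball X hy1 hv)
      · intro hcon
        -- then `x` would have length less than `n`
        have h1 : x ∈ Ball X (r - 4 * s + s + 2 * s) := by
          have h2 := mul_mem_Ball X (mul_mem_Ball X hcon (inv_mem_Ball X hv)) hy2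
          have h3 : y * v * v⁻¹ * (y⁻¹ * x) = x := by group
          rwa [h3] at h2
        have h2 : n ≤ r - 4 * s + s + 2 * s := Nat.find_min' hex h1
        omega
    · exact ⟨1, fun h => absurd h hx⟩
  choose y hy using key
  have h1 : ((Ball X r \ Ball X (r - s)) ×ˢ Ball X s).ncard ≤
      ((Ball X (r - s) \ Ball X (r - 4 * s)) ×ˢ Ball X (3 * s)).ncard := by
    refine Set.ncard_le_ncard_of_injOn (fun p => (y p.1 * p.2, p.1⁻¹ * (y p.1 * p.2))) ?_ ?_
      (((hB _).subset Set.sdiff_subset).prod (hB _))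
    · rintro ⟨x, v⟩ ⟨hx, hv⟩
      refine ⟨(hy x hx).2 v hv, ?_⟩
      have h2 := mul_mem_Ball X (inv_mem_Ball X (hy x hx).1) hv
      have h3 : ((y x)⁻¹ * x)⁻¹ * v = x⁻¹ * (y x * v) := by group
      rw [h3] at h2
      exact Ball_mono X (by omega) h2
    · rintro ⟨x, v⟩ ⟨hx, hv⟩ ⟨x', v'⟩ ⟨hx', hv'⟩ e
      simp only [Prod.mk.injEq] at e
      obtain ⟨e1, e2⟩ := e
      rw [e1] at e2
      have h3 : x = x' := by
        have := mul_right_cancel e2
        exact inv_injective this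
      subst h3
      rw [mul_left_cancel e1]
  rwa [Set.ncard_prod, Set.ncard_prod] at h1

variable (X) in
/-- Doubling (with factor three). -/
def Doubling (D : ℕ) : Prop := ∀ s, 1 ≤ s → (Ball X (3 * s)).ncard ≤ D * (Ball X s).ncard

lemma annulus' (hX : X.Finite) (D : ℕ) (hD : Doubling X D) (r s : ℕ) (h1 : 1 ≤ s)
    (hs : 4 * s ≤ r) :
    (Ball X r \ Ball X (r - s)).ncard ≤ D * (Ball X (r - s) \ Ball X (r - 4 * s)).ncard := by
  have h2 := annulus hX r s hs
  have h3 := hD s h1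
  have h4 := Ball_ncard_pos X hX s
  have h5 : (Ball X r \ Ball X (r - s)).ncard * (Ball X s).ncard ≤
      (D * (Ball X (r - s) \ Ball X (r - 4 * s)).ncard) * (Ball X s).ncard := by
    calc _ ≤ (Ball X (r - s) \ Ball X (r - 4 * s)).ncard * (Ball X (3 * s)).ncard := h2
      _ ≤ (Ball X (r - s) \ Ball X (r - 4 * s)).ncard * (D * (Ball X s).ncard) :=
        Nat.mul_le_mul_left _ h3
      _ = _ := by ring
  exact Nat.le_of_mul_le_mul_right h5 h4

lemma ncard_diff (hX : X.Finite) {m n : ℕ} (h : m ≤ n) :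
    (Ball X n \ Ball X m).ncard + (Ball X m).ncard = (Ball X n).ncard :=
  Set.ncard_sdiff_add_ncard_of_subset (Ball_mono X h) (Ball_finite X hX n)

lemma thin_annulus (hX : X.Finite) (D : ℕ) (hD : Doubling X D) (r k : ℕ) (hk : 4 ^ k ≤ r) :
    ((D : ℝ) + 1) ^ k * ((Ball X r \ Ball X (r - 1)).ncard : ℝ) ≤
      (D : ℝ) ^ k * ((Ball X r \ Ball X (r - 4 ^ k)).ncard : ℝ) := by
  induction k with
  | zero => simp
  | succ k ih =>
    have hk' : 4 ^ k ≤ r := le_trans (Nat.pow_le_pow_right (by norm_num) (Nat.le_succ k)) hk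
    have h1 := ih hk'
    have h41 : 4 * 4 ^ k = 4 ^ (k + 1) := by ring
    have h2 := annulus' hX D hD r (4 ^ k) (Nat.one_le_pow _ _ (by norm_num)) (by rw [h41]; exact hk)
    have h3 := ncard_diff hX (m := r - 4 * 4 ^ k) (n := r - 4 ^ k) (by omega)
    have h4 := ncard_diff hX (m := r - 4 ^ k) (n := r) (by omega)
    have h5 := ncard_diff hX (m := r - 4 * 4 ^ k) (n := r) (by omega)
    have h6 : (D + 1) * (Ball X r \ Ball X (r - 4 ^ k)).ncard ≤
        D * (Ball X r \ Ball X (r - 4 * 4 ^ k)).ncard := by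
      have h7 : (Ball X r \ Ball X (r - 4 * 4 ^ k)).ncard =
          (Ball X r \ Ball X (r - 4 ^ k)).ncard +
            (Ball X (r - 4 ^ k) \ Ball X (r - 4 * 4 ^ k)).ncard := by omega
      rw [h7]
      nlinarith
    rw [h41] at h6
    have h8 : ((D : ℝ) + 1) * ((Ball X r \ Ball X (r - 4 ^ k)).ncard : ℝ) ≤
        D * ((Ball X r \ Ball X (r - 4 ^ (k + 1))).ncard : ℝ) := by exact_mod_cast h6
    calc ((D : ℝ) + 1) ^ (k + 1) * ((Ball X r \ Ball X (r - 1)).ncard : ℝ)
        = (D + 1) * (((D : ℝ) + 1) ^ k * ((Ball X r \ Ball X (r - 1)).ncard : ℝ)) := by ring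
      _ ≤ (D + 1) * ((D : ℝ) ^ k * ((Ball X r \ Ball X (r - 4 ^ k)).ncard : ℝ)) := by
          apply mul_le_mul_of_nonneg_left h1; positivity
      _ = (D : ℝ) ^ k * ((D + 1) * ((Ball X r \ Ball X (r - 4 ^ k)).ncard : ℝ)) := by ring
      _ ≤ (D : ℝ) ^ k * (D * ((Ball X r \ Ball X (r - 4 ^ (k + 1))).ncard : ℝ)) := by
          apply mul_le_mul_of_nonneg_left h8; positivity
      _ = _ := by ring

/-- Stable growth: each sphere is negligible. -/
def Stable (X : Set G) : Prop :=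
  ∀ ε : ℝ, 0 < ε → ∀ᶠ n : ℕ in Filter.atTop,
    ((Ball X (n + 1)).ncard : ℝ) ≤ (1 + ε) * ((Ball X n).ncard : ℝ)

lemma stable_of_doubling (hX : X.Finite) (D : ℕ) (hD : Doubling X D) : Stable X := by
  intro ε hε
  set θ : ℝ := (D : ℝ) / (D + 1) with hθ
  have hθ0 : 0 ≤ θ := by positivity
  have hθ1 : θ < 1 := by
    rw [hθ, div_lt_one (by positivity)]
    linarith
  obtain ⟨k, hk⟩ := exists_pow_lt_of_lt_one (show (0 : ℝ) < ε / (1 + ε) by positivity) hθ1
  filter_upwards [Filter.eventually_ge_atTop (4 ^ k)] with n hn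
  have h1 := thin_annulus hX D hD (n + 1) k (by omega)
  have h2 := ncard_diff hX (m := n) (n := n + 1) (by omega)
  have h3 := ncard_diff hX (m := n + 1 - 4 ^ k) (n := n + 1) (Nat.sub_le _ _)
  rw [Nat.add_sub_cancel] at h1
  set b : ℝ := ((Ball X n).ncard : ℝ) with hb
  set b' : ℝ := ((Ball X (n + 1)).ncard : ℝ) with hb'
  set u : ℝ := ((Ball X (n + 1) \ Ball X n).ncard : ℝ) with hu
  have h4 : u + b = b' := by rw [hu, hb, hb']; exact_mod_cast h2
  have h5 : ((Ball X (n + 1) \ Ball X (n + 1 - 4 ^ k)).ncard : ℝ) ≤ b' := by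
    rw [hb']; exact_mod_cast (by omega :
      (Ball X (n + 1) \ Ball X (n + 1 - 4 ^ k)).ncard ≤ (Ball X (n + 1)).ncard)
  have h6 : u ≤ θ ^ k * b' := by
    have h7 : ((D : ℝ) + 1) ^ k * u ≤ (D : ℝ) ^ k * b' :=
      h1.trans (mul_le_mul_of_nonneg_left h5 (by positivity))
    rw [hθ, div_pow, div_mul_eq_mul_div, le_div_iff₀ (by positivity)]
    linarith
  have hb'0 : 0 ≤ b' := by rw [hb']; positivity
  have h8 : u ≤ ε / (1 + ε) * b' := h6.trans (mul_le_mul_of_nonneg_right hk.le hb'0)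
  have h9 : (1 + ε) * u ≤ ε * b' := by
    rw [div_mul_eq_mul_div, le_div_iff₀ (by positivity)] at h8
    linarith
  nlinarith

lemma Stable.iterate (h : Stable X) (j : ℕ) (ε : ℝ) (hε : 0 < ε) :
    ∀ᶠ n : ℕ in Filter.atTop,
      ((Ball X (n + j)).ncard : ℝ) ≤ (1 + ε) * ((Ball X n).ncard : ℝ) := by
  induction j generalizing ε with
  | zero =>
    filter_upwards with n
    have : (0 : ℝ) ≤ ((Ball X n).ncard : ℝ) := by positivity
    rw [Nat.add_zero]; nlinarith
  | succ j ih =>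
    set δ := min (ε / 3) 1 with hδ
    have hδ0 : 0 < δ := by positivity
    have hδ1 : δ ≤ ε / 3 := min_le_left _ _
    have hδ2 : δ ≤ 1 := min_le_right _ _
    have h1 := ih δ hδ0
    have h2 := (Filter.tendsto_add_atTop_nat j).eventually (h δ hδ0)
    filter_upwards [h1, h2] with n hn1 hn2
    have h0 : (0 : ℝ) ≤ ((Ball X n).ncard : ℝ) := by positivity
    calc ((Ball X (n + (j + 1))).ncard : ℝ) ≤ (1 + δ) * ((Ball X (n + j)).ncard : ℝ) := hn2
      _ ≤ (1 + δ) * ((1 + δ) * ((Ball X n).ncard : ℝ)) :=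
          mul_le_mul_of_nonneg_left hn1 (by positivity)
      _ = ((1 + δ) * (1 + δ)) * ((Ball X n).ncard : ℝ) := by ring
      _ ≤ (1 + ε) * ((Ball X n).ncard : ℝ) := by
          apply mul_le_mul_of_nonneg_right _ h0
          nlinarith

lemma Stable.tendsto (hX : X.Finite) (h : Stable X) (j : ℕ) :
    Filter.Tendsto (fun n : ℕ => ((Ball X (n + j)).ncard : ℝ) / ((Ball X n).ncard : ℝ))
      Filter.atTop (nhds 1) := by
  rw [Metric.tendsto_nhds]
  intro ε hε
  filter_upwards [h.iterate j (ε / 2) (by positivity)] with n hn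
  have h0 : (0 : ℝ) < ((Ball X n).ncard : ℝ) := by exact_mod_cast Ball_ncard_pos X hX n
  have h1 : ((Ball X n).ncard : ℝ) ≤ ((Ball X (n + j)).ncard : ℝ) := by
    exact_mod_cast Ball_ncard_mono X hX (by omega)
  rw [Real.dist_eq, abs_lt]
  constructor
  · have : 1 ≤ ((Ball X (n + j)).ncard : ℝ) / ((Ball X n).ncard : ℝ) := by
      rw [le_div_iff₀ h0]; linarith
    linarith
  · have : ((Ball X (n + j)).ncard : ℝ) / ((Ball X n).ncard : ℝ) ≤ 1 + ε / 2 := by
      rw [div_le_iff₀ h0]; exact hn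
    linarith

end Annulus

end Pool.Agent.Q105.Growth
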