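import Mathlib
import Pool.Agent.Q105.TwBall
import Pool.Agent.Q105.CRc
import Pool.Agent.Q105.Growth

/-!
# Densities of cosets with respect to the balls of a group of stable growth
-/

namespace Pool.Agent.Q105.Growth

open Pool.Agent.Q105.TwBall Filter Topology

variable {G : Type*} [Group G] {X : Set G}

/-- Sequences comparable up to shifts have the same density. -/
lemma shift_lemma (hX : X.Finite) (hs : Stable X) (u v : ℕ → ℝ) (δ : ℝ) (j : ℕ)
    (hu : Tendsto (fun n : ℕ => u n / ((Ball X n).ncard : ℝ)) atTop (𝓝 δ))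
    (h1 : ∀ n, u n ≤ v (n + j)) (h2 : ∀ n, v n ≤ u (n + j)) :
    Tendsto (fun n : ℕ => v n / ((Ball X n).ncard : ℝ)) atTop (𝓝 δ) := by
  have hb : ∀ n, (0 : ℝ) < ((Ball X n).ncard : ℝ) := fun n => by
    exact_mod_cast Ball_ncard_pos X hX n
  have hj := hs.tendsto hX j
  -- upper bound
  have hup : Tendsto (fun n : ℕ => u (n + j) / ((Ball X n).ncard : ℝ)) atTop (𝓝 δ) := by
    have e : (fun n : ℕ => u (n + j) / ((Ball X n).ncard : ℝ)) = fun n : ℕ =>
        (u (n + j) / ((Ball X (n + j)).ncard : ℝ)) *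
          (((Ball X (n + j)).ncard : ℝ) / ((Ball X n).ncard : ℝ)) := by
      funext n
      have h3 := (hb n).ne'
      have h4 := (hb (n + j)).ne'
      field_simp
    rw [e]
    have := (hu.comp (tendsto_add_atTop_nat j)).mul hj
    rwa [mul_one] at this
  have hlow' : Tendsto (fun n : ℕ => u n / ((Ball X (n + j)).ncard : ℝ)) atTop (𝓝 δ) := by
    have e : (fun n : ℕ => u n / ((Ball X (n + j)).ncard : ℝ)) = fun n : ℕ =>
        (u n / ((Ball X n).ncard : ℝ)) *
          (((Ball X (n + j)).ncard : ℝ) / ((Ball X n).ncard : ℝ))⁻¹ := by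
      funext n
      have h3 := (hb n).ne'
      have h4 := (hb (n + j)).ne'
      field_simp
    rw [e]
    have := hu.mul (hj.inv₀ (by norm_num))
    rwa [inv_one, mul_one] at this
  have hv' : Tendsto (fun n : ℕ => v (n + j) / ((Ball X (n + j)).ncard : ℝ)) atTop (𝓝 δ) := by
    refine tendsto_of_tendsto_of_tendsto_of_le_of_le hlow' (hup.comp (tendsto_add_atTop_nat j))
      ?_ ?_
    · intro n
      exact div_le_div_of_nonneg_right (h1 n) (hb _).le
    · intro n
      exact div_le_div_of_nonneg_right (h2 (n + j)) (hb _).le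
  exact (tendsto_add_atTop_iff_nat j).mp hv'

/-- Disjoint translates. -/
lemma translates_le (hX : X.Finite) (H : Subgroup G) {ι : Type*} [Fintype ι] (y : ι → G) (j n : ℕ)
    (hy : ∀ i, y i ∈ Ball X j) (hinj : ∀ i i', (y i)⁻¹ * y i' ∈ H → i = i') :
    Fintype.card ι * (Ball X n ∩ (H : Set G)).ncard ≤ (Ball X (n + j)).ncard := by
  have h1 : ((Set.univ : Set ι) ×ˢ (Ball X n ∩ (H : Set G))).ncard ≤
      (Ball X (n + j)).ncard := by
    refine Set.ncard_le_ncard_of_injOn (fun p => y p.1 * p.2) ?_ ?_ (Ball_finite X hX _)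
    · rintro ⟨i, z⟩ ⟨_, hz⟩
      exact Ball_mono X (by omega) (mul_mem_Ball X (hy i) hz.1)
    · rintro ⟨i, z⟩ ⟨_, hz⟩ ⟨i', w⟩ ⟨_, hw⟩ e
      simp only at e hz hw
      have h3 : i = i' := by
        apply hinj
        have : y i' = y i * z * w⁻¹ := by rw [e]; group
        have h4 : (y i)⁻¹ * y i' = z * w⁻¹ := by rw [this]; group
        rw [h4]
        exact H.mul_mem hz.2 (H.inv_mem hw.2)
      subst h3
      rw [mul_left_cancel e]
  rwa [Set.ncard_prod, Set.ncard_univ, Nat.card_eq_fintype_card] at h1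

/-- The density of a subgroup is the inverse of its index. -/
lemma density_subgroup (hX : X.Finite) (hgen : Subgroup.closure X = ⊤) (hs : Stable X)
    (H : Subgroup G) :
    Tendsto (fun n : ℕ => ((Ball X n ∩ (H : Set G)).ncard : ℝ) / ((Ball X n).ncard : ℝ))
      atTop (𝓝 ((H.index : ℝ)⁻¹)) := by
  classical
  have hb : ∀ n, (0 : ℝ) < ((Ball X n).ncard : ℝ) := fun n => by
    exact_mod_cast Ball_ncard_pos X hX n
  by_cases hidx : H.index = 0
  · rw [hidx, Nat.cast_zero, inv_zero]
    have hinf : Infinite (G ⧸ H) := by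
      rw [← not_finite_iff_infinite]
      intro hfin
      exact (Subgroup.index_ne_zero_of_finite (H := H)) hidx
    rw [Metric.tendsto_nhds]
    intro ε hε
    obtain ⟨k, hk⟩ := exists_nat_gt (2 / ε)
    have hk0 : (0 : ℝ) < k := lt_trans (by positivity) hk
    obtain ⟨f⟩ : Nonempty (Fin k ↪ G ⧸ H) :=
      ⟨(Fin.valEmbedding).trans (Infinite.natEmbedding (G ⧸ H))⟩
    choose y hy using fun i => QuotientGroup.mk_surjective (f i)
    obtain ⟨j, hj⟩ := CR.exists_ball_of_finite hgen y
    filter_upwards [hs.iterate j 1 one_pos] with n hn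
    have h1 := translates_le hX H y j n hj (fun i i' h => by
      apply f.injective
      rw [← hy i, ← hy i', QuotientGroup.eq]
      exact h)
    rw [Fintype.card_fin] at h1
    have h2 : (k : ℝ) * ((Ball X n ∩ (H : Set G)).ncard : ℝ) ≤ ((Ball X (n + j)).ncard : ℝ) := by
      exact_mod_cast h1
    rw [Real.dist_eq, sub_zero, abs_of_nonneg (by positivity), div_lt_iff₀ (hb n)]
    have h3 : (k : ℝ) * ((Ball X n ∩ (H : Set G)).ncard : ℝ) ≤ 2 * ((Ball X n).ncard : ℝ) := by
      linarith
    have h4 : 2 < ε * k := by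
      rw [div_lt_iff₀ hε] at hk
      linarith
    have h5 : (k : ℝ) * ((Ball X n ∩ (H : Set G)).ncard : ℝ) < k * (ε * ((Ball X n).ncard : ℝ)) := by
      calc _ ≤ 2 * ((Ball X n).ncard : ℝ) := h3
        _ < (ε * k) * ((Ball X n).ncard : ℝ) := mul_lt_mul_of_pos_right h4 (hb n)
        _ = _ := by ring
    exact lt_of_mul_lt_mul_left h5 hk0.le
  · have hfi : H.FiniteIndex := ⟨hidx⟩
    have hfin : Finite (G ⧸ H) := inferInstance
    have := Fintype.ofFinite (G ⧸ H)
    set y : G ⧸ H → G := fun q => q.out with hy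
    obtain ⟨j, hj⟩ := CR.exists_ball_of_finite hgen y
    have hcard : Fintype.card (G ⧸ H) = H.index := by
      rw [← Nat.card_eq_fintype_card]; rfl
    have hm : (0 : ℝ) < (H.index : ℝ) := by exact_mod_cast Nat.pos_of_ne_zero hidx
    refine shift_lemma hX hs (fun n => ((Ball X n).ncard : ℝ) / (H.index : ℝ)) _ _ j ?_ ?_ ?_
    · have e : (fun n : ℕ => ((Ball X n).ncard : ℝ) / (H.index : ℝ) / ((Ball X n).ncard : ℝ)) =
          fun _ => ((H.index : ℝ)⁻¹) := by
        funext n
        have := (hb n).ne'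
        field_simp
      rw [e]
      exact tendsto_const_nhds
    · intro n
      rw [div_le_iff₀ hm]
      have h1 : (Ball X n).ncard ≤
          ((Ball X (n + j) ∩ (H : Set G)) ×ˢ (Set.univ : Set (G ⧸ H))).ncard := by
        refine Set.ncard_le_ncard_of_injOn (fun g => ((y (g : G ⧸ H))⁻¹ * g, (g : G ⧸ H))) ?_ ?_
          (((Ball_finite X hX _).subset Set.inter_subset_left).prod Set.finite_univ)
        · intro g hg
          refine ⟨⟨?_, ?_⟩, trivial⟩
          · exact Ball_mono X (by omega) (mul_mem_Ball X (inv_mem_Ball X (hj _)) hg)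
          · rw [SetLike.mem_coe, ← QuotientGroup.eq]
            exact Quotient.out_eq' _
        · intro g _ g' _ e
          simp only [Prod.mk.injEq] at e
          rw [e.2] at e
          exact mul_left_cancel e.1
      rw [Set.ncard_prod, Set.ncard_univ, Nat.card_eq_fintype_card, hcard] at h1
      exact_mod_cast h1
    · intro n
      rw [le_div_iff₀ hm]
      have h1 := translates_le hX H y j n hj (fun i i' h => by
        rw [← QuotientGroup.eq] at h
        simpa [hy] using h)
      rw [hcard, mul_comm] at h1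
      exact_mod_cast h1

/-- The density of a left coset. -/
lemma density_coset (hX : X.Finite) (hgen : Subgroup.closure X = ⊤) (hs : Stable X)
    (H : Subgroup G) (g : G) :
    Tendsto (fun n : ℕ => ((Ball X n ∩ {x | g⁻¹ * x ∈ H}).ncard : ℝ) / ((Ball X n).ncard : ℝ))
      atTop (𝓝 ((H.index : ℝ)⁻¹)) := by
  obtain ⟨j, hj⟩ := CR.exists_mem_Ball hgen g
  refine shift_lemma hX hs (fun n => ((Ball X n ∩ (H : Set G)).ncard : ℝ)) _ _ j
    (density_subgroup hX hgen hs H) ?_ ?_
  · intro n
    have : (Ball X n ∩ (H : Set G)).ncard ≤ (Ball X (n + j) ∩ {x | g⁻¹ * x ∈ H}).ncard := by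
      refine Set.ncard_le_ncard_of_injOn (fun x => g * x) ?_ ?_
        ((Ball_finite X hX _).subset Set.inter_subset_left)
      · rintro x ⟨hx1, hx2⟩
        refine ⟨Ball_mono X (by omega) (mul_mem_Ball X hj hx1), ?_⟩
        simpa using hx2
      · intro x _ y _ e
        exact mul_left_cancel e
    exact_mod_cast this
  · intro n
    have : (Ball X n ∩ {x | g⁻¹ * x ∈ H}).ncard ≤ (Ball X (n + j) ∩ (H : Set G)).ncard := by
      refine Set.ncard_le_ncard_of_injOn (fun x => g⁻¹ * x) ?_ ?_
        ((Ball_finite X hX _).subset Set.inter_subset_left)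
      · rintro x ⟨hx1, hx2⟩
        exact ⟨Ball_mono X (by omega) (mul_mem_Ball X (inv_mem_Ball X hj) hx1), hx2⟩
      · intro x _ y _ e
        exact mul_left_cancel e
    exact_mod_cast this

/-! ### Virtually abelian groups -/

lemma pow_mem_Ball {L : ℕ} {a : G} (ha : a ∈ Ball X L) (k : ℕ) : a ^ k ∈ Ball X (L * k) := by
  induction k with
  | zero => simpa using one_mem_Ball X 0
  | succ k ih =>
    rw [pow_succ, Nat.mul_succ]
    exact mul_mem_Ball X ih ha

/-- A finitely generated virtually abelian group is doubling. -/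
theorem doubling_of_virtuallyAbelian (hX : X.Finite) (hgen : Subgroup.closure X = ⊤)
    (A : Subgroup G) (hA : A.index ≠ 0) (hcomm : ∀ x ∈ A, ∀ y ∈ A, x * y = y * x) :
    ∃ D, Doubling X D := by
  classical
  let : CommGroup A :=
    { (inferInstance : Group A) with
      mul_comm := fun x y => Subtype.ext (hcomm x x.2 y y.2) }
  have hfi : A.FiniteIndex := ⟨hA⟩
  have hfin : Finite (G ⧸ A) := inferInstance
  set rep : G → G := fun g => ((g : G ⧸ A)).out with hrep
  have hrepA : ∀ g, g⁻¹ * rep g ∈ A := by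
    intro g
    rw [← QuotientGroup.eq]
    exact (Quotient.out_eq' _).symm
  have hrange : (Set.range rep).Finite := by
    have : Set.range rep ⊆ Set.range (fun q : G ⧸ A => q.out) := by
      rintro _ ⟨g, rfl⟩
      exact ⟨(g : G ⧸ A), rfl⟩
    exact (Set.finite_range _).subset this
  have hXX : {x : G | x ∈ X ∨ x⁻¹ ∈ X}.Finite := by
    have h : {x : G | x ∈ X ∨ x⁻¹ ∈ X} = X ∪ X⁻¹ := by ext; simp
    rw [h]
    exact hX.union hX.inv
  have hSf : {a : A | ∃ t ∈ Set.range rep, ∃ t' ∈ Set.range rep, ∃ x ∈ {x : G | x ∈ X ∨ x⁻¹ ∈ X},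
      (a : G) = t⁻¹ * x * t'}.Finite := by
    have h1 : ((fun p : G × G × G => p.1⁻¹ * p.2.1 * p.2.2) ''
        (Set.range rep ×ˢ {x : G | x ∈ X ∨ x⁻¹ ∈ X} ×ˢ Set.range rep)).Finite :=
      (hrange.prod (hXX.prod hrange)).image _
    refine Set.Finite.subset (h1.preimage (f := ((↑) : A → G)) Subtype.val_injective.injOn) ?_
    rintro a ⟨t, ht, t', ht', x, hx, ha⟩
    exact ⟨(t, x, t'), ⟨ht, hx, ht'⟩, ha.symm⟩
  set S : Finset A := hSf.toFinset with hS
  have hmemS : ∀ a : A, a ∈ S ↔ ∃ t ∈ Set.range rep, ∃ t' ∈ Set.range rep,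
      ∃ x ∈ {x : G | x ∈ X ∨ x⁻¹ ∈ X}, (a : G) = t⁻¹ * x * t' := by
    intro a
    rw [hS, Set.Finite.mem_toFinset]
    rfl
  have hdec : ∀ l : List G, (∀ x ∈ l, x ∈ X ∨ x⁻¹ ∈ X) → ∃ s : List A, s.length = l.length ∧
      (∀ a ∈ s, a ∈ S) ∧ l.prod = rep l.prod * (s.prod : A) * (rep 1)⁻¹ := by
    intro l
    induction l with
    | nil => intro _; exact ⟨[], rfl, by simp, by simp⟩
    | cons x l ih =>
      intro h
      obtain ⟨s, h1, h2, h3⟩ := ih fun y hy => h y (by simp [hy])
      have hmem : (rep (x * l.prod))⁻¹ * x * rep l.prod ∈ A := by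
        have e : (rep (x * l.prod))⁻¹ * x * rep l.prod =
            ((x * l.prod)⁻¹ * rep (x * l.prod))⁻¹ * (l.prod⁻¹ * rep l.prod) := by group
        rw [e]
        exact A.mul_mem (A.inv_mem (hrepA _)) (hrepA _)
      refine ⟨⟨_, hmem⟩ :: s, by simp [h1], ?_, ?_⟩
      · intro a ha
        rcases List.mem_cons.mp ha with rfl | ha
        · rw [hmemS]
          exact ⟨_, ⟨_, rfl⟩, _, ⟨_, rfl⟩, x, h x (by simp), rfl⟩
        · exact h2 a ha
      · rw [List.prod_cons, List.prod_cons]
        conv_lhs => rw [h3]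
        simp only [Subgroup.coe_mul]
        group
  obtain ⟨L, hL⟩ := CR.exists_ball_of_finite hgen (fun a : S => ((a : A) : G))
  set p : ℕ := 3 * (L + 1) with hp
  have hppos : 0 < p := by omega
  refine ⟨(Set.range rep).ncard * p ^ S.card, fun n _ => ?_⟩
  -- the covering
  have hcov : Ball X (3 * n) ⊆ (fun q : G × G × (S → Fin p) =>
      q.1 * q.2.1 ^ p * ((∏ a : S, (a : A) ^ ((q.2.2 a : Fin p) : ℕ) : A) : G) * (rep 1)⁻¹) ''
        (Set.range rep ×ˢ Ball X n ×ˢ (Set.univ : Set (S → Fin p))) := by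
    rintro g ⟨l, hl, hlX, rfl⟩
    obtain ⟨s, h1, h2, h3⟩ := hdec l hlX
    set cnt : A → ℕ := fun a => @List.count A instBEqOfDecidableEq a s with hcnt
    set q : S → ℕ := fun a => cnt (a : A) / p with hq
    have hprod : s.prod = (∏ a : S, (a : A) ^ q a) ^ p *
        ∏ a : S, (a : A) ^ (cnt (a : A) % p) := by
      have e1 : s.prod = ∏ a ∈ S, a ^ cnt a :=
        Finset.prod_list_count_of_subset s S (by
          intro a ha
          exact h2 a (List.mem_toFinset.mp ha))
      rw [e1, ← Finset.prod_coe_sort S (fun a => a ^ cnt a), ← Finset.prod_pow,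
        ← Finset.prod_mul_distrib]
      refine Finset.prod_congr rfl fun a _ => ?_
      rw [← pow_mul, ← pow_add]
      congr 1
      simp only [hq]
      rw [Nat.div_add_mod']
    have hu : ((∏ a : S, (a : A) ^ q a : A) : G) ∈ Ball X n := by
      have e2 : ∀ T : Finset S, ((∏ a ∈ T, (a : A) ^ q a : A) : G) ∈
          Ball X (L * ∑ a ∈ T, q a) := by
        intro T
        induction T using Finset.induction_on with
        | empty => simpa using one_mem_Ball X 0
        | insert a T ha ih =>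
          rw [Finset.prod_insert ha, Finset.sum_insert ha, Nat.mul_add, Subgroup.coe_mul,
            Subgroup.coe_pow]
          exact mul_mem_Ball X (pow_mem_Ball (hL a) _) ih
      refine Ball_mono X ?_ (e2 Finset.univ)
      have e3 : p * ∑ a : S, q a ≤ s.length := by
        calc p * ∑ a : S, q a = ∑ a : S, p * q a := by rw [Finset.mul_sum]
          _ ≤ ∑ a : S, cnt (a : A) := Finset.sum_le_sum fun a _ => Nat.mul_div_le _ _
          _ = ∑ a ∈ S, cnt a := Finset.sum_coe_sort S (fun a => cnt a)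
          _ = s.length := by
            have := Multiset.sum_count_eq_card (s := S) (m := (s : Multiset A)) (by
              intro a ha
              exact h2 a (by simpa using ha))
            simpa using this
      have e4 : 3 * (L * ∑ a : S, q a) ≤ 3 * n := by
        calc 3 * (L * ∑ a : S, q a) ≤ 3 * ((L + 1) * ∑ a : S, q a) := by
              apply Nat.mul_le_mul_left
              apply Nat.mul_le_mul_right
              omega
          _ = p * ∑ a : S, q a := by rw [hp]; ring
          _ ≤ s.length := e3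
          _ ≤ 3 * n := by omega
      omega
    refine ⟨(rep l.prod, ((∏ a : S, (a : A) ^ q a : A) : G),
      fun a => ⟨cnt (a : A) % p, Nat.mod_lt _ hppos⟩), ⟨⟨_, rfl⟩, hu, trivial⟩, ?_⟩
    simp only
    conv_rhs => rw [h3, hprod]
    rw [Subgroup.coe_mul, Subgroup.coe_pow]
    group
  have hfinal := (Set.ncard_le_ncard hcov ((hrange.prod
    ((Ball_finite X hX n).prod Set.finite_univ)).image _)).trans
      (Set.ncard_image_le (hrange.prod ((Ball_finite X hX n).prod Set.finite_univ)))
  rw [Set.ncard_prod, Set.ncard_prod, Set.ncard_univ, Nat.card_eq_fintype_card, Fintype.card_fun,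
    Fintype.card_fin, Fintype.card_coe] at hfinal
  calc (Ball X (3 * n)).ncard ≤ _ := hfinal
    _ = _ := by ring

theorem stable_of_virtuallyAbelian (hX : X.Finite) (hgen : Subgroup.closure X = ⊤)
    (A : Subgroup G) (hA : A.index ≠ 0) (hcomm : ∀ x ∈ A, ∀ y ∈ A, x * y = y * x) :
    Stable X := by
  obtain ⟨D, hD⟩ := doubling_of_virtuallyAbelian hX hgen A hA hcomm
  exact stable_of_doubling hX D hD

end Pool.Agent.Q105.Growth
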