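import Mathlib
import Pool.Agent.Q105.TwBall
import Pool.Agent.Q105.CRmain
import Pool.Agent.Q105.Density

/-!
# The conjugacy ratio of virtually abelian groups
-/

namespace Pool.Agent.Q105.CL

open Pool.Agent.Q105.TwBall Pool.Agent.Q105.CR Pool.Agent.Q105.Growth Filter Topology

variable {G : Type*} [Group G] {X : Set G}

/-- The set of conjugates of `x`. -/
def cjs (x : G) : Set G := Set.range fun g : G => g * x * g⁻¹

lemma mem_cjs {x y : G} : y ∈ cjs x ↔ ∃ g, g * x * g⁻¹ = y := Iff.rfl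

lemma cjs_eq_carrier (x : G) : cjs x = (ConjClasses.mk x).carrier := by
  ext y
  rw [ConjClasses.mem_carrier_iff_mk_eq, ConjClasses.mk_eq_mk_iff_isConj, isConj_comm,
    isConj_iff]
  rfl

/-- The FC-centre. -/
def FC (G : Type*) [Group G] : Subgroup G where
  carrier := {x | (cjs x).Finite}
  one_mem' := by
    have : cjs (1 : G) ⊆ {1} := by
      rintro _ ⟨g, rfl⟩
      simp
    exact (Set.finite_singleton _).subset this
  mul_mem' := by
    intro x y hx hy
    refine (Set.Finite.image (fun p : G × G => p.1 * p.2) (Set.Finite.prod hx hy)).subset ?_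
    rintro _ ⟨g, rfl⟩
    exact ⟨(g * x * g⁻¹, g * y * g⁻¹), ⟨⟨g, rfl⟩, ⟨g, rfl⟩⟩, by group⟩
  inv_mem' := by
    intro x hx
    refine (Set.Finite.image (fun p : G => p⁻¹) hx).subset ?_
    rintro _ ⟨g, rfl⟩
    exact ⟨g * x * g⁻¹, ⟨g, rfl⟩, by group⟩

lemma mem_FC {x : G} : x ∈ FC G ↔ (cjs x).Finite := Iff.rfl

lemma conj_mem_FC {x g : G} (hx : x ∈ FC G) : g * x * g⁻¹ ∈ FC G := by
  rw [mem_FC] at hx ⊢
  refine hx.subset ?_
  rintro _ ⟨h, rfl⟩
  exact ⟨h * g, by group⟩

lemma centralizer_index {x : G} (hx : x ∈ FC G) :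
    (Subgroup.centralizer ({x} : Set G)).FiniteIndex := by
  have hfin : Finite (cjs x) := hx.to_subtype
  have : Finite (G ⧸ Subgroup.centralizer ({x} : Set G)) := by
    refine Finite.of_injective (β := cjs x)
      (Quotient.lift (fun g : G => (⟨g * x * g⁻¹, g, rfl⟩ : cjs x)) ?_) ?_
    · intro a b hab
      have h1 : a⁻¹ * b ∈ Subgroup.centralizer ({x} : Set G) := QuotientGroup.leftRel_apply.mp hab
      rw [Subgroup.mem_centralizer_iff] at h1
      have h2 := h1 x rfl
      apply Subtype.ext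
      simp only
      have h3 : b * x * b⁻¹ = a * (a⁻¹ * b * x) * b⁻¹ := by group
      rw [h3, ← h2]; group
    · intro a b
      refine Quotient.inductionOn₂ a b fun a b h => ?_
      apply Quotient.sound
      apply QuotientGroup.leftRel_apply.mpr
      rw [Subgroup.mem_centralizer_iff]
      intro y hy
      rw [Set.mem_singleton_iff.mp hy]
      have h2 : a * x * a⁻¹ = b * x * b⁻¹ := congrArg Subtype.val h
      have h3 : x * (a⁻¹ * b) = a⁻¹ * (a * x * a⁻¹) * b := by group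
      rw [h3, h2]; group
  exact Subgroup.finiteIndex_of_finite_quotient

/-- There is a normal subgroup of finite index that centralises the FC-centre. -/
lemma exists_centralizing (A : Subgroup G) (hA : A.index ≠ 0)
    (hcomm : ∀ x ∈ A, ∀ y ∈ A, x * y = y * x) :
    ∃ N : Subgroup G, N.Normal ∧ N.FiniteIndex ∧ ∀ k ∈ N, ∀ x ∈ FC G, k * x = x * k := by
  classical
  have hfi : A.FiniteIndex := ⟨hA⟩
  have hfin : Finite (G ⧸ A) := inferInstance
  set t : G ⧸ A → G := fun q => if h : ∃ t ∈ FC G, (t : G ⧸ A) = q then h.choose else 1 with ht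
  have htF : ∀ q, t q ∈ FC G := by
    intro q
    simp only [ht]
    split_ifs with h
    · exact h.choose_spec.1
    · exact (FC G).one_mem
  have htq : ∀ x ∈ FC G, (t (x : G ⧸ A) : G ⧸ A) = (x : G ⧸ A) := by
    intro x hx
    have h : ∃ t ∈ FC G, (t : G ⧸ A) = (x : G ⧸ A) := ⟨x, hx, rfl⟩
    simp only [ht]
    rw [dif_pos h]
    exact h.choose_spec.2
  have h1 : ∀ q, (Subgroup.centralizer ({t q} : Set G)).FiniteIndex := fun q =>
    centralizer_index (htF q)
  have h2 : (⨅ q, Subgroup.centralizer ({t q} : Set G)).FiniteIndex :=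
    Subgroup.finiteIndex_iInf h1
  have h3 : (A ⊓ ⨅ q, Subgroup.centralizer ({t q} : Set G)).FiniteIndex := inferInstance
  refine ⟨(A ⊓ ⨅ q, Subgroup.centralizer ({t q} : Set G)).normalCore, inferInstance,
    inferInstance, ?_⟩
  intro k hk x hx
  have hk' := Subgroup.normalCore_le _ hk
  rw [Subgroup.mem_inf] at hk'
  have hkt : k * t (x : G ⧸ A) = t (x : G ⧸ A) * k := by
    have := (Subgroup.mem_iInf.mp hk'.2) (x : G ⧸ A)
    rw [Subgroup.mem_centralizer_iff] at this
    exact (this _ rfl).symm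
  have hxa : (t (x : G ⧸ A))⁻¹ * x ∈ A := QuotientGroup.eq.mp (htq x hx)
  have hka := hcomm k hk'.1 _ hxa
  have e : x = t (x : G ⧸ A) * ((t (x : G ⧸ A))⁻¹ * x) := by group
  calc k * x = (k * t (x : G ⧸ A)) * ((t (x : G ⧸ A))⁻¹ * x) := by group
    _ = t (x : G ⧸ A) * (k * ((t (x : G ⧸ A))⁻¹ * x)) := by rw [hkt]; group
    _ = t (x : G ⧸ A) * (((t (x : G ⧸ A))⁻¹ * x) * k) := by rw [hka]
    _ = x * k := by group

/-- Uniformly many short conjugating commutators outside the FC-centre. -/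
lemma exists_many (hgen : Subgroup.closure X = ⊤) (A : Subgroup G) (hA : A.index ≠ 0)
    (hcomm : ∀ x ∈ A, ∀ y ∈ A, x * y = y * x) (M : ℕ) :
    ∃ r, ∀ x, x ∉ FC G → ∃ d : Fin M → G, Function.Injective d ∧ ∀ i, d i ∈ Ball X r ∧
      IsConj x (d i * x) := by
  classical
  have hfi : A.FiniteIndex := ⟨hA⟩
  have hfin : Finite (G ⧸ A) := inferInstance
  have hD : ∀ x, x ∉ FC G → {d : G | ∃ a ∈ A, d = a * x * a⁻¹ * x⁻¹}.Infinite := by
    intro x hx hcon
    apply hx
    rw [mem_FC]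
    have h1 : ((fun p : (G ⧸ A) × G => p.1.out * (p.2 * x) * (p.1.out)⁻¹) ''
        ((Set.univ : Set (G ⧸ A)) ×ˢ {d : G | ∃ a ∈ A, d = a * x * a⁻¹ * x⁻¹})).Finite :=
      (Set.finite_univ.prod hcon).image _
    refine h1.subset ?_
    rintro _ ⟨g, rfl⟩
    have h2 : ((g : G ⧸ A)).out⁻¹ * g ∈ A := by
      rw [← QuotientGroup.eq]
      exact Quotient.out_eq' _
    refine ⟨((g : G ⧸ A), (((g : G ⧸ A)).out⁻¹ * g) * x * (((g : G ⧸ A)).out⁻¹ * g)⁻¹ * x⁻¹),
      ⟨trivial, _, h2, rfl⟩, ?_⟩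
    simp only
    group
  -- choose for each coset
  have hq : ∀ q : G ⧸ A, ∃ r, ∀ x : G, (x : G ⧸ A) = q → x ∉ FC G →
      ∃ d : Fin M → G, Function.Injective d ∧ ∀ i, d i ∈ Ball X r ∧ IsConj x (d i * x) := by
    intro q
    by_cases hex : ∃ x : G, (x : G ⧸ A) = q ∧ x ∉ FC G
    · obtain ⟨x0, hx0, hx0F⟩ := hex
      obtain ⟨f⟩ : Nonempty (Fin M ↪ {d : G | ∃ a ∈ A, d = a * x0 * a⁻¹ * x0⁻¹}) := by
        have := (hD x0 hx0F).to_subtype
        exact ⟨(Fin.valEmbedding).trans (Infinite.natEmbedding _)⟩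
      obtain ⟨r, hr⟩ := exists_ball_of_finite hgen (fun i => ((f i : _) : G))
      refine ⟨r, fun x hx _ => ⟨fun i => (f i : G), ?_, fun i => ⟨hr i, ?_⟩⟩⟩
      · intro i j hij
        exact f.injective (Subtype.ext hij)
      · obtain ⟨a, ha, hfa⟩ := (f i).2
        have h3 : x0⁻¹ * x ∈ A := by
          rw [← QuotientGroup.eq, hx0, hx]
        have h4 : a * x * a⁻¹ * x⁻¹ = a * x0 * a⁻¹ * x0⁻¹ := by
          have h5 := hcomm (x0⁻¹ * x) h3 a⁻¹ (A.inv_mem ha)
          calc a * x * a⁻¹ * x⁻¹ = a * x0 * ((x0⁻¹ * x) * a⁻¹) * x⁻¹ := by group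
            _ = a * x0 * (a⁻¹ * (x0⁻¹ * x)) * x⁻¹ := by rw [h5]
            _ = a * x0 * a⁻¹ * x0⁻¹ := by group
        rw [isConj_iff]
        refine ⟨a, ?_⟩
        show a * x * a⁻¹ = (f i : G) * x
        rw [hfa, ← h4]; group
    · push Not at hex
      exact ⟨0, fun x hx hxF => absurd (hex x hx) hxF⟩
  choose r hr using hq
  have := Fintype.ofFinite (G ⧸ A)
  refine ⟨Finset.univ.sup r, fun x hx => ?_⟩
  obtain ⟨d, hd1, hd2⟩ := hr (x : G ⧸ A) x rfl hx
  refine ⟨d, hd1, fun i => ⟨Ball_mono X ?_ (hd2 i).1, (hd2 i).2⟩⟩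
  exact Finset.le_sup (Finset.mem_univ _)

/-- The classes meeting the ball and the FC-centre. -/
def inner (X : Set G) (n : ℕ) : Set (ConjClasses G) := ConjClasses.mk '' (Ball X n ∩ FC G)

/-- The classes meeting the ball outside the FC-centre. -/
def outer (X : Set G) (n : ℕ) : Set (ConjClasses G) :=
  ConjClasses.mk '' (Ball X n ∩ {x | x ∉ FC G})

lemma conjBall_eq (n : ℕ) : conjBall X n = inner X n ∪ outer X n := by
  unfold conjBall inner outer
  rw [← Set.image_union, ← Set.inter_union_distrib_left]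
  congr 1
  ext x
  simp only [Set.mem_inter_iff, Set.mem_union, SetLike.mem_coe, Set.mem_ofPred_eq]
  tauto

lemma disjoint_inner_outer (n : ℕ) : Disjoint (inner X n) (outer X n) := by
  rw [Set.disjoint_left]
  rintro κ ⟨x, hx, rfl⟩ ⟨y, hy, hxy⟩
  rw [ConjClasses.mk_eq_mk_iff_isConj, isConj_comm, isConj_iff] at hxy
  obtain ⟨g, rfl⟩ := hxy
  exact hy.2 (conj_mem_FC hx.2)

lemma outer_le (hX : X.Finite) (M r n : ℕ)
    (hr : ∀ x, x ∉ FC G → ∃ d : Fin M → G, Function.Injective d ∧ ∀ i, d i ∈ Ball X r ∧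
      IsConj x (d i * x)) :
    M * (outer X n).ncard ≤ (Ball X (n + r)).ncard := by
  classical
  have hrep : ∀ κ : ConjClasses G, ∃ x : G, ∃ d : Fin M → G, κ ∈ outer X n →
      x ∈ Ball X n ∧ ConjClasses.mk x = κ ∧ Function.Injective d ∧
        ∀ i, d i ∈ Ball X r ∧ IsConj x (d i * x) := by
    intro κ
    by_cases hκ : κ ∈ outer X n
    · obtain ⟨x, ⟨hx1, hx2⟩, hx3⟩ := hκ
      obtain ⟨d, hd⟩ := hr x hx2
      exact ⟨x, d, fun _ => ⟨hx1, hx3, hd⟩⟩
    · exact ⟨1, fun _ => 1, fun h => absurd h hκ⟩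
  choose x d hxd using hrep
  have h1 : (outer X n ×ˢ (Set.univ : Set (Fin M))).ncard ≤ (Ball X (n + r)).ncard := by
    refine Set.ncard_le_ncard_of_injOn (fun p => d p.1 p.2 * x p.1) ?_ ?_ (Ball_finite X hX _)
    · rintro ⟨κ, i⟩ ⟨hκ, _⟩
      obtain ⟨a1, a2, a3, a4⟩ := hxd κ hκ
      exact Ball_mono X (by omega) (mul_mem_Ball X (a4 i).1 a1)
    · rintro ⟨κ, i⟩ ⟨hκ, _⟩ ⟨κ', i'⟩ ⟨hκ', _⟩ e
      simp only at e hκ hκ'
      obtain ⟨a1, a2, a3, a4⟩ := hxd κ hκ
      obtain ⟨b1, b2, b3, b4⟩ := hxd κ' hκ'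
      have h2 : κ = κ' := by
        rw [← a2, ← b2, ConjClasses.mk_eq_mk_iff_isConj.mpr (a4 i).2,
          ConjClasses.mk_eq_mk_iff_isConj.mpr (b4 i').2, e]
      subst h2
      have h3 := a3 (mul_right_cancel e)
      rw [h3]
  rw [Set.ncard_prod, Set.ncard_univ, Nat.card_eq_fintype_card, Fintype.card_fin, mul_comm] at h1
  exact h1

/-- The outer classes are negligible. -/
lemma outer_tendsto (hX : X.Finite) (hgen : Subgroup.closure X = ⊤) (A : Subgroup G)
    (hA : A.index ≠ 0) (hcomm : ∀ x ∈ A, ∀ y ∈ A, x * y = y * x) :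
    Tendsto (fun n : ℕ => ((outer X n).ncard : ℝ) / ((Ball X n).ncard : ℝ)) atTop (𝓝 0) := by
  have hs := stable_of_virtuallyAbelian hX hgen A hA hcomm
  have hb : ∀ n, (0 : ℝ) < ((Ball X n).ncard : ℝ) := fun n => by
    exact_mod_cast Ball_ncard_pos X hX n
  rw [Metric.tendsto_nhds]
  intro ε hε
  obtain ⟨M, hM⟩ := exists_nat_gt (2 / ε)
  have hM0 : (0 : ℝ) < M := lt_trans (by positivity) hM
  obtain ⟨r, hr⟩ := exists_many (X := X) hgen A hA hcomm M
  filter_upwards [hs.iterate r 1 one_pos] with n hn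
  have h1 := outer_le hX M r n hr
  have h2 : (M : ℝ) * ((outer X n).ncard : ℝ) ≤ ((Ball X (n + r)).ncard : ℝ) := by
    exact_mod_cast h1
  rw [Real.dist_eq, sub_zero, abs_of_nonneg (by positivity), div_lt_iff₀ (hb n)]
  have h3 : (M : ℝ) * ((outer X n).ncard : ℝ) ≤ 2 * ((Ball X n).ncard : ℝ) := by linarith
  have h4 : 2 < ε * M := by
    rw [div_lt_iff₀ hε] at hM
    linarith
  have h5 : (M : ℝ) * ((outer X n).ncard : ℝ) < M * (ε * ((Ball X n).ncard : ℝ)) := by
    calc _ ≤ 2 * ((Ball X n).ncard : ℝ) := h3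
      _ < (ε * M) * ((Ball X n).ncard : ℝ) := mul_lt_mul_of_pos_right h4 (hb n)
      _ = _ := by ring
  exact lt_of_mul_lt_mul_left h5 hM0.le

section Inner

variable (N : Subgroup G) [N.Normal] [N.FiniteIndex]

lemma out_conj (hN : ∀ k ∈ N, ∀ x ∈ FC G, k * x = x * k) (g x : G) (hx : x ∈ FC G) :
    ((g : G ⧸ N)).out * x * (((g : G ⧸ N)).out)⁻¹ = g * x * g⁻¹ := by
  have h2 : ((g : G ⧸ N)).out⁻¹ * g ∈ N := by
    rw [← QuotientGroup.eq]
    exact Quotient.out_eq' _
  have h3 := hN _ h2 x hx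
  have e : g = ((g : G ⧸ N)).out * (((g : G ⧸ N)).out⁻¹ * g) := by group
  set o := ((g : G ⧸ N)).out with ho
  set k := o⁻¹ * g with hk
  have h4 : g * x * g⁻¹ = o * (k * x * k⁻¹) * o⁻¹ := by rw [e]; group
  have h5 : k * x * k⁻¹ = x := by rw [h3]; group
  rw [h4, h5]

open Classical in
/-- The number of cosets of `N` that centralise `x`. -/
noncomputable def st [Fintype (G ⧸ N)] (x : G) : ℕ :=
  (Finset.univ.filter fun q : G ⧸ N => q.out * x * (q.out)⁻¹ = x).card

open Classical in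
lemma sum_st [Fintype (G ⧸ N)] (hN : ∀ k ∈ N, ∀ x ∈ FC G, k * x = x * k) (x : G)
    (hx : x ∈ FC G) (T : Finset G) (hT : ∀ y, y ∈ T ↔ y ∈ cjs x) :
    ∑ y ∈ T, st N y = Fintype.card (G ⧸ N) := by
  have h1 : Fintype.card (G ⧸ N) = ∑ y ∈ T,
      (Finset.univ.filter fun q : G ⧸ N => q.out * x * (q.out)⁻¹ = y).card := by
    rw [← Finset.card_univ]
    exact Finset.card_eq_sum_card_fiberwise (f := fun q : G ⧸ N => q.out * x * (q.out)⁻¹)
      (fun q _ => by
        rw [Finset.mem_coe, hT]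
        exact ⟨q.out, rfl⟩)
  rw [h1]
  refine Finset.sum_congr rfl fun y hy => ?_
  obtain ⟨g, hg⟩ := (hT y).mp hy
  simp only at hg
  unfold st
  have hyF : y ∈ FC G := by rw [← hg]; exact conj_mem_FC hx
  have key : ∀ (h z : G), z ∈ FC G →
      ((h : G ⧸ N)).out * z * (((h : G ⧸ N)).out)⁻¹ = h * z * h⁻¹ :=
    fun h z hz => out_conj N hN h z hz
  refine Finset.card_bij (fun q _ => q * (g : G ⧸ N)) ?_ ?_ ?_
  · intro q hq
    rw [Finset.mem_filter] at hq ⊢
    refine ⟨Finset.mem_univ _, ?_⟩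
    obtain ⟨h, rfl⟩ := QuotientGroup.mk_surjective q
    rw [← QuotientGroup.mk_mul, key _ _ hx]
    have h2 := hq.2
    rw [key _ _ hyF] at h2
    rw [← h2, ← hg]; group
  · intro q _ q' _ e
    exact mul_right_cancel e
  · intro q hq
    rw [Finset.mem_filter] at hq
    refine ⟨q * (g : G ⧸ N)⁻¹, ?_, by simp⟩
    rw [Finset.mem_filter]
    refine ⟨Finset.mem_univ _, ?_⟩
    obtain ⟨h, rfl⟩ := QuotientGroup.mk_surjective q
    rw [← QuotientGroup.mk_inv, ← QuotientGroup.mk_mul, key _ _ hyF]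
    have h2 := hq.2
    rw [key _ _ hx] at h2
    conv_rhs => rw [← h2]
    rw [← hg]; group

/-- The weighted number of elements of the FC-centre in the ball. -/
noncomputable def Sn [Fintype (G ⧸ N)] (X : Set G) (n : ℕ) : ℕ :=
  ∑ q : G ⧸ N, (Ball X n ∩ ((Subgroup.centralizer {q.out} ⊓ FC G : Subgroup G) : Set G)).ncard

open Classical in
lemma Sn_eq [Fintype (G ⧸ N)] (n : ℕ) (T : Finset G)
    (hT : ∀ y, y ∈ T ↔ y ∈ Ball X n ∧ y ∈ FC G) : Sn N X n = ∑ x ∈ T, st N x := by
  unfold Sn st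
  have h1 : ∀ q : G ⧸ N,
      (Ball X n ∩ ((Subgroup.centralizer {q.out} ⊓ FC G : Subgroup G) : Set G)).ncard =
        (T.filter fun x => q.out * x * (q.out)⁻¹ = x).card := by
    intro q
    rw [← Set.ncard_coe_finset]
    congr 1
    ext x
    simp only [Set.mem_inter_iff, SetLike.mem_coe, Subgroup.mem_inf,
      Subgroup.mem_centralizer_iff, Set.mem_singleton_iff, forall_eq, Finset.coe_filter,
      Set.mem_ofPred_eq, hT]
    constructor
    · rintro ⟨a, b, c⟩
      exact ⟨⟨a, c⟩, by rw [b]; group⟩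
    · rintro ⟨⟨a, c⟩, b⟩
      refine ⟨a, ?_, c⟩
      rw [mul_inv_eq_iff_eq_mul] at b
      exact b
  simp only [h1, Finset.card_filter]
  rw [Finset.sum_comm]

open Classical in
lemma Sn_le [Fintype (G ⧸ N)] (hX : X.Finite) (hN : ∀ k ∈ N, ∀ x ∈ FC G, k * x = x * k)
    (n : ℕ) : Sn N X n ≤ Fintype.card (G ⧸ N) * (inner X n).ncard := by
  have hF : (Ball X n ∩ (FC G : Set G)).Finite :=
    (Ball_finite X hX n).subset Set.inter_subset_left
  have hI : (inner X n).Finite := hF.image _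
  rw [Sn_eq N n hF.toFinset (by intro y; simp)]
  rw [← Finset.sum_fiberwise_of_maps_to (s := hF.toFinset) (t := hI.toFinset)
    (g := ConjClasses.mk) (by
      intro x hx
      rw [Set.Finite.mem_toFinset] at hx ⊢
      exact ⟨x, hx, rfl⟩)]
  calc ∑ κ ∈ hI.toFinset, ∑ x ∈ hF.toFinset.filter (fun x => ConjClasses.mk x = κ), st N x
      ≤ ∑ κ ∈ hI.toFinset, Fintype.card (G ⧸ N) := by
        refine Finset.sum_le_sum fun κ hκ => ?_
        rw [Set.Finite.mem_toFinset] at hκ
        obtain ⟨x, hx, rfl⟩ := hκ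
        have hxF : (cjs x).Finite := hx.2
        rw [← sum_st N hN x hx.2 hxF.toFinset (by intro y; simp)]
        apply Finset.sum_le_sum_of_subset
        intro y hy
        rw [Finset.mem_filter] at hy
        rw [Set.Finite.mem_toFinset, cjs_eq_carrier, ConjClasses.mem_carrier_iff_mk_eq]
        exact hy.2
    _ = _ := by
        rw [Finset.sum_const, smul_eq_mul, ← Set.ncard_eq_toFinset_card _ hI, mul_comm]

open Classical in
lemma le_Sn [Fintype (G ⧸ N)] (hX : X.Finite) (hN : ∀ k ∈ N, ∀ x ∈ FC G, k * x = x * k)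
    (n ρ : ℕ) (hρ : ∀ q : G ⧸ N, q.out ∈ Ball X ρ) :
    Fintype.card (G ⧸ N) * (inner X n).ncard ≤ Sn N X (n + (ρ + ρ)) := by
  have hF : (Ball X n ∩ (FC G : Set G)).Finite :=
    (Ball_finite X hX n).subset Set.inter_subset_left
  have hI : (inner X n).Finite := hF.image _
  have hF' : (Ball X (n + (ρ + ρ)) ∩ (FC G : Set G)).Finite :=
    (Ball_finite X hX _).subset Set.inter_subset_left
  rw [Sn_eq N (n + (ρ + ρ)) hF'.toFinset (by intro y; simp)]
  calc Fintype.card (G ⧸ N) * (inner X n).ncard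
      = ∑ κ ∈ hI.toFinset, Fintype.card (G ⧸ N) := by
        rw [Finset.sum_const, smul_eq_mul, ← Set.ncard_eq_toFinset_card _ hI, mul_comm]
    _ = ∑ κ ∈ hI.toFinset, ∑ x ∈ hF'.toFinset.filter (fun x => ConjClasses.mk x = κ),
          st N x := by
        refine Finset.sum_congr rfl fun κ hκ => ?_
        rw [Set.Finite.mem_toFinset] at hκ
        obtain ⟨x, hx, rfl⟩ := hκ
        symm
        apply sum_st N hN x hx.2
        intro y
        rw [Finset.mem_filter, Set.Finite.mem_toFinset, cjs_eq_carrier,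
          ConjClasses.mem_carrier_iff_mk_eq]
        constructor
        · exact fun h => h.2
        · intro h
          refine ⟨?_, h⟩
          have h1 : y ∈ cjs x := by
            rw [cjs_eq_carrier, ConjClasses.mem_carrier_iff_mk_eq]; exact h
          obtain ⟨g, rfl⟩ := h1
          refine ⟨?_, conj_mem_FC hx.2⟩
          simp only
          rw [← out_conj N hN g x hx.2]
          refine Ball_mono X ?_ (mul_mem_Ball X (mul_mem_Ball X (hρ (g : G ⧸ N)) hx.1)
            (inv_mem_Ball X (hρ (g : G ⧸ N))))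
          omega
    _ = ∑ x ∈ hF'.toFinset.filter (fun x => ConjClasses.mk x ∈ hI.toFinset), st N x := by
        rw [← Finset.sum_fiberwise_of_maps_to
          (s := hF'.toFinset.filter (fun x => ConjClasses.mk x ∈ hI.toFinset))
          (t := hI.toFinset) (g := ConjClasses.mk) (by
            intro x hx
            rw [Finset.mem_filter] at hx
            exact hx.2)]
        refine Finset.sum_congr rfl fun κ hκ => ?_
        refine Finset.sum_congr ?_ fun _ _ => rfl
        ext x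
        simp only [Finset.mem_filter]
        constructor
        · rintro ⟨a, rfl⟩
          exact ⟨⟨a, hκ⟩, rfl⟩
        · rintro ⟨⟨a, _⟩, rfl⟩
          exact ⟨a, rfl⟩
    _ ≤ _ := Finset.sum_le_sum_of_subset (Finset.filter_subset _ _)

end Inner

/-- For a virtually abelian group the ratios converge, to a limit that does not depend on the
generating set. -/
theorem exists_limit (A : Subgroup G) (hA : A.index ≠ 0)
    (hcomm : ∀ x ∈ A, ∀ y ∈ A, x * y = y * x) :
    ∃ L : ℝ, 0 < L ∧ ∀ X : Set G, X.Finite → Subgroup.closure X = ⊤ →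
      Tendsto (fun n : ℕ => ((conjBall X n).ncard : ℝ) / ((Ball X n).ncard : ℝ)) atTop
        (𝓝 L) := by
  classical
  obtain ⟨N, hNn, hNf, hN⟩ := exists_centralizing A hA hcomm
  have hfin : Finite (G ⧸ N) := inferInstance
  have := Fintype.ofFinite (G ⧸ N)
  set m : ℕ := Fintype.card (G ⧸ N) with hm
  have hm0 : 0 < m := Fintype.card_pos
  have hmR : (0 : ℝ) < m := by exact_mod_cast hm0
  set L : ℝ := (∑ q : G ⧸ N,
    (((Subgroup.centralizer {q.out} ⊓ FC G : Subgroup G).index : ℝ))⁻¹) / m with hL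
  have hAF : A ≤ FC G := by
    intro a ha
    rw [mem_FC]
    have hfiA : A.FiniteIndex := ⟨hA⟩
    have hfinA : Finite (G ⧸ A) := inferInstance
    refine (Set.finite_range (fun q : G ⧸ A => q.out * a * (q.out)⁻¹)).subset ?_
    rintro _ ⟨g, rfl⟩
    refine ⟨(g : G ⧸ A), ?_⟩
    simp only
    have h2 : ((g : G ⧸ A)).out⁻¹ * g ∈ A := by
      rw [← QuotientGroup.eq]
      exact Quotient.out_eq' _
    have h3 := hcomm _ h2 a ha
    have e : g = ((g : G ⧸ A)).out * (((g : G ⧸ A)).out⁻¹ * g) := by group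
    set o := ((g : G ⧸ A)).out with ho
    set k := o⁻¹ * g with hk
    have h4 : g * a * g⁻¹ = o * (k * a * k⁻¹) * o⁻¹ := by rw [e]; group
    have h5 : k * a * k⁻¹ = a := by rw [h3]; group
    rw [h4, h5]
  have hL0 : 0 < L := by
    rw [hL]
    apply div_pos _ hmR
    apply Finset.sum_pos' (fun q _ => by positivity)
    refine ⟨((1 : G) : G ⧸ N), Finset.mem_univ _, ?_⟩
    apply inv_pos.mpr
    have h1 : (Subgroup.centralizer {((1 : G) : G ⧸ N).out} ⊓ FC G : Subgroup G) = FC G := by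
      rw [inf_eq_right]
      intro x hx
      rw [Subgroup.mem_centralizer_iff]
      intro y hy
      rw [Set.mem_singleton_iff.mp hy]
      apply hN _ _ x hx
      have h2 : ((1 : G) : G ⧸ N) = (((1 : G) : G ⧸ N).out : G ⧸ N) :=
        (Quotient.out_eq' _).symm
      rw [QuotientGroup.eq] at h2
      simpa using h2
    rw [h1]
    have h3 : (FC G).index ≠ 0 := by
      have hfiA : A.FiniteIndex := ⟨hA⟩
      have := Subgroup.finiteIndex_of_le hAF
      exact this.index_ne_zero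
    exact_mod_cast Nat.pos_of_ne_zero h3
  refine ⟨L, hL0, fun X hX hgen => ?_⟩
  have hs := stable_of_virtuallyAbelian hX hgen A hA hcomm
  have hout := outer_tendsto hX hgen A hA hcomm
  obtain ⟨ρ, hρ⟩ := exists_ball_of_finite hgen (fun q : G ⧸ N => q.out)
  have hSn : Tendsto (fun n : ℕ => (Sn N X n : ℝ) / m / ((Ball X n).ncard : ℝ)) atTop
      (𝓝 L) := by
    have e : (fun n : ℕ => (Sn N X n : ℝ) / m / ((Ball X n).ncard : ℝ)) = fun n : ℕ =>
        (∑ q : G ⧸ N, ((Ball X n ∩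
          ((Subgroup.centralizer {q.out} ⊓ FC G : Subgroup G) : Set G)).ncard : ℝ) /
            ((Ball X n).ncard : ℝ)) / m := by
      funext n
      unfold Sn
      push_cast
      rw [← Finset.sum_div]
      ring
    rw [e, hL]
    apply Tendsto.div_const
    exact tendsto_finsetSum _ fun q _ => density_subgroup hX hgen hs _
  have hin : Tendsto (fun n : ℕ => ((inner X n).ncard : ℝ) / ((Ball X n).ncard : ℝ)) atTop
      (𝓝 L) := by
    refine shift_lemma hX hs (fun n => (Sn N X n : ℝ) / m) _ L (ρ + ρ) hSn ?_ ?_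
    · intro n
      rw [div_le_iff₀ hmR]
      have h1 := Sn_le N hX hN n
      have h2 : (inner X n).ncard ≤ (inner X (n + (ρ + ρ))).ncard := by
        apply Set.ncard_le_ncard
        · rintro κ ⟨x, ⟨hx1, hx2⟩, rfl⟩
          exact ⟨x, ⟨Ball_mono X (by omega) hx1, hx2⟩, rfl⟩
        · exact ((Ball_finite X hX _).subset Set.inter_subset_left).image _
      have h3 : Sn N X n ≤ (inner X (n + (ρ + ρ))).ncard * m := by
        rw [mul_comm]
        exact h1.trans (Nat.mul_le_mul_left _ h2)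
      exact_mod_cast h3
    · intro n
      rw [le_div_iff₀ hmR, mul_comm]
      exact_mod_cast le_Sn N hX hN n ρ hρ
  have hsum := hin.add hout
  rw [add_zero] at hsum
  refine hsum.congr fun n => ?_
  rw [conjBall_eq, Set.ncard_union_eq (disjoint_inner_outer n)
    (((Ball_finite X hX _).subset Set.inter_subset_left).image _)
    (((Ball_finite X hX _).subset Set.inter_subset_left).image _)]
  push_cast
  rw [add_div]

end Pool.Agent.Q105.CL
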