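import Mathlib
import Pool.Agent.Q105.TwBall

/-!
# The cubing endomorphism of a free group and its twisted conjugacy classes
-/

namespace Pool.Agent.Q105.FreeCube

open Pool.Agent.Q105.TwBall

variable {α : Type*} [DecidableEq α]

/-- The endomorphism of the free group that sends every basis element to its cube. -/
def cubeHom (α : Type*) : FreeGroup α →* FreeGroup α := FreeGroup.lift fun a => FreeGroup.of a ^ 3

/-- Every letter repeated three times. -/
def triple (L : List (α × Bool)) : List (α × Bool) := L.flatMap fun p => [p, p, p]

lemma triple_nil : triple ([] : List (α × Bool)) = [] := rfl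

lemma triple_cons (p : α × Bool) (L : List (α × Bool)) :
    triple (p :: L) = p :: p :: p :: triple L := rfl

lemma length_triple (L : List (α × Bool)) : (triple L).length = 3 * L.length := by
  induction L with
  | nil => rfl
  | cons p L ih => rw [triple_cons]; simp only [List.length_cons, ih]; ring

lemma mk_cons (p : α × Bool) (L : List (α × Bool)) :
    FreeGroup.mk (p :: L) = FreeGroup.mk [p] * FreeGroup.mk L := by
  rw [FreeGroup.mul_mk]; rfl

lemma cubeHom_mk (L : List (α × Bool)) :
    cubeHom α (FreeGroup.mk L) = FreeGroup.mk (triple L) := by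
  induction L with
  | nil => rw [triple_nil, ← FreeGroup.one_eq_mk, map_one]
  | cons p L ih =>
    rw [mk_cons, map_mul, ih, triple_cons, mk_cons p (p :: p :: triple L),
      mk_cons p (p :: triple L), mk_cons p (triple L), ← mul_assoc, ← mul_assoc]
    congr 1
    obtain ⟨a, b⟩ := p
    cases b
    · have : FreeGroup.mk [(a, false)] = (FreeGroup.of a)⁻¹ := rfl
      rw [this, map_inv]
      simp only [cubeHom, FreeGroup.lift_apply_of]
      group
    · have : FreeGroup.mk [(a, true)] = FreeGroup.of a := rfl
      rw [this]
      simp only [cubeHom, FreeGroup.lift_apply_of]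
      rw [pow_succ, pow_two]

lemma triple_head? (L : List (α × Bool)) : (triple L).head? = L.head? := by
  cases L <;> rfl

lemma isReduced_cons {p : α × Bool} {L : List (α × Bool)} (h : FreeGroup.IsReduced L)
    (h' : ∀ x ∈ L.head?, p.1 = x.1 → p.2 = x.2) : FreeGroup.IsReduced (p :: L) := by
  cases L with
  | nil => exact FreeGroup.IsReduced.singleton
  | cons q L => exact FreeGroup.isReduced_cons_cons.mpr ⟨h' q (by simp), h⟩

lemma triple_reduced {L : List (α × Bool)} (h : FreeGroup.IsReduced L) : FreeGroup.IsReduced (triple L) := by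
  induction L with
  | nil => exact FreeGroup.IsReduced.nil
  | cons p L ih =>
    rw [triple_cons]
    have h1 : FreeGroup.IsReduced L := by
      unfold FreeGroup.IsReduced at h ⊢
      exact h.tail
    have h2 : ∀ x ∈ (triple L).head?, p.1 = x.1 → p.2 = x.2 := by
      rw [triple_head?]
      intro x hx
      cases L with
      | nil => simp at hx
      | cons q L =>
        simp at hx
        subst hx
        exact (FreeGroup.isReduced_cons_cons.mp h).1
    have h3 : FreeGroup.IsReduced (p :: triple L) := isReduced_cons (ih h1) h2
    exact isReduced_cons (isReduced_cons h3 (by simp)) (by simp)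

lemma norm_mk_of_reduced {L : List (α × Bool)} (h : FreeGroup.IsReduced L) :
    FreeGroup.norm (FreeGroup.mk L) = L.length := by
  simp [FreeGroup.norm, FreeGroup.toWord_mk, h.reduce_eq]

lemma le_norm_inv_mul (z t : FreeGroup α) :
    FreeGroup.norm t ≤ FreeGroup.norm z + FreeGroup.norm (z⁻¹ * t) := by
  calc FreeGroup.norm t = FreeGroup.norm (z * (z⁻¹ * t)) := by simp
    _ ≤ _ := FreeGroup.norm_mul_le _ _

/-- Good words. -/
structure Good (Y L : List (α × Bool)) (x u v : α × Bool) : Prop where
  eq : Y = L ++ [v]
  red : FreeGroup.IsReduced L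
  head : L.head? = some x
  last : L.getLast? = some u
  ne : v.1 ≠ u.1
  cyc : v.1 = x.1 → v.2 = x.2

lemma Good.reduced {Y L : List (α × Bool)} {x u v : α × Bool} (h : Good Y L x u v) :
    FreeGroup.IsReduced Y := by
  rw [h.eq]
  unfold FreeGroup.IsReduced
  refine List.IsChain.append h.red (List.isChain_singleton _) ?_
  intro a ha b hb
  rw [h.last] at ha
  simp at ha hb
  subst ha hb
  intro e
  exact absurd e.symm h.ne

lemma good_lt {Y L : List (α × Bool)} {x u v : α × Bool} (h : Good Y L x u v)
    (z : FreeGroup α) (hz : z ≠ 1) :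
    FreeGroup.norm (FreeGroup.mk Y) <
      FreeGroup.norm (z⁻¹ * (FreeGroup.mk Y * cubeHom α z)) := by
  have hY := norm_mk_of_reduced h.reduced
  have hYlen : Y.length = L.length + 1 := by rw [h.eq]; simp
  obtain ⟨W, hW, rfl⟩ : ∃ W : List (α × Bool), FreeGroup.IsReduced W ∧ z = FreeGroup.mk W :=
    ⟨z.toWord, FreeGroup.isReduced_toWord, FreeGroup.mk_toWord.symm⟩
  cases W with
  | nil => exact absurd FreeGroup.one_eq_mk.symm hz
  | cons c W =>
    have hk : FreeGroup.norm (FreeGroup.mk (c :: W)) = W.length + 1 := by
      rw [norm_mk_of_reduced hW]; simp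
    have hineq := le_norm_inv_mul (FreeGroup.mk (c :: W))
      (FreeGroup.mk Y * cubeHom α (FreeGroup.mk (c :: W)))
    rw [cubeHom_mk] at hineq ⊢
    have hT := triple_reduced hW
    have hTl := length_triple (c :: W)
    by_cases hvc : v.1 = c.1 → v.2 = c.2
    · have h1 : FreeGroup.IsReduced (Y ++ triple (c :: W)) := by
        have hYr := h.reduced
        unfold FreeGroup.IsReduced at hYr hT ⊢
        refine List.IsChain.append hYr hT ?_
        intro a ha b hb
        rw [h.eq] at ha
        rw [triple_head?] at hb
        simp at ha hb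
        subst ha hb
        exact hvc
      have h2 : FreeGroup.norm (FreeGroup.mk Y * FreeGroup.mk (triple (c :: W))) =
          Y.length + 3 * (W.length + 1) := by
        rw [FreeGroup.mul_mk, norm_mk_of_reduced h1, List.length_append, hTl]; simp
      omega
    · push Not at hvc
      have hv2 : v = (c.1, !c.2) := by
        obtain ⟨v1, v2⟩ := v
        obtain ⟨c1, c2⟩ := c
        simp only at hvc
        obtain ⟨rfl, h2⟩ := hvc
        cases v2 <;> cases c2 <;> simp_all
      have hcancel : FreeGroup.mk (Y ++ triple (c :: W)) =
          FreeGroup.mk (L ++ (c :: c :: triple W)) := by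
        rw [h.eq, triple_cons, hv2]
        have h3 : FreeGroup.Red.Step (L ++ (c.1, !c.2) :: (c.1, !(!c.2)) :: (c :: c :: triple W))
            (L ++ (c :: c :: triple W)) := FreeGroup.Red.Step.not
        have h4 : L ++ [(c.1, !c.2)] ++ c :: c :: c :: triple W =
            L ++ (c.1, !c.2) :: (c.1, !(!c.2)) :: (c :: c :: triple W) := by simp
        rw [h4]
        exact FreeGroup.reduce.exact (FreeGroup.reduce.Step.eq h3)
      have h5 : FreeGroup.IsReduced (c :: c :: triple W) := by
        rw [triple_cons] at hT
        unfold FreeGroup.IsReduced at hT ⊢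
        exact hT.tail
      have h6 : FreeGroup.IsReduced (L ++ (c :: c :: triple W)) := by
        have hLr := h.red
        unfold FreeGroup.IsReduced at hLr h5 ⊢
        refine List.IsChain.append hLr h5 ?_
        intro a ha b hb
        rw [h.last] at ha
        simp at ha hb
        subst ha hb
        intro e
        exact absurd (hvc.1.trans e.symm) h.ne
      have h7 : FreeGroup.norm (FreeGroup.mk Y * FreeGroup.mk (triple (c :: W))) =
          L.length + (3 * W.length + 2) := by
        rw [FreeGroup.mul_mk, hcancel, norm_mk_of_reduced h6, List.length_append]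
        simp [length_triple]
      rcases Nat.eq_zero_or_pos W.length with h0 | hpos
      · have hW0 : W = [] := List.eq_nil_of_length_eq_zero h0
        subst hW0
        have h8 : (FreeGroup.mk [c])⁻¹ * (FreeGroup.mk Y * FreeGroup.mk (triple [c])) =
            FreeGroup.mk ((c.1, !c.2) :: (L ++ [c, c])) := by
          rw [FreeGroup.mul_mk, hcancel, FreeGroup.inv_mk, FreeGroup.mul_mk]
          rfl
        have h9 : FreeGroup.IsReduced ((c.1, !c.2) :: (L ++ [c, c])) := by
          refine isReduced_cons h6 ?_
          intro y hy
          have hne : L ≠ [] := by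
            rintro rfl
            simpa using h.head
          have : (L ++ [c, c]).head? = some x := by
            rw [List.head?_append_of_ne_nil _ hne, h.head]
          rw [this] at hy
          simp at hy
          subst hy
          have := h.cyc
          rw [hv2] at this
          exact this
        rw [h8, norm_mk_of_reduced h9, hY]
        simp
        omega
      · omega

lemma good_eq_of_twConj {Y L Y' L' : List (α × Bool)} {x u v x' u' v' : α × Bool}
    (h : Good Y L x u v) (h' : Good Y' L' x' u' v')
    (hc : TwConj (cubeHom α) (FreeGroup.mk Y') (FreeGroup.mk Y)) :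
    FreeGroup.mk Y' = FreeGroup.mk Y := by
  obtain ⟨z, hz⟩ := hc
  by_cases hz1 : z = 1
  · rw [hz, hz1]; simp
  · exfalso
    have h1 := good_lt h z⁻¹ (by simpa using hz1)
    have h2 := good_lt h' z hz1
    rw [inv_inv, map_inv, ← mul_assoc, ← hz] at h1
    rw [hz] at h2
    have h3 : z⁻¹ * (z * FreeGroup.mk Y * (cubeHom α z)⁻¹ * cubeHom α z) = FreeGroup.mk Y := by
      group
    rw [h3, ← hz] at h2
    omega

section Ext

variable [Nontrivial α]

/-- Some letter other than the given one. -/
noncomputable def other (a : α) : α := (exists_ne a).choose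

omit [DecidableEq α] in
lemma other_ne (a : α) : other a ≠ a := (exists_ne a).choose_spec

/-- The letter appended to a word to make it good. -/
noncomputable def addLetter (L : List (α × Bool)) (d : α × Bool) : α × Bool :=
  (other ((L.getLast?).getD d).1, ((L.head?).getD d).2)

/-- The good extension of a nontrivial element. -/
noncomputable def extend (d : α × Bool) (g : FreeGroup α) : FreeGroup α :=
  FreeGroup.mk (g.toWord ++ [addLetter g.toWord d])

lemma good_extend (d : α × Bool) (g : FreeGroup α) (hg : g ≠ 1) :
    ∃ x u v, Good (g.toWord ++ [addLetter g.toWord d]) g.toWord x u v := by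
  have hne : g.toWord ≠ [] := by simpa using hg
  obtain ⟨x, hx⟩ : ∃ x, g.toWord.head? = some x := by
    cases h : g.toWord with
    | nil => exact absurd h hne
    | cons a l => exact ⟨a, rfl⟩
  obtain ⟨u, hu⟩ : ∃ u, g.toWord.getLast? = some u :=
    ⟨g.toWord.getLast hne, List.getLast?_eq_some_getLast hne⟩
  refine ⟨x, u, addLetter g.toWord d, rfl, FreeGroup.isReduced_toWord, hx, hu, ?_, ?_⟩
  · simp only [addLetter, hu, Option.getD_some]
    exact other_ne _
  · simp only [addLetter, hx, Option.getD_some]
    intro _; trivial

lemma toWord_extend (d : α × Bool) (g : FreeGroup α) (hg : g ≠ 1) :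
    (extend d g).toWord = g.toWord ++ [addLetter g.toWord d] := by
  obtain ⟨x, u, v, h⟩ := good_extend d g hg
  rw [extend, FreeGroup.toWord_mk, h.reduced.reduce_eq]

lemma norm_extend (d : α × Bool) (g : FreeGroup α) (hg : g ≠ 1) :
    FreeGroup.norm (extend d g) = FreeGroup.norm g + 1 := by
  rw [FreeGroup.norm, toWord_extend d g hg]; simp [FreeGroup.norm]

lemma extend_inj (d : α × Bool) {g h : FreeGroup α} (hg : g ≠ 1) (hh : h ≠ 1)
    (e : extend d g = extend d h) : g = h := by
  have h1 := toWord_extend d g hg
  rw [e, toWord_extend d h hh] at h1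
  have h2 := congrArg List.dropLast h1
  simp at h2
  exact h2.symm

end Ext

section BallFree

lemma norm_le_of_letter {x : FreeGroup α}
    (hx : x ∈ Set.range (FreeGroup.of : α → FreeGroup α) ∨
      x⁻¹ ∈ Set.range (FreeGroup.of : α → FreeGroup α)) : FreeGroup.norm x ≤ 1 := by
  rcases hx with ⟨a, rfl⟩ | ⟨a, ha⟩
  · simp
  · rw [← FreeGroup.norm_inv_eq, ← ha]; simp

lemma mem_Ball_iff (g : FreeGroup α) (n : ℕ) :
    g ∈ Ball (Set.range (FreeGroup.of : α → FreeGroup α)) n ↔ FreeGroup.norm g ≤ n := by
  constructor
  · rintro ⟨l, hl, h, rfl⟩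
    have : ∀ l : List (FreeGroup α), (∀ x ∈ l, x ∈ Set.range (FreeGroup.of : α → FreeGroup α) ∨
        x⁻¹ ∈ Set.range (FreeGroup.of : α → FreeGroup α)) →
        FreeGroup.norm l.prod ≤ l.length := by
      intro l
      induction l with
      | nil => intro _; simp
      | cons a l ih =>
        intro h
        have h1 := ih (fun x hx => h x (by simp [hx]))
        have h2 := norm_le_of_letter (h a (by simp))
        have h3 := FreeGroup.norm_mul_le a l.prod
        rw [List.prod_cons, List.length_cons]
        omega
    exact (this l h).trans hl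
  · intro h
    refine ⟨g.toWord.map (fun p => FreeGroup.mk [p]), by simpa [FreeGroup.norm] using h, ?_, ?_⟩
    · intro x hx
      simp only [List.mem_map] at hx
      obtain ⟨⟨a, b⟩, _, rfl⟩ := hx
      cases b
      · right
        exact ⟨a, rfl⟩
      · left
        exact ⟨a, rfl⟩
    · have : ∀ L : List (α × Bool),
          (L.map (fun p => FreeGroup.mk [p])).prod = FreeGroup.mk L := by
        intro L
        induction L with
        | nil => rfl
        | cons p L ih => rw [List.map_cons, List.prod_cons, ih, mk_cons p L]
      rw [this, FreeGroup.mk_toWord]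

variable [Finite α] [Nontrivial α]

lemma ball_sub_one_le (n : ℕ) :
    (Ball (Set.range (FreeGroup.of : α → FreeGroup α)) n).ncard ≤
      (twClasses (cubeHom α) (Set.range (FreeGroup.of : α → FreeGroup α)) (n + 1)).ncard + 1 := by
  classical
  obtain ⟨d⟩ : Nonempty (α × Bool) := inferInstance
  set X := Set.range (FreeGroup.of : α → FreeGroup α) with hX
  have hXf : X.Finite := Set.finite_range _
  have h1 : (Ball X n \ {1}).ncard ≤ (twClasses (cubeHom α) X (n + 1)).ncard := by
    refine Set.ncard_le_ncard_of_injOn
      (fun g => {w | TwConj (cubeHom α) w (extend d g)}) ?_ ?_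
      (twClasses_finite X hXf _ _)
    · intro g hg
      refine ⟨extend d g, ?_, rfl⟩
      rw [mem_Ball_iff, norm_extend d g (by simpa using hg.2)]
      have := (mem_Ball_iff g n).mp hg.1
      omega
    · intro g hg h hh e
      have hg1 : g ≠ 1 := by simpa using hg.2
      have hh1 : h ≠ 1 := by simpa using hh.2
      have e2 := (class_eq_iff (cubeHom α) (extend d g) (extend d h)).mp e
      obtain ⟨x, u, v, G1⟩ := good_extend d g hg1
      obtain ⟨x', u', v', G2⟩ := good_extend d h hh1
      exact extend_inj d hg1 hh1 (good_eq_of_twConj G2 G1 e2)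
  have h2 : (Ball X n).ncard ≤ (Ball X n \ {1}).ncard + 1 := by
    have := Set.ncard_le_ncard_sdiff_add_ncard (Ball X n) {1} (Set.finite_singleton _)
    simpa using this
  omega

/-- Growth: the ball at least doubles. -/
lemma two_mul_ball_le (n : ℕ) :
    2 * (Ball (Set.range (FreeGroup.of : α → FreeGroup α)) n).ncard ≤
      (Ball (Set.range (FreeGroup.of : α → FreeGroup α)) (n + 1)).ncard := by
  classical
  obtain ⟨d⟩ : Nonempty (α × Bool) := inferInstance
  set X := Set.range (FreeGroup.of : α → FreeGroup α) with hX
  have hXf : X.Finite := Set.finite_range _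
  have key : ∀ (g : FreeGroup α) (b : Bool),
      FreeGroup.toWord (FreeGroup.mk (g.toWord ++ [(other ((g.toWord.getLast?).getD d).1, b)])) =
        g.toWord ++ [(other ((g.toWord.getLast?).getD d).1, b)] := by
    intro g b
    rw [FreeGroup.toWord_mk]
    apply FreeGroup.IsReduced.reduce_eq
    have hr : FreeGroup.IsReduced g.toWord := FreeGroup.isReduced_toWord
    unfold FreeGroup.IsReduced at hr ⊢
    refine List.IsChain.append hr (List.isChain_singleton _) ?_
    intro p hp q hq
    rw [Option.mem_def] at hp
    rw [hp] at hq
    simp at hq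
    subst hq
    intro e
    exact absurd e.symm (other_ne _)
  have h1 : (Ball X n ×ˢ (Set.univ : Set Bool)).ncard ≤ (Ball X (n + 1)).ncard := by
    refine Set.ncard_le_ncard_of_injOn
      (fun p => FreeGroup.mk (p.1.toWord ++ [(other ((p.1.toWord.getLast?).getD d).1, p.2)])) ?_ ?_
      (Ball_finite X hXf _)
    · rintro ⟨g, b⟩ hg
      rw [mem_Ball_iff, FreeGroup.norm, key]
      have := (mem_Ball_iff g n).mp hg.1
      simp [FreeGroup.norm] at this ⊢
      exact this
    · rintro ⟨g, b⟩ hg ⟨h, c⟩ hh e
      have e2 := congrArg FreeGroup.toWord e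
      simp only at e2
      rw [key, key] at e2
      have e3 := List.append_inj' e2 rfl
      have e4 : g = h := FreeGroup.toWord_injective e3.1
      subst e4
      have e5 := e3.2
      simp at e5
      rw [e5]
  rw [Set.ncard_prod, Set.ncard_univ] at h1
  simpa [mul_comm] using h1

end BallFree

end Pool.Agent.Q105.FreeCube
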