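import Mathlib

/-!
# Every group of class at most two and odd prime exponent is a derived subgroup

Let `G` have class at most two and exponent dividing an odd prime `p`.  With
`x ⊕ y = x y [x, y] ^ (-m)`, `2 m = p + 1`, the set `G` is a vector space over `ZMod p` in which the
derived subgroup `D` is a subspace.  Let `π` be a linear projection onto `D`.  Then
`σ x = x⁻¹ (π x) ^ 2` is an automorphism of `G` with `σ ^ 2 = 1` and `[G, σ] = G`, and the
semidirect product of `G` by `⟨σ⟩` has derived subgroup `G`.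
-/

set_option autoImplicit false

open scoped commutatorElement

namespace Pool.Agent.Q105.IntegralVar

universe u

section cm

variable {G : Type u} [Group G]

/-- the commutator `x⁻¹ y⁻¹ x y` -/
def cm (x y : G) : G := x⁻¹ * y⁻¹ * x * y

/-- commutators are central -/
def Cl2 (G : Type u) [Group G] : Prop := ∀ x y z : G, cm x y * z = z * cm x y

theorem cm_mul_left (h : Cl2 G) (x y z : G) : cm (x * y) z = cm x z * cm y z := by
  have e : cm (x * y) z = y⁻¹ * cm x z * (z⁻¹ * y * z) := by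
    unfold cm; group
  rw [e, ← h x z y⁻¹]
  unfold cm; group

theorem cm_inv_symm (x y : G) : (cm x y)⁻¹ = cm y x := by
  unfold cm; group

theorem cm_mul_right (h : Cl2 G) (x y z : G) : cm x (y * z) = cm x y * cm x z := by
  rw [← cm_inv_symm, cm_mul_left h, mul_inv_rev, cm_inv_symm, cm_inv_symm, h]

theorem cm_one_left (x : G) : cm 1 x = 1 := by unfold cm; group

theorem cm_one_right (x : G) : cm x 1 = 1 := by unfold cm; group

theorem cm_self (x : G) : cm x x = 1 := by unfold cm; group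

theorem cm_inv_left (h : Cl2 G) (x y : G) : cm x⁻¹ y = (cm x y)⁻¹ := by
  apply eq_inv_of_mul_eq_one_left
  rw [← cm_mul_left h, inv_mul_cancel, cm_one_left]

theorem mul_eq (x y : G) : x * y = y * x * cm x y := by unfold cm; group

theorem cm_of_comm {x y : G} (h : x * y = y * x) : cm x y = 1 := by
  have := mul_eq x y
  rw [h] at this
  exact (mul_eq_left.1 this.symm)

theorem cm_cm (h : Cl2 G) (x y z : G) : cm (cm x y) z = 1 := cm_of_comm (h x y z)

theorem cm_pow_left (h : Cl2 G) (x y : G) (n : ℕ) : cm (x ^ n) y = cm x y ^ n := by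
  induction n with
  | zero => simp [cm_one_left]
  | succ n ih => rw [pow_succ, cm_mul_left h, ih, pow_succ]

end cm

/-- the additive group -/
structure Lz (G : Type u) where
  /-- the element -/
  v : G

theorem Lz.ext' {G : Type u} {a b : Lz G} (h : a.v = b.v) : a = b := by
  cases a; cases b; cases h; rfl

variable {G : Type u} [Group G]

/-- powers of commutators are central -/
theorem cpow (h : Cl2 G) (x y z : G) (n : ℕ) : cm x y ^ n * z = z * cm x y ^ n :=
  (Commute.pow_left (show Commute (cm x y) z from h x y z) n)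

/-- the additive structure -/
@[reducible] def addG (h : Cl2 G) (m : ℕ) (hm : ∀ x : G, x ^ (2 * m) = x) :
    AddCommGroup (Lz G) :=
  letI : Add (Lz G) := ⟨fun a b => ⟨a.v * b.v * cm b.v a.v ^ m⟩⟩
  letI : Zero (Lz G) := ⟨⟨1⟩⟩
  letI : Neg (Lz G) := ⟨fun a => ⟨a.v⁻¹⟩⟩
  have hadd : ∀ a b : Lz G, (a + b).v = a.v * b.v * cm b.v a.v ^ m := fun _ _ => rfl
  have hz : (0 : Lz G).v = 1 := rfl
  have hn : ∀ a : Lz G, (-a).v = a.v⁻¹ := fun _ => rfl
  have comm : ∀ a b c d e f : G, (cm a b ^ m * cm c d ^ m) * cm e f ^ m =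
      cm a b ^ m * (cm c d ^ m * cm e f ^ m) := fun _ _ _ _ _ _ => mul_assoc _ _ _
  { AddGroup.ofLeftAxioms (G := Lz G)
      (by
        intro a b c
        apply Lz.ext'
        simp only [hadd]
        have e1 : cm c.v (a.v * b.v * cm b.v a.v ^ m) = cm c.v a.v * cm c.v b.v := by
          rw [cm_mul_right h, cm_mul_right h]
          have : cm c.v (cm b.v a.v ^ m) = 1 := by
            apply cm_of_comm
            exact (cpow h _ _ _ _).symm
          rw [this, mul_one]
        have e2 : cm (b.v * c.v * cm c.v b.v ^ m) a.v = cm b.v a.v * cm c.v a.v := by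
          rw [cm_mul_left h, cm_mul_left h]
          have : cm (cm c.v b.v ^ m) a.v = 1 := by
            apply cm_of_comm
            exact (cpow h _ _ _ _)
          rw [this, mul_one]
        rw [e1, e2]
        have c1 : Commute (cm c.v a.v) (cm c.v b.v) := h _ _ _
        have c2 : Commute (cm b.v a.v) (cm c.v a.v) := h _ _ _
        rw [c1.mul_pow, c2.mul_pow]
        have k1 := cpow h b.v a.v c.v m
        have k2 : Commute (cm b.v a.v ^ m) (cm c.v a.v ^ m) := c2.pow_pow m m
        have k3 : Commute (cm c.v a.v ^ m) (cm c.v b.v ^ m) := c1.pow_pow m m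
        have k4 : Commute (cm b.v a.v ^ m) (cm c.v b.v ^ m) :=
          (show Commute (cm b.v a.v) (cm c.v b.v) from h _ _ _).pow_pow m m
        calc a.v * b.v * cm b.v a.v ^ m * c.v * (cm c.v a.v ^ m * cm c.v b.v ^ m)
            = a.v * b.v * (cm b.v a.v ^ m * c.v) * (cm c.v a.v ^ m * cm c.v b.v ^ m) := by
              simp only [mul_assoc]
          _ = a.v * b.v * (c.v * cm b.v a.v ^ m) * (cm c.v a.v ^ m * cm c.v b.v ^ m) := by rw [k1]
          _ = a.v * b.v * c.v * ((cm b.v a.v ^ m * cm c.v a.v ^ m) * cm c.v b.v ^ m) := by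
              simp only [mul_assoc]
          _ = a.v * b.v * c.v * (cm c.v b.v ^ m * (cm b.v a.v ^ m * cm c.v a.v ^ m)) := by
              rw [(k4.mul_left k3).eq]
          _ = a.v * (b.v * c.v * cm c.v b.v ^ m) * (cm b.v a.v ^ m * cm c.v a.v ^ m) := by
              simp only [mul_assoc])
      (by
        intro a
        apply Lz.ext'
        simp only [hadd, hz, cm_one_right, one_pow, one_mul, mul_one])
      (by
        intro a
        apply Lz.ext'
        simp only [hadd, hz, hn]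
        rw [inv_mul_cancel, one_mul, cm_of_comm (by simp), one_pow]) with
    add_comm := by
      intro a b
      apply Lz.ext'
      show a.v * b.v * cm b.v a.v ^ m = b.v * a.v * cm a.v b.v ^ m
      rw [mul_eq a.v b.v, mul_assoc]
      congr 1
      rw [← cm_inv_symm a.v b.v, inv_pow]
      have h2 := hm (cm a.v b.v)
      rw [two_mul, pow_add] at h2
      rw [mul_inv_eq_iff_eq_mul]
      exact h2.symm }

theorem commutator_cm (x y : G) : cm x y ∈ commutator G := by
  have : cm x y = ⁅x⁻¹, y⁻¹⁆ := by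
    unfold cm; rw [commutatorElement_def]; group
  rw [this]
  exact Subgroup.commutator_mem_commutator (Subgroup.mem_top _) (Subgroup.mem_top _)

/-- the derived subgroup is central -/
theorem comm_central (h : Cl2 G) {d : G} (hd : d ∈ commutator G) (z : G) : d * z = z * d := by
  have : commutator G ≤ Subgroup.center G := by
    rw [commutator_def, Subgroup.commutator_le]
    intro x _ y _
    rw [Subgroup.mem_center_iff]
    intro g
    have e : ⁅x, y⁆ = cm x⁻¹ y⁻¹ := by
      unfold cm; rw [commutatorElement_def]; group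
    rw [e]
    exact (h _ _ _).symm
  exact ((Subgroup.mem_center_iff.1 (this hd)) z).symm

theorem exists_proj_add {p : ℕ} [Fact p.Prime] {A : Type u} [AddCommGroup A]
    (hA : ∀ a : A, p • a = 0) (D : AddSubgroup A) :
    ∃ π : A →+ A, (∀ a, π a ∈ D) ∧ ∀ d ∈ D, π d = d := by
  let iM : Module (ZMod p) A := AddCommGroup.zmodModule (n := p) hA
  obtain ⟨V, hV⟩ := Submodule.exists_isCompl (AddSubgroup.toZModSubmodule p D)
  refine ⟨((AddSubgroup.toZModSubmodule p D).subtype.comp
    (Submodule.projectionOnto _ V hV)).toAddMonoidHom, ?_, ?_⟩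
  · intro a
    exact (Submodule.projectionOnto _ V hV a).2
  · intro d hd
    have := Submodule.projectionOnto_apply_left hV
      (⟨d, hd⟩ : AddSubgroup.toZModSubmodule p D)
    show ((Submodule.projectionOnto _ V hV d : AddSubgroup.toZModSubmodule p D) : A) = d
    rw [show d = ((⟨d, hd⟩ : AddSubgroup.toZModSubmodule p D) : A) from rfl, this]

/-- the projection onto the derived subgroup -/
theorem exists_proj {p : ℕ} [Fact p.Prime] (h : Cl2 G) (m : ℕ) (hpm : 2 * m = p + 1)
    (hp : ∀ x : G, x ^ p = 1) :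
    ∃ π : G → G, (∀ x, π x ∈ commutator G) ∧ (∀ d, d ∈ commutator G → π d = d) ∧
      ∀ x y, π (x * y * cm y x ^ m) = π x * π y := by
  have hm : ∀ x : G, x ^ (2 * m) = x := by
    intro x
    rw [hpm, pow_succ, hp, one_mul]
  let iA := addG h m hm
  have hadd : ∀ a b : Lz G, (a + b).v = a.v * b.v * cm b.v a.v ^ m := fun _ _ => rfl
  have hz : (0 : Lz G).v = 1 := rfl
  have hn : ∀ a : Lz G, (-a).v = a.v⁻¹ := fun _ => rfl
  have hs : ∀ (n : ℕ) (a : Lz G), (n • a).v = a.v ^ n := by
    intro n a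
    induction n with
    | zero => rw [zero_smul, hz, pow_zero]
    | succ n ih =>
      rw [succ_nsmul, hadd, ih, pow_succ]
      rw [cm_of_comm (x := a.v) (y := a.v ^ n) (by rw [← pow_succ, ← pow_succ']), one_pow, mul_one]
  have hcomm : ∀ {a b : Lz G}, a.v ∈ commutator G → (a + b).v = a.v * b.v := by
    intro a b ha
    rw [hadd, cm_of_comm (x := b.v) (y := a.v) (comm_central h ha b.v).symm, one_pow, mul_one]
  let D0 : AddSubgroup (Lz G) :=
    { carrier := {a | a.v ∈ commutator G}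
      zero_mem' := (commutator G).one_mem
      add_mem' := by
        intro a b ha hb
        have := (commutator G).mul_mem ha hb
        rw [← hcomm ha] at this
        exact this
      neg_mem' := by
        intro a ha
        exact (commutator G).inv_mem ha }
  obtain ⟨π, h1, h2⟩ := exists_proj_add (p := p) (A := Lz G) (by
    intro a
    apply Lz.ext'
    rw [hs, hp, hz]) D0
  refine ⟨fun x => (π ⟨x⟩).v, fun x => h1 ⟨x⟩, ?_, ?_⟩
  · intro d hd
    exact congrArg Lz.v (h2 ⟨d⟩ hd)
  · intro x y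
    have e : (⟨x * y * cm y x ^ m⟩ : Lz G) = ⟨x⟩ + ⟨y⟩ := rfl
    show (π ⟨x * y * cm y x ^ m⟩).v = _
    rw [e, map_add, hcomm (h1 ⟨x⟩)]

/-- the automorphism -/
theorem exists_aut {p : ℕ} [Fact p.Prime] (h : Cl2 G) (m : ℕ) (hpm : 2 * m = p + 1)
    (hp : ∀ x : G, x ^ p = 1) :
    ∃ σ : MulAut G, σ * σ = 1 ∧ ∀ x, ∃ d ∈ commutator G, σ x = x⁻¹ * d := by
  obtain ⟨π, h1, h2, h3⟩ := exists_proj h m hpm hp
  have hc : ∀ x z : G, π x * z = z * π x := fun x z => comm_central h (h1 x) z
  have hm : ∀ x : G, x ^ (2 * m) = x := by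
    intro x
    rw [hpm, pow_succ, hp, one_mul]
  -- products with elements of the derived subgroup
  have h4 : ∀ x d, d ∈ commutator G → π (x * d) = π x * d := by
    intro x d hd
    have := h3 x d
    rw [cm_of_comm (comm_central h hd x), one_pow, mul_one, h2 d hd] at this
    exact this
  have h5 : ∀ x y, π (x * y) ^ 2 = π x ^ 2 * π y ^ 2 * cm x y := by
    intro x y
    have e1 := h3 x y
    rw [h4 _ _ ((commutator G).pow_mem (commutator_cm y x) m)] at e1
    have e2 : π (x * y) = π x * π y * cm x y ^ m := by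
      rw [← e1, mul_assoc, ← cm_inv_symm x y, inv_pow, inv_mul_cancel, mul_one]
    have c1 : Commute (π x) (π y) := hc x _
    have c2 : Commute (π x * π y) (cm x y ^ m) := (cpow h x y _ m).symm
    rw [e2, c2.mul_pow, c1.mul_pow, ← pow_mul, mul_comm m 2, hm]
  have h6 : π 1 = 1 := h2 1 (commutator G).one_mem
  let σ0 : G →* G :=
    { toFun := fun x => x⁻¹ * π x ^ 2
      map_one' := by rw [h6]; simp
      map_mul' := by
        intro x y
        have k1 : Commute (π x ^ 2) y⁻¹ := (show Commute (π x) y⁻¹ from hc x _).pow_left 2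
        rw [h5]
        have e : x⁻¹ * y⁻¹ = (x * y)⁻¹ * cm x y := by
          rw [← h x y]; unfold cm; group
        calc (x * y)⁻¹ * (π x ^ 2 * π y ^ 2 * cm x y)
            = (x * y)⁻¹ * (cm x y * (π x ^ 2 * π y ^ 2)) := by rw [h x y]
          _ = ((x * y)⁻¹ * cm x y) * (π x ^ 2 * π y ^ 2) := by rw [mul_assoc]
          _ = x⁻¹ * (y⁻¹ * π x ^ 2) * π y ^ 2 := by rw [← e]; simp only [mul_assoc]
          _ = x⁻¹ * (π x ^ 2 * y⁻¹) * π y ^ 2 := by rw [k1.eq]
          _ = x⁻¹ * π x ^ 2 * (y⁻¹ * π y ^ 2) := by simp only [mul_assoc] }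
  have h7 : ∀ x, π x⁻¹ = (π x)⁻¹ := by
    intro x
    have := h3 x x⁻¹
    rw [cm_of_comm (by simp), one_pow, mul_one, mul_inv_cancel, h6] at this
    exact (inv_eq_of_mul_eq_one_right this.symm).symm
  have h8 : ∀ x, π (x⁻¹ * π x ^ 2) = π x := by
    intro x
    rw [h4 _ _ ((commutator G).pow_mem (h1 x) 2), h7, pow_two, inv_mul_cancel_left]
  have h9 : ∀ x, σ0 (σ0 x) = x := by
    intro x
    show (x⁻¹ * π x ^ 2)⁻¹ * π (x⁻¹ * π x ^ 2) ^ 2 = x
    rw [h8, mul_inv_rev, inv_inv]
    have k : Commute x (π x ^ 2) := ((show Commute (π x) x from hc x _).pow_left 2).symm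
    rw [mul_assoc, k.eq, inv_mul_cancel_left]
  refine ⟨MulEquiv.ofBijective σ0 ⟨?_, ?_⟩, ?_, ?_⟩
  · intro a b hab
    rw [← h9 a, ← h9 b, hab]
  · intro a
    exact ⟨σ0 a, h9 a⟩
  · ext x
    exact h9 x
  · intro x
    exact ⟨π x ^ 2, (commutator G).pow_mem (h1 x) 2, rfl⟩

/-- **The integral.** -/
theorem exists_integral {p : ℕ} [Fact p.Prime] (hodd : Odd p) (h : Cl2 G)
    (hp : ∀ x : G, x ^ p = 1) : ∃ (H : Type u) (_ : Group H), Nonempty (commutator H ≃* G) ∧
      (commutator H).index ∣ 2 := by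
  obtain ⟨k, hk⟩ := hodd
  obtain ⟨σ, hσ, hd⟩ := exists_aut h (k + 1) (p := p) (by omega) hp
  let Z := Subgroup.zpowers σ
  let ψ : Z →* MulAut G := Z.subtype
  let H := G ⋊[ψ] Z
  have hle : commutator H ≤ (SemidirectProduct.rightHom : H →* Z).ker := by
    rw [commutator_def, Subgroup.commutator_le]
    intro x _ y _
    rw [MonoidHom.mem_ker, map_commutatorElement, commutatorElement_eq_one_iff_mul_comm]
    obtain ⟨i, hi⟩ := Subgroup.mem_zpowers_iff.1 (SemidirectProduct.rightHom x).2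
    obtain ⟨j, hj⟩ := Subgroup.mem_zpowers_iff.1 (SemidirectProduct.rightHom y).2
    apply Subtype.ext
    rw [Subgroup.coe_mul, Subgroup.coe_mul, ← hi, ← hj]
    exact zpow_mul_comm σ i j
  have hcom : ∀ d ∈ commutator G, (SemidirectProduct.inl d : H) ∈ commutator H := by
    intro d hd
    have : (commutator G).map (SemidirectProduct.inl : G →* H) ≤ commutator H := by
      rw [commutator_def, commutator_def, Subgroup.map_commutator]
      exact Subgroup.commutator_mono le_top le_top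
    exact this (Subgroup.mem_map_of_mem _ hd)
  have hsq : ∀ x : G, (SemidirectProduct.inl (x ^ 2) : H) ∈ commutator H := by
    intro x
    obtain ⟨d, hd1, hd2⟩ := hd x
    let s : H := SemidirectProduct.inr ⟨σ, Subgroup.mem_zpowers σ⟩
    have e1 : s * SemidirectProduct.inl x⁻¹ * s⁻¹ = SemidirectProduct.inl (σ x⁻¹) := by
      have := SemidirectProduct.inl_aut (φ := ψ) ⟨σ, Subgroup.mem_zpowers σ⟩ x⁻¹
      have e0 : s⁻¹ = SemidirectProduct.inr (⟨σ, Subgroup.mem_zpowers σ⟩ : Z)⁻¹ :=
        (map_inv _ _).symm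
      rw [e0]
      exact this.symm
    have e2 : (⁅(SemidirectProduct.inl x : H), s⁆ : H) =
        SemidirectProduct.inl (x * (d⁻¹ * x)) := by
      rw [commutatorElement_def]
      have : (SemidirectProduct.inl x : H) * s * (SemidirectProduct.inl x)⁻¹ * s⁻¹ =
          SemidirectProduct.inl x * (s * SemidirectProduct.inl x⁻¹ * s⁻¹) := by
        rw [map_inv]; simp only [mul_assoc]
      rw [this, e1, ← map_mul, map_inv, hd2, mul_inv_rev, inv_inv]
    have e3 : (⁅(SemidirectProduct.inl x : H), s⁆ : H) ∈ commutator H :=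
      Subgroup.commutator_mem_commutator (Subgroup.mem_top _) (Subgroup.mem_top _)
    have e4 := hcom d hd1
    have e5 : x ^ 2 = x * (d⁻¹ * x) * d := by
      have := comm_central h hd1 x
      rw [mul_assoc, mul_assoc, ← this, inv_mul_cancel_left, pow_two]
    rw [e5, map_mul, ← e2]
    exact (commutator H).mul_mem e3 e4
  have hle2 : (SemidirectProduct.inl : G →* H).range ≤ commutator H := by
    rintro _ ⟨x, rfl⟩
    have e : x = (x ^ (k + 1)) ^ 2 := by
      rw [← pow_mul, show (k + 1) * 2 = p + 1 by omega, pow_succ, hp, one_mul]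
    rw [e]
    exact hsq _
  have heq : commutator H = (SemidirectProduct.inl : G →* H).range :=
    le_antisymm (by rw [SemidirectProduct.range_inl_eq_ker_rightHom]; exact hle) hle2
  refine ⟨H, inferInstance, ?_, ?_⟩
  · exact ⟨((MonoidHom.ofInjective (SemidirectProduct.inl_injective (φ := ψ))).trans
      (MulEquiv.subgroupCongr heq.symm)).symm⟩
  · rw [heq, SemidirectProduct.range_inl_eq_ker_rightHom, Subgroup.index_ker,
      MonoidHom.range_eq_top.2 SemidirectProduct.rightHom_surjective, Subgroup.card_top,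
      Nat.card_zpowers]
    exact orderOf_dvd_of_pow_eq_one (by rw [pow_two, hσ])

/-- the Heisenberg group over `ZMod n` -/
@[ext] structure Hs (n : ℕ) where
  /-- first coordinate -/
  a : ZMod n
  /-- second coordinate -/
  b : ZMod n
  /-- third coordinate -/
  c : ZMod n

instance (n : ℕ) : Group (Hs n) :=
  letI : Mul (Hs n) := ⟨fun x y => ⟨x.a + y.a, x.b + y.b, x.c + y.c + x.a * y.b⟩⟩
  letI : One (Hs n) := ⟨⟨0, 0, 0⟩⟩
  letI : Inv (Hs n) := ⟨fun x => ⟨-x.a, -x.b, -x.c + x.a * x.b⟩⟩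
  have ha : ∀ x y : Hs n, (x * y).a = x.a + y.a := fun _ _ => rfl
  have hb : ∀ x y : Hs n, (x * y).b = x.b + y.b := fun _ _ => rfl
  have hc : ∀ x y : Hs n, (x * y).c = x.c + y.c + x.a * y.b := fun _ _ => rfl
  have ia : ∀ x : Hs n, x⁻¹.a = -x.a := fun _ => rfl
  have ib : ∀ x : Hs n, x⁻¹.b = -x.b := fun _ => rfl
  have ic : ∀ x : Hs n, x⁻¹.c = -x.c + x.a * x.b := fun _ => rfl
  have oa : (1 : Hs n).a = 0 := rfl
  have ob : (1 : Hs n).b = 0 := rfl
  have oc : (1 : Hs n).c = 0 := rfl
  Group.ofLeftAxioms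
    (by intro x y z; ext <;> simp only [ha, hb, hc] <;> ring)
    (by intro x; ext <;> simp only [ha, hb, hc, oa, ob, oc] <;> ring)
    (by intro x; ext <;> simp only [ha, hb, hc, ia, ib, ic, oa, ob, oc] <;> ring)

theorem Hs.ma {n : ℕ} (x y : Hs n) : (x * y).a = x.a + y.a := rfl
theorem Hs.mb {n : ℕ} (x y : Hs n) : (x * y).b = x.b + y.b := rfl
theorem Hs.mc {n : ℕ} (x y : Hs n) : (x * y).c = x.c + y.c + x.a * y.b := rfl
theorem Hs.ia {n : ℕ} (x : Hs n) : x⁻¹.a = -x.a := rfl
theorem Hs.ib {n : ℕ} (x : Hs n) : x⁻¹.b = -x.b := rfl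
theorem Hs.ic {n : ℕ} (x : Hs n) : x⁻¹.c = -x.c + x.a * x.b := rfl
theorem Hs.oa {n : ℕ} : (1 : Hs n).a = 0 := rfl
theorem Hs.ob {n : ℕ} : (1 : Hs n).b = 0 := rfl
theorem Hs.oc {n : ℕ} : (1 : Hs n).c = 0 := rfl

theorem Hs.cl2 (n : ℕ) : Cl2 (Hs n) := by
  intro x y z
  unfold cm
  ext <;> simp only [Hs.ma, Hs.mb, Hs.mc, Hs.ia, Hs.ib, Hs.ic] <;> ring

theorem Hs.pow_eq {n : ℕ} (x : Hs n) (k : ℕ) :
    x ^ k = ⟨k * x.a, k * x.b, k * x.c + (k.choose 2 : ℕ) * (x.a * x.b)⟩ := by
  induction k with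
  | zero => ext <;> simp [Hs.oa, Hs.ob, Hs.oc]
  | succ k ih =>
    rw [pow_succ, ih]
    have h2 : (k + 1).choose 2 = k.choose 1 + k.choose 2 := Nat.choose_succ_succ k 1
    rw [Nat.choose_one_right] at h2
    ext <;> simp only [Hs.ma, Hs.mb, Hs.mc, h2] <;> push_cast <;> ring

theorem Hs.exp {p : ℕ} (hodd : Odd p) (x : Hs p) : x ^ p = 1 := by
  rw [Hs.pow_eq]
  obtain ⟨k, hk⟩ := hodd
  have h2 : p.choose 2 = p * k := by
    rw [Nat.choose_two_right, hk, show 2 * k + 1 - 1 = k * 2 by omega, ← mul_assoc,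
      Nat.mul_div_cancel _ (by norm_num)]
  ext <;> simp [h2, Hs.oa, Hs.ob, Hs.oc]

theorem Hs.ne {p : ℕ} (hp : 1 < p) : ∃ x y : Hs p, x * y ≠ y * x := by
  have hF : Fact (1 < p) := ⟨hp⟩
  refine ⟨⟨1, 0, 0⟩, ⟨0, 1, 0⟩, fun h => ?_⟩
  have h1 := congrArg Hs.c h
  simp [Hs.mc] at h1

end Pool.Agent.Q105.IntegralVar
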