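import Mathlib

/-!
Powers of an integral isometry of a Lorentzian plane: which space-like directions are limits.
-/

set_option autoImplicit false

namespace Pool.Agent.Q105.LorLin

open Filter Topology

/-! ### scalar recurrences -/

/-- growth or decay for `a (n+2) = q a (n+1) - a n`, `|q| ≥ 3` -/
theorem decay (q : ℝ) (hq : 3 ≤ |q|) (a : ℕ → ℝ) (ha : ∀ n, a (n + 2) = q * a (n + 1) - a n)
    (m : ℕ → ℕ) (hm : StrictMono m) (C : ℝ) (hC : ∀ j, |a (m j)| ≤ C) :
    Tendsto a atTop (𝓝 0) := by
  have hstep : ∀ n, |a (n + 2)| ≥ 3 * |a (n + 1)| - |a n| := by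
    intro n
    have h1 : |q * a (n + 1)| ≤ |a (n + 2)| + |a n| := by
      have : q * a (n + 1) = a (n + 2) + a n := by rw [ha n]; ring
      rw [this]
      exact abs_add_le _ _
    have h2 : 3 * |a (n + 1)| ≤ |q * a (n + 1)| := by
      rw [abs_mul]
      exact mul_le_mul_of_nonneg_right hq (abs_nonneg _)
    linarith
  by_cases hcase : ∃ n, |a n| ≤ |a (n + 1)| ∧ 0 < |a (n + 1)|
  · exfalso
    obtain ⟨n, h1, h2⟩ := hcase
    have hgrow : ∀ k, |a (n + 1 + k)| ≥ 2 ^ k * |a (n + 1)| ∧
        |a (n + k)| ≤ |a (n + 1 + k)| := by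
      intro k
      induction k with
      | zero => exact ⟨by simp, by simpa using h1⟩
      | succ k ih =>
        have h3 := hstep (n + k)
        rw [show n + k + 2 = n + 1 + (k + 1) by ring, show n + k + 1 = n + 1 + k by ring] at h3
        obtain ⟨h4, h5⟩ := ih
        constructor
        · calc |a (n + 1 + (k + 1))| ≥ 3 * |a (n + 1 + k)| - |a (n + k)| := h3
            _ ≥ 2 * |a (n + 1 + k)| := by linarith
            _ ≥ 2 * (2 ^ k * |a (n + 1)|) := by linarith
            _ = 2 ^ (k + 1) * |a (n + 1)| := by ring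
        · rw [show n + (k + 1) = n + 1 + k by ring]
          have := abs_nonneg (a (n + 1 + k))
          linarith
    -- choose a large index
    obtain ⟨k, hk⟩ := pow_unbounded_of_one_lt ((C + 1) / |a (n + 1)|) (by norm_num : (1 : ℝ) < 2)
    rw [div_lt_iff₀ h2] at hk
    have h6 : n + 1 + k ≤ m (n + 1 + k) := hm.id_le _
    obtain ⟨d, hd⟩ := Nat.exists_eq_add_of_le h6
    have h7 := (hgrow (k + d)).1
    have h8 := hC (n + 1 + k)
    rw [hd] at h8
    rw [show n + 1 + (k + d) = n + 1 + k + d by ring] at h7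
    have h9 : (2 : ℝ) ^ k ≤ 2 ^ (k + d) := pow_le_pow_right₀ (by norm_num) (by omega)
    have h10 : (2 : ℝ) ^ k * |a (n + 1)| ≤ 2 ^ (k + d) * |a (n + 1)| :=
      mul_le_mul_of_nonneg_right h9 h2.le
    linarith
  · push Not at hcase
    have hdec : ∀ n, |a (n + 1)| ≤ |a n| := by
      intro n
      by_contra h
      push Not at h
      have h1 := hcase n h.le
      have h2 := abs_nonneg (a n)
      linarith
    have hanti : Antitone (fun n => |a n|) := antitone_nat_of_succ_le hdec
    have hbdd : BddBelow (Set.range fun n => |a n|) :=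
      ⟨0, by rintro _ ⟨n, rfl⟩; exact abs_nonneg _⟩
    have hlim := tendsto_atTop_ciInf hanti hbdd
    set L := ⨅ n, |a n| with hL
    have h1 : Tendsto (fun n => |a (n + 1)|) atTop (𝓝 L) :=
      (tendsto_add_atTop_iff_nat (f := fun n => |a n|) 1).mpr hlim
    have h2 : Tendsto (fun n => |a (n + 2)|) atTop (𝓝 L) :=
      (tendsto_add_atTop_iff_nat (f := fun n => |a n|) 2).mpr hlim
    have h3 : 3 * L - L ≤ L := by
      have h4 : Tendsto (fun n => 3 * |a (n + 1)| - |a n|) atTop (𝓝 (3 * L - L)) :=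
        (h1.const_mul 3).sub hlim
      exact le_of_tendsto_of_tendsto' h4 h2 hstep
    have h4 : 0 ≤ L := le_ciInf (fun n => abs_nonneg _)
    have h5 : L = 0 := by linarith
    rw [h5] at hlim
    exact (tendsto_zero_iff_abs_tendsto_zero a).mpr hlim

/-- an arithmetic progression that is bounded along a subsequence is constant -/
theorem linear_bdd (a : ℕ → ℝ) (ha : ∀ n, a (n + 2) = 2 * a (n + 1) - a n)
    (m : ℕ → ℕ) (hm : StrictMono m) (C : ℝ) (hC : ∀ j, |a (m j)| ≤ C) :
    ∀ n, a (n + 1) = a n := by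
  have h1 : ∀ n, a (n + 1) - a n = a 1 - a 0 := by
    intro n
    induction n with
    | zero => rfl
    | succ n ih =>
      have := ha n
      rw [show n + 1 + 1 = n + 2 by ring]
      linarith
  have h2 : ∀ n : ℕ, a n = a 0 + n * (a 1 - a 0) := by
    intro n
    induction n with
    | zero => simp
    | succ n ih =>
      have := h1 n
      push_cast
      linarith
  have h3 : a 1 - a 0 = 0 := by
    by_contra hne
    have hpos : 0 < |a 1 - a 0| := abs_pos.mpr hne
    obtain ⟨k, hk⟩ := exists_nat_gt ((C + |a 0|) / |a 1 - a 0|)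
    rw [div_lt_iff₀ hpos] at hk
    have h4 : k ≤ m k := hm.id_le _
    have h5 := hC k
    rw [h2 (m k)] at h5
    have h6 : |(m k : ℝ) * (a 1 - a 0)| ≤ C + |a 0| := by
      have : (m k : ℝ) * (a 1 - a 0) = (a 0 + m k * (a 1 - a 0)) - a 0 := by ring
      rw [this]
      have := abs_sub (a 0 + m k * (a 1 - a 0)) (a 0)
      linarith
    rw [abs_mul, Nat.abs_cast] at h6
    have h7 : (k : ℝ) * |a 1 - a 0| ≤ m k * |a 1 - a 0| :=
      mul_le_mul_of_nonneg_right (by exact_mod_cast h4) hpos.le
    linarith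
  intro n
  have := h1 n
  linarith

theorem linear_bdd' (δ : ℝ) (hδ : δ = 1 ∨ δ = -1) (a : ℕ → ℝ)
    (ha : ∀ n, a (n + 2) = 2 * δ * a (n + 1) - a n)
    (m : ℕ → ℕ) (hm : StrictMono m) (C : ℝ) (hC : ∀ j, |a (m j)| ≤ C) :
    ∀ n, a (n + 1) = δ * a n := by
  have hδ2 : δ * δ = 1 := by rcases hδ with h | h <;> rw [h] <;> norm_num
  have habs : ∀ n : ℕ, |δ ^ n| = 1 := by
    intro n
    rw [abs_pow]
    rcases hδ with h | h <;> rw [h] <;> simp
  have h1 := linear_bdd (fun n => δ ^ n * a n) (fun n => by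
    show δ ^ (n + 2) * a (n + 2) = 2 * (δ ^ (n + 1) * a (n + 1)) - δ ^ n * a n
    rw [ha n]
    have : δ ^ (n + 2) = δ ^ n := by rw [pow_add, pow_two, hδ2, mul_one]
    rw [this, pow_succ]
    ring) m hm C (fun j => by
      show |δ ^ m j * a (m j)| ≤ C
      rw [abs_mul, habs, one_mul]
      exact hC j)
  intro n
  have h2 : δ ^ (n + 1) * a (n + 1) = δ ^ n * a n := h1 n
  have h3 : δ ^ n * δ ^ n = 1 := by rw [← mul_pow, hδ2, one_pow]
  have h4 : δ ^ n * (δ ^ (n + 1) * a (n + 1)) = δ ^ n * (δ ^ n * a n) := by rw [h2]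
  have h5 : δ * a (n + 1) = a n := by
    calc δ * a (n + 1) = (δ ^ n * δ ^ n) * (δ * a (n + 1)) := by rw [h3, one_mul]
      _ = δ ^ n * (δ ^ (n + 1) * a (n + 1)) := by ring
      _ = δ ^ n * (δ ^ n * a n) := h4
      _ = (δ ^ n * δ ^ n) * a n := by ring
      _ = a n := by rw [h3, one_mul]
  rw [← h5, ← mul_assoc, hδ2, one_mul]

/-! ### the trichotomy -/

/-- Let `y` be a sequence of vectors with `y (n+3) = t y (n+2) - ε t y (n+1) + ε y n`,
`ε = ± 1`, `t` an integer, with pairwise different directions along the sequence `m` of indices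
and bounded along `m`. Then `|t - ε| ≥ 3` and `y (n+1) - ε y n` tends to zero. -/
theorem tri (ε t : ℤ) (hε : ε = 1 ∨ ε = -1) (y : ℕ → Fin 3 → ℝ)
    (hy : ∀ n i, y (n + 3) i = t * y (n + 2) i - ε * t * y (n + 1) i + ε * y n i)
    (m : ℕ → ℕ) (hm : StrictMono m) (C : ℝ) (hC : ∀ j i, |y (m j) i| ≤ C)
    (hC' : ∀ j i, |y (m j + 1) i - ε * y (m j) i| ≤ C)
    (hd : ∀ i j, i ≠ j → ∀ c : ℝ, y (m i) ≠ c • y (m j)) :
    3 ≤ |t - ε| ∧ ∀ i, Tendsto (fun n => y (n + 1) i - ε * y n i) atTop (𝓝 0) := by
  have hε2 : (ε : ℝ) * ε = 1 := by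
    rcases hε with h | h <;> rw [h] <;> norm_num
  have hu : ∀ i n, (fun n => y (n + 1) i - ε * y n i) (n + 2) =
      ((t - ε : ℤ) : ℝ) * (fun n => y (n + 1) i - ε * y n i) (n + 1) -
        (fun n => y (n + 1) i - ε * y n i) n := by
    intro i n
    show y (n + 2 + 1) i - ε * y (n + 2) i = ((t - ε : ℤ) : ℝ) * (y (n + 1 + 1) i - ε * y (n + 1) i)
      - (y (n + 1) i - ε * y n i)
    rw [show n + 2 + 1 = n + 3 by ring, hy n i, show n + 1 + 1 = n + 2 by ring]
    push_cast
    linear_combination (-(y (n + 1) i)) * hε2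
  have hper : ∀ N : ℕ, 0 < N → (∀ n, y (n + N) = y n) → False := by
    intro N hN hper
    have h1 : ∀ n, y n = y (n % N) := by
      intro n
      have hp : Function.Periodic y N := hper
      exact (hp.map_mod_nat n).symm
    have : Finite (Fin N) := inferInstance
    obtain ⟨i, j, hij, h⟩ := Finite.exists_ne_map_eq_of_infinite
      (fun j : ℕ => (⟨m j % N, Nat.mod_lt _ hN⟩ : Fin N))
    have h2 : m i % N = m j % N := congrArg Fin.val h
    refine hd i j hij 1 ?_
    rw [one_smul, h1 (m i), h1 (m j), h2]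
  by_cases h3 : 3 ≤ |t - ε|
  · refine ⟨h3, fun i => ?_⟩
    exact decay ((t - ε : ℤ) : ℝ) (by exact_mod_cast h3) _ (hu i) m hm C (fun j => hC' j i)
  · exfalso
    have hq : t - ε = -2 ∨ t - ε = -1 ∨ t - ε = 0 ∨ t - ε = 1 ∨ t - ε = 2 := by
      push Not at h3
      rw [abs_lt] at h3
      omega
    -- the parabolic case
    have hpar : ∀ δ : ℤ, (δ = 1 ∨ δ = -1) → t - ε = 2 * δ → False := by
      intro δ hδ hq
      have hδ' : (δ : ℝ) = 1 ∨ (δ : ℝ) = -1 := by
        rcases hδ with h | h
        · left; exact_mod_cast h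
        · right; exact_mod_cast h
      have h1 : ∀ i n, y (n + 2) i - ε * y (n + 1) i = δ * (y (n + 1) i - ε * y n i) := by
        intro i
        refine linear_bdd' (δ : ℝ) hδ' (fun n => y (n + 1) i - ε * y n i) ?_ m hm C
          (fun j => hC' j i)
        intro n
        have h2 := hu i n
        rw [hq] at h2
        push_cast at h2
        exact h2
      by_cases hde : δ = ε
      · -- unipotent
        have h2 : ∀ i n, y (n + 1) i = ε * y n i := by
          intro i
          apply linear_bdd' (ε : ℝ) (by rw [← hde]; exact hδ') (fun n => y n i) _ m hm C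
            (fun j => hC j i)
          intro n
          have h3 := h1 i n
          rw [hde] at h3
          show y (n + 2) i = 2 * ε * y (n + 1) i - y n i
          linear_combination h3 - (y n i) * hε2
        have h3 : ∀ n i, y n i = ε ^ n * y 0 i := by
          intro n i
          induction n with
          | zero => simp
          | succ n ih => rw [h2 i n, ih]; ring
        have h4 : ∀ n : ℕ, (ε : ℝ) ^ n * ε ^ n = 1 := by
          intro n
          rw [← mul_pow, hε2, one_pow]
        refine hd 0 1 (by norm_num) (ε ^ m 0 * ε ^ m 1) ?_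
        ext i
        rw [Pi.smul_apply, smul_eq_mul, h3 (m 0) i, h3 (m 1) i]
        calc (ε : ℝ) ^ m 0 * y 0 i = ε ^ m 0 * (ε ^ m 1 * ε ^ m 1) * y 0 i := by rw [h4]; ring
          _ = ε ^ m 0 * ε ^ m 1 * (ε ^ m 1 * y 0 i) := by ring
      · have h5 : (δ : ℝ) = -ε := by
          rcases hδ with h | h <;> rcases hε with h' | h' <;> rw [h, h'] at hde ⊢
          · exact absurd rfl hde
          · norm_num
          · norm_num
          · exact absurd rfl hde
        apply hper 2 (by norm_num)
        intro n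
        ext i
        have h6 := h1 i n
        rw [h5] at h6
        linear_combination h6 + (y n i) * hε2
    have hell : ∀ n i, (t - ε = -1 ∨ t - ε = 0 ∨ t - ε = 1) → y (n + 12) i = y n i := by
      intro n i hq
      have e0 := hy n i
      have e1 := hy (n + 1) i
      have e2 := hy (n + 2) i
      have e3 := hy (n + 3) i
      have e4 := hy (n + 4) i
      have e5 := hy (n + 5) i
      have e6 := hy (n + 6) i
      have e7 := hy (n + 7) i
      have e8 := hy (n + 8) i
      have e9 := hy (n + 9) i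
      simp only [Nat.add_assoc, Nat.reduceAdd] at e0 e1 e2 e3 e4 e5 e6 e7 e8 e9
      rcases hε with hε | hε <;> rcases hq with hq | hq | hq <;>
      · have ht : t = ε + (t - ε) := by ring
        rw [hq, hε] at ht
        norm_num at ht
        rw [hε, ht] at e0 e1 e2 e3 e4 e5 e6 e7 e8 e9
        push_cast at e0 e1 e2 e3 e4 e5 e6 e7 e8 e9
        linarith
    rcases hq with hq | hq | hq | hq | hq
    · exact hpar (-1) (Or.inr rfl) (by rw [hq]; norm_num)
    · exact hper 12 (by norm_num) (fun n => by ext i; exact hell n i (Or.inl hq))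
    · exact hper 12 (by norm_num) (fun n => by ext i; exact hell n i (Or.inr (Or.inl hq)))
    · exact hper 12 (by norm_num) (fun n => by ext i; exact hell n i (Or.inr (Or.inr hq)))
    · exact hpar 1 (Or.inl rfl) (by rw [hq]; norm_num)

end Pool.Agent.Q105.LorLin
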