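import Mathlib

/-!
Number sequences for the homoclinic limit direction of the `(2, 3, ∞)` triangle group.
-/

set_option autoImplicit false

namespace Pool.Agent.Q105.LorSeq

open Filter Topology

/-- existence of infinite continued fractions with digits `1` and `2` -/
theorem exists_beta (b : ℕ → ℝ) (hb : ∀ n, b n = 1 ∨ b n = 2) :
    ∃ β : ℕ → ℝ, (∀ n, 1 ≤ β n ∧ β n ≤ 3) ∧ ∀ n, β n = b n + 1 / β (n + 1) := by
  let K : ℕ → Set (ℕ → ℝ) := fun m => {β | (∀ n, 1 ≤ β n ∧ β n ≤ 3) ∧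
    ∀ n < m, β n * β (n + 1) = b n * β (n + 1) + 1}
  have hne : ∀ m : ℕ, ∀ b : ℕ → ℝ, (∀ n, b n = 1 ∨ b n = 2) →
      ∃ β : ℕ → ℝ, (∀ n, 1 ≤ β n ∧ β n ≤ 3) ∧
        ∀ n < m, β n * β (n + 1) = b n * β (n + 1) + 1 := by
    intro m
    induction m with
    | zero =>
      intro b _
      exact ⟨fun _ => 1, fun n => ⟨le_refl _, by norm_num⟩, fun n hn => absurd hn (Nat.not_lt_zero n)⟩
    | succ m ih =>
      intro b hb
      obtain ⟨β, h1, h2⟩ := ih (fun n => b (n + 1)) (fun n => hb (n + 1))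
      have h0 : 0 < β 0 := by linarith [(h1 0).1]
      refine ⟨fun n => Nat.casesOn n (b 0 + 1 / β 0) (fun k => β k), ?_, ?_⟩
      · intro n
        rcases n with _ | k
        · show 1 ≤ b 0 + 1 / β 0 ∧ b 0 + 1 / β 0 ≤ 3
          have h3 : 1 / β 0 ≤ 1 := by rw [div_le_one h0]; exact (h1 0).1
          have h4 : 0 < 1 / β 0 := by positivity
          rcases hb 0 with h | h <;> rw [h] <;> constructor <;> linarith
        · exact h1 k
      · intro n hn
        rcases n with _ | k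
        · show (b 0 + 1 / β 0) * β 0 = b 0 * β 0 + 1
          field_simp
        · exact h2 k (by omega)
  have hK : (⋂ m, K m).Nonempty := by
    apply IsCompact.nonempty_iInter_of_sequence_nonempty_isCompact_isClosed
    · intro m β hβ
      exact ⟨hβ.1, fun n hn => hβ.2 n (by omega)⟩
    · intro m
      obtain ⟨β, h⟩ := hne m b hb
      exact ⟨β, h⟩
    · have h1 : K 0 = Set.pi Set.univ (fun _ : ℕ => Set.Icc (1 : ℝ) 3) := by
        ext β
        constructor
        · intro h n _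
          exact h.1 n
        · intro h
          exact ⟨fun n => h n (Set.mem_univ n), fun n hn => absurd hn (Nat.not_lt_zero n)⟩
      rw [h1]
      exact isCompact_univ_pi (fun _ => isCompact_Icc)
    · intro m
      have h1 : K m = (⋂ n, {β : ℕ → ℝ | 1 ≤ β n ∧ β n ≤ 3}) ∩
          ⋂ n, {β : ℕ → ℝ | n < m → β n * β (n + 1) = b n * β (n + 1) + 1} := by
        ext β
        simp only [K, Set.mem_ofPred_eq, Set.mem_inter_iff, Set.mem_iInter]
      rw [h1]
      apply IsClosed.inter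
      · apply isClosed_iInter
        intro n
        exact (isClosed_le continuous_const (continuous_apply n)).inter
          (isClosed_le (continuous_apply n) continuous_const)
      · apply isClosed_iInter
        intro n
        by_cases hn : n < m
        · have : {β : ℕ → ℝ | n < m → β n * β (n + 1) = b n * β (n + 1) + 1} =
              {β : ℕ → ℝ | β n * β (n + 1) = b n * β (n + 1) + 1} := by
            ext β
            simp [hn]
          rw [this]
          exact isClosed_eq ((continuous_apply n).mul (continuous_apply (n + 1)))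
            ((continuous_const.mul (continuous_apply (n + 1))).add continuous_const)
        · have : {β : ℕ → ℝ | n < m → β n * β (n + 1) = b n * β (n + 1) + 1} = Set.univ := by
            ext β
            simp [hn]
          rw [this]
          exact isClosed_univ
  obtain ⟨β, hβ⟩ := hK
  rw [Set.mem_iInter] at hβ
  refine ⟨β, (hβ 0).1, ?_⟩
  intro n
  have h1 := (hβ (n + 1)).2 n (by omega)
  have h2 : 0 < β (n + 1) := by linarith [((hβ 0).1 (n + 1)).1]
  field_simp
  linarith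

/-- the digits: `2` at the powers of three, `1` elsewhere -/
noncomputable def dig (n : ℕ) : ℕ := by
  classical
  exact if ∃ j, n = 3 ^ j then 2 else 1

theorem dig_or (n : ℕ) : dig n = 1 ∨ dig n = 2 := by
  unfold dig
  split_ifs
  · right; rfl
  · left; rfl

theorem dig_pow (j : ℕ) : dig (3 ^ j) = 2 := by
  unfold dig
  rw [if_pos ⟨j, rfl⟩]

theorem dig_between {n j : ℕ} (h1 : 3 ^ j < n) (h2 : n < 3 ^ (j + 1)) : dig n = 1 := by
  unfold dig
  rw [if_neg]
  rintro ⟨i, rfl⟩
  have h3 := (Nat.pow_lt_pow_iff_right (by norm_num : 1 < 3)).mp h1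
  have h4 := (Nat.pow_lt_pow_iff_right (by norm_num : 1 < 3)).mp h2
  omega

/-- the backward sequence -/
noncomputable def al : ℕ → ℝ
  | 0 => 0
  | (n + 1) => 1 / (al n - dig n)

theorem al_bd (n : ℕ) : -1 ≤ al n ∧ al n ≤ 0 := by
  induction n with
  | zero => exact ⟨by show (-1 : ℝ) ≤ 0; norm_num, le_refl _⟩
  | succ n ih =>
    have h1 : (1 : ℝ) ≤ dig n := by
      rcases dig_or n with h | h <;> rw [h] <;> norm_num
    have h2 : al n - dig n ≤ -1 := by linarith [ih.2]
    show -1 ≤ 1 / (al n - dig n) ∧ 1 / (al n - dig n) ≤ 0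
    constructor
    · rw [le_div_iff_of_neg (by linarith)]
      linarith
    · exact div_nonpos_of_nonneg_of_nonpos zero_le_one (by linarith)

theorem sqrt5_bd : (2 : ℝ) < √5 ∧ √5 < 9 / 4 := by
  constructor
  · rw [Real.lt_sqrt (by norm_num)]; norm_num
  · rw [Real.sqrt_lt' (by norm_num)]; norm_num

theorem sq5 : √5 * √5 = (5 : ℝ) := Real.mul_self_sqrt (by norm_num)

theorem al_contract (n : ℕ) (h : dig n = 1) :
    |al (n + 1) - (1 - √5) / 2| ≤ (2 / 3) * |al n - (1 - √5) / 2| := by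
  have h5 := sqrt5_bd
  have h2 := al_bd n
  have h3 : al n - 1 ≤ -1 := by linarith
  have h6 : (1 - √5) / 2 - 1 ≤ -(3 / 2) := by linarith
  have h7 : (1 - √5) / 2 = 1 / ((1 - √5) / 2 - 1) := by
    rw [eq_div_iff (by linarith)]
    nlinarith [sq5]
  have h8 : al (n + 1) - (1 - √5) / 2 =
      (((1 - √5) / 2 - 1)⁻¹ * (al n - 1)⁻¹) * ((1 - √5) / 2 - al n) := by
    conv_lhs => rw [h7]
    show 1 / (al n - dig n) - 1 / ((1 - √5) / 2 - 1) = _
    rw [h, Nat.cast_one]
    have h9 : al n - 1 ≠ 0 := by linarith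
    have h10 : (1 - √5) / 2 - 1 ≠ 0 := by linarith
    have h11 : (1 - √5) / 2 - al n = ((1 - √5) / 2 - 1) - (al n - 1) := by ring
    rw [h11]
    generalize al n - 1 = u at h9
    generalize (1 - √5) / 2 - 1 = v at h10
    field_simp
  rw [h8, abs_mul, abs_sub_comm ((1 - √5) / 2) (al n)]
  apply mul_le_mul_of_nonneg_right _ (abs_nonneg _)
  rw [abs_mul, abs_inv, abs_inv]
  have h11 : 3 / 2 ≤ |(1 - √5) / 2 - 1| := by
    rw [abs_of_neg (by linarith)]
    linarith
  have h12 : 1 ≤ |al n - 1| := by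
    rw [abs_of_neg (by linarith)]
    linarith
  calc |(1 - √5) / 2 - 1|⁻¹ * |al n - 1|⁻¹ ≤ (3 / 2)⁻¹ * (1 : ℝ)⁻¹ := by
        gcongr
    _ = 2 / 3 := by norm_num

theorem be_contract (β : ℕ → ℝ) (hβ : ∀ n, 1 ≤ β n ∧ β n ≤ 3)
    (hr : ∀ n, β n = dig n + 1 / β (n + 1)) (n : ℕ) (h : dig n = 1) :
    |β n - (1 + √5) / 2| ≤ (2 / 3) * |β (n + 1) - (1 + √5) / 2| := by
  have h5 := sqrt5_bd
  have h2 := hβ (n + 1)
  have h7 : (1 + √5) / 2 = 1 + 1 / ((1 + √5) / 2) := by
    have : (1 + √5) / 2 ≠ 0 := by linarith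
    field_simp
    nlinarith [sq5]
  have h8 : β n - (1 + √5) / 2 =
      (((1 + √5) / 2)⁻¹ * (β (n + 1))⁻¹) * ((1 + √5) / 2 - β (n + 1)) := by
    conv_lhs => rw [h7]
    rw [hr n, h]
    have h9 : β (n + 1) ≠ 0 := by linarith
    have h10 : (1 + √5) ≠ 0 := by linarith
    field_simp
    push_cast
    ring
  rw [h8, abs_mul, abs_sub_comm ((1 + √5) / 2) (β (n + 1))]
  apply mul_le_mul_of_nonneg_right _ (abs_nonneg _)
  rw [abs_mul, abs_inv, abs_inv]
  have h11 : 3 / 2 ≤ |(1 + √5) / 2| := by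
    rw [abs_of_pos (by linarith)]
    linarith
  have h12 : 1 ≤ |β (n + 1)| := by
    rw [abs_of_pos (by linarith)]
    linarith
  calc |(1 + √5) / 2|⁻¹ * |β (n + 1)|⁻¹ ≤ (3 / 2)⁻¹ * (1 : ℝ)⁻¹ := by
        gcongr
    _ = 2 / 3 := by norm_num

theorem al_pow (n m : ℕ) (h : ∀ i < m, dig (n + i) = 1) :
    |al (n + m) - (1 - √5) / 2| ≤ (2 / 3) ^ m := by
  induction m with
  | zero =>
    have h5 := sqrt5_bd
    have h2 := al_bd n
    simp only [Nat.add_zero, pow_zero]
    rw [abs_le]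
    constructor <;> linarith
  | succ m ih =>
    have h1 := al_contract (n + m) (h m (by omega))
    have h2 := ih (fun i hi => h i (by omega))
    calc |al (n + (m + 1)) - (1 - √5) / 2| ≤ (2 / 3) * |al (n + m) - (1 - √5) / 2| := h1
      _ ≤ (2 / 3) * (2 / 3) ^ m := by gcongr
      _ = (2 / 3) ^ (m + 1) := by ring

theorem be_pow (β : ℕ → ℝ) (hβ : ∀ n, 1 ≤ β n ∧ β n ≤ 3)
    (hr : ∀ n, β n = dig n + 1 / β (n + 1)) (m : ℕ) :
    ∀ n, (∀ i < m, dig (n + i) = 1) → |β n - (1 + √5) / 2| ≤ 2 * (2 / 3) ^ m := by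
  induction m with
  | zero =>
    intro n _
    have h5 := sqrt5_bd
    have h2 := hβ n
    rw [abs_le]
    constructor <;> linarith
  | succ m ih =>
    intro n h
    have h1 := be_contract β hβ hr n (h 0 (by omega))
    have h2 := ih (n + 1) (fun i hi => by
      have := h (i + 1) (by omega)
      rwa [show n + (i + 1) = n + 1 + i by ring] at this)
    calc |β n - (1 + √5) / 2| ≤ (2 / 3) * |β (n + 1) - (1 + √5) / 2| := h1
      _ ≤ (2 / 3) * (2 * (2 / 3) ^ m) := by gcongr
      _ = 2 * (2 / 3) ^ (m + 1) := by ring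

/-- convergence of the two endpoints along the powers of three -/
theorem al_tendsto : Tendsto (fun j : ℕ => al (3 ^ j)) atTop (𝓝 ((1 - √5) / 2)) := by
  have h1 : ∀ j : ℕ, |al (3 ^ (j + 1)) - (1 - √5) / 2| ≤ (2 / 3) ^ (3 ^ j) := by
    intro j
    have h3 : 3 ^ (j + 1) = (2 * 3 ^ j) + 3 ^ j := by ring
    have hpos : 0 < 3 ^ j := by positivity
    have h2 := al_pow (2 * 3 ^ j) (3 ^ j) (fun i hi => dig_between (j := j) (by omega) (by omega))
    rwa [← h3] at h2
  have h2 : Tendsto (fun j : ℕ => (2 / 3 : ℝ) ^ (3 ^ j)) atTop (𝓝 0) :=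
    (tendsto_pow_atTop_nhds_zero_of_lt_one (by norm_num) (by norm_num)).comp
      (tendsto_pow_atTop_atTop_of_one_lt (by norm_num))
  have h3 : Tendsto (fun j : ℕ => al (3 ^ (j + 1))) atTop (𝓝 ((1 - √5) / 2)) := by
    rw [tendsto_iff_norm_sub_tendsto_zero]
    apply squeeze_zero (fun _ => norm_nonneg _) (fun j => ?_) h2
    rw [Real.norm_eq_abs]
    exact h1 j
  exact (tendsto_add_atTop_iff_nat (f := fun j : ℕ => al (3 ^ j)) 1).mp h3

theorem be_tendsto (β : ℕ → ℝ) (hβ : ∀ n, 1 ≤ β n ∧ β n ≤ 3)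
    (hr : ∀ n, β n = dig n + 1 / β (n + 1)) :
    Tendsto (fun j : ℕ => β (3 ^ j)) atTop (𝓝 ((3 + √5) / 2)) := by
  have h1 : ∀ j : ℕ, |β (3 ^ j + 1) - (1 + √5) / 2| ≤ 2 * (2 / 3) ^ (3 ^ j) := by
    intro j
    have hpos : 0 < 3 ^ j := by positivity
    exact be_pow β hβ hr (3 ^ j) _ (fun i hi => dig_between (j := j) (by omega) (by
      have h3 : 3 ^ (j + 1) = 3 * 3 ^ j := by ring
      omega))
  have h2 : Tendsto (fun j : ℕ => 2 * (2 / 3 : ℝ) ^ (3 ^ j)) atTop (𝓝 0) := by
    have := ((tendsto_pow_atTop_nhds_zero_of_lt_one (r := (2 / 3 : ℝ)) (by norm_num)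
      (by norm_num)).comp (tendsto_pow_atTop_atTop_of_one_lt (r := 3) (by norm_num))).const_mul 2
    simpa using this
  have h3 : Tendsto (fun j : ℕ => β (3 ^ j + 1)) atTop (𝓝 ((1 + √5) / 2)) := by
    rw [tendsto_iff_norm_sub_tendsto_zero]
    apply squeeze_zero (fun _ => norm_nonneg _) (fun j => ?_) h2
    rw [Real.norm_eq_abs]
    exact h1 j
  have h5 := sqrt5_bd
  have h4 : Tendsto (fun j : ℕ => 2 + 1 / β (3 ^ j + 1)) atTop (𝓝 (2 + 1 / ((1 + √5) / 2))) :=
    tendsto_const_nhds.add (tendsto_const_nhds.div h3 (by linarith))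
  have h6 : 2 + 1 / ((1 + √5) / 2) = (3 + √5) / 2 := by
    have : (1 + √5) ≠ 0 := by linarith
    field_simp
    nlinarith [sq5]
  rw [h6] at h4
  refine h4.congr (fun j => ?_)
  rw [hr (3 ^ j), dig_pow]
  norm_num

/-- the values of `β` at different powers of three are different -/
theorem be_inj (β : ℕ → ℝ) (hβ : ∀ n, 1 ≤ β n ∧ β n ≤ 3)
    (hr : ∀ n, β n = dig n + 1 / β (n + 1)) (i j : ℕ) (hij : i < j) :
    β (3 ^ i) ≠ β (3 ^ j) := by
  intro h
  have h43 : ∀ n, 4 / 3 ≤ β n := by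
    intro n
    have h1 : (1 : ℝ) ≤ dig n := by
      rcases dig_or n with h | h <;> rw [h] <;> norm_num
    have h2 : 1 / 3 ≤ 1 / β (n + 1) :=
      one_div_le_one_div_of_le (by linarith [(hβ (n + 1)).1]) (hβ (n + 1)).2
    rw [hr n]
    linarith
  have hstep : ∀ k l : ℕ, β k = β l → dig k = dig l ∧ β (k + 1) = β (l + 1) := by
    intro k l hkl
    have h1 : ∀ n, 0 < 1 / β (n + 1) ∧ 1 / β (n + 1) ≤ 3 / 4 := by
      intro n
      have h2 := h43 (n + 1)
      refine ⟨by positivity, ?_⟩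
      rw [div_le_iff₀ (by linarith)]
      linarith
    have hk := hr k
    have hl := hr l
    have hd : dig k = dig l := by
      rcases dig_or k with hk1 | hk1 <;> rcases dig_or l with hl1 | hl1
      · rw [hk1, hl1]
      · exfalso
        rw [hk1] at hk
        rw [hl1] at hl
        have := h1 k
        have := h1 l
        push_cast at hk hl
        linarith
      · exfalso
        rw [hk1] at hk
        rw [hl1] at hl
        have := h1 k
        have := h1 l
        push_cast at hk hl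
        linarith
      · rw [hk1, hl1]
    refine ⟨hd, ?_⟩
    rw [hk, hl, hd] at hkl
    have h2 : 1 / β (k + 1) = 1 / β (l + 1) := by linarith
    rw [one_div, one_div] at h2
    exact inv_injective h2
  have hall : ∀ m, β (3 ^ i + m) = β (3 ^ j + m) := by
    intro m
    induction m with
    | zero => exact h
    | succ m ih => exact (hstep _ _ ih).2
  have h1 := (hstep _ _ (hall (2 * 3 ^ i))).1
  rw [show 3 ^ i + 2 * 3 ^ i = 3 ^ (i + 1) by ring, dig_pow] at h1
  have h2 : 3 ^ i < 3 ^ j := Nat.pow_lt_pow_right (by norm_num) hij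
  have h3 : dig (3 ^ j + 2 * 3 ^ i) = 1 := by
    have hpos : 0 < 3 ^ i := by positivity
    apply dig_between (j := j) (by omega)
    have h3 : 3 ^ (j + 1) = 3 * 3 ^ j := by ring
    omega
  omega

end Pool.Agent.Q105.LorSeq
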