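import Mathlib
import Pool.Agent.Q105.TwBall
import Pool.Agent.Q105.CRc
import Pool.Agent.Q105.Density

/-!
# The degree of twisted commutativity of virtually abelian groups
-/

namespace Pool.Agent.Q105.Tw

open Pool.Agent.Q105.TwBall Pool.Agent.Q105.CR Pool.Agent.Q105.Growth Filter Topology

variable {G : Type*} [Group G]

/-- The generating set of `G × G` whose balls are the squares of the balls of `X`. -/
def Xp (X : Set G) : Set (G × G) :=
  {p | (p.1 ∈ X ∨ p.1⁻¹ ∈ X ∨ p.1 = 1) ∧ (p.2 ∈ X ∨ p.2⁻¹ ∈ X ∨ p.2 = 1)}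

lemma Xp_finite {X : Set G} (hX : X.Finite) : (Xp X).Finite := by
  have h1 : {x : G | x ∈ X ∨ x⁻¹ ∈ X ∨ x = 1}.Finite := by
    have h : {x : G | x ∈ X ∨ x⁻¹ ∈ X ∨ x = 1} = X ∪ (X⁻¹ ∪ {1}) := by
      ext; simp; tauto
    rw [h]
    exact hX.union (hX.inv.union (Set.finite_singleton _))
  exact (h1.prod h1).subset fun p hp => hp

lemma ball_prod (X : Set G) (n : ℕ) : Ball (Xp X) n = Ball X n ×ˢ Ball X n := by
  have h1 : ∀ x : G, (x ∈ X ∨ x⁻¹ ∈ X ∨ x = 1) → x ∈ Ball X 1 := by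
    rintro x (h | h | h)
    · exact mem_Ball_one_of_mem X h
    · have := inv_mem_Ball X (mem_Ball_one_of_mem X h)
      simpa using this
    · rw [h]; exact one_mem_Ball X 1
  have h2 : ∀ n (x : G), x ∈ Ball X (n + 1) → ∃ y ∈ Ball X n, ∃ z, (z ∈ X ∨ z⁻¹ ∈ X ∨ z = 1) ∧
      x = y * z := by
    intro n x hx
    rw [Ball_succ_eq] at hx
    rcases hx with hx | hx
    · exact ⟨x, hx, 1, Or.inr (Or.inr rfl), by simp⟩
    · simp only [Set.mem_iUnion] at hx
      obtain ⟨z, hz, y, hy, rfl⟩ := hx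
      refine ⟨y, hy, z, ?_, rfl⟩
      rcases hz with hz | hz
      · exact Or.inl hz
      · exact Or.inr (Or.inl hz)
  ext ⟨x, y⟩
  constructor
  · intro h
    induction n generalizing x y with
    | zero =>
      rw [Ball_zero] at h
      simp only [Set.mem_singleton_iff, Prod.mk_eq_one] at h
      rw [h.1, h.2]
      exact ⟨one_mem_Ball X 0, one_mem_Ball X 0⟩
    | succ n ih =>
      rw [Ball_succ_eq] at h
      rcases h with h | h
      · have := ih x y h
        exact ⟨Ball_mono X (Nat.le_succ n) this.1, Ball_mono X (Nat.le_succ n) this.2⟩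
      · simp only [Set.mem_iUnion] at h
        obtain ⟨z, hz, ⟨a, b⟩, hab, e⟩ := h
        have h3 := ih a b hab
        simp only [Prod.ext_iff, Prod.fst_mul, Prod.snd_mul] at e
        have hz' : z ∈ Xp X := by
          rcases hz with hz | hz
          · exact hz
          · obtain ⟨c1, c2⟩ := hz
            simp only [Prod.fst_inv, Prod.snd_inv, inv_inv, inv_eq_one] at c1 c2
            exact ⟨by tauto, by tauto⟩
        rw [← e.1, ← e.2]
        exact ⟨mul_mem_Ball X h3.1 (h1 _ hz'.1), mul_mem_Ball X h3.2 (h1 _ hz'.2)⟩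
  · rintro ⟨hx, hy⟩
    simp only at hx hy
    induction n generalizing x y with
    | zero =>
      rw [Ball_zero] at hx hy ⊢
      rw [hx, hy]; rfl
    | succ n ih =>
      obtain ⟨a, ha, z, hz, rfl⟩ := h2 n x hx
      obtain ⟨b, hb, w, hw, rfl⟩ := h2 n y hy
      have h3 := ih a b ha hb
      have h4 : ((z, w) : G × G) ∈ Ball (Xp X) 1 := mem_Ball_one_of_mem (Xp X) ⟨hz, hw⟩
      exact mul_mem_Ball (Xp X) h3 h4

lemma closure_Xp {X : Set G} (hgen : Subgroup.closure X = ⊤) :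
    Subgroup.closure (Xp X) = ⊤ := by
  rw [eq_top_iff]
  rintro ⟨x, y⟩ _
  obtain ⟨m, hm⟩ := exists_mem_Ball hgen x
  obtain ⟨n, hn⟩ := exists_mem_Ball hgen y
  have h : ((x, y) : G × G) ∈ Ball (Xp X) (m + n) := by
    rw [ball_prod]
    exact ⟨Ball_mono X (by omega) hm, Ball_mono X (by omega) hn⟩
  obtain ⟨l, _, hl, h2⟩ := h
  rw [← h2]
  refine Subgroup.list_prod_mem _ fun z hz => ?_
  rcases hl z hz with h | h
  · exact Subgroup.subset_closure h
  · rw [← inv_inv z]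
    exact Subgroup.inv_mem _ (Subgroup.subset_closure h)

/-- The set of solutions of `x y = y φ(x)`. -/
def E (φ : G →* G) : Set (G × G) := {p | p.1 * p.2 = p.2 * φ p.1}

lemma solution_set (φ : G →* G) (X : Set G) (n : ℕ) :
    {p : G × G | p.1 ∈ Ball X n ∧ p.2 ∈ Ball X n ∧ p.1 * p.2 = p.2 * φ p.1} =
      Ball (Xp X) n ∩ E φ := by
  rw [ball_prod]
  ext p
  simp only [Set.mem_ofPred_eq, Set.mem_inter_iff, Set.mem_prod, E, and_assoc]

lemma ball_sq (X : Set G) (n : ℕ) :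
    (((Ball (Xp X) n).ncard : ℕ) : ℝ) = ((Ball X n).ncard : ℝ) ^ 2 := by
  rw [ball_prod, Set.ncard_prod]; push_cast; ring

/-- Four commuting elements. -/
lemma four (A : Subgroup G) (hcomm : ∀ x ∈ A, ∀ y ∈ A, x * y = y * x) {a b c d : G}
    (_ : a ∈ A) (hb : b ∈ A) (hc : c ∈ A) (_ : d ∈ A) :
    (a * b) * (c * d) = (a * c) * (b * d) := by
  have h := hcomm b hb c hc
  calc (a * b) * (c * d) = a * (b * c) * d := by group
    _ = a * (c * b) * d := by rw [h]
    _ = (a * c) * (b * d) := by group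

/-- The subgroup of periods of the solution set. -/
def K (φ : G →* G) (A A' : Subgroup G) [A.Normal] (hA' : ∀ a ∈ A', a ∈ A ∧ φ a ∈ A)
    (hcomm : ∀ x ∈ A, ∀ y ∈ A, x * y = y * x) (p : G × G) : Subgroup (G × G) where
  carrier := {q | q.1 ∈ A' ∧ q.2 ∈ A' ∧
    (p.2⁻¹ * q.1 * p.2) * q.2 = ((φ p.1)⁻¹ * q.2 * φ p.1) * φ q.1}
  one_mem' := ⟨A'.one_mem, A'.one_mem, by simp⟩
  mul_mem' := by
    rintro ⟨a, b⟩ ⟨c, d⟩ ⟨ha, hb, h⟩ ⟨hc, hd, h'⟩
    simp only at ha hb h hc hd h'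
    refine ⟨A'.mul_mem ha hc, A'.mul_mem hb hd, ?_⟩
    have n1 : ∀ g x : G, x ∈ A → g⁻¹ * x * g ∈ A := fun g x hx => by
      have := (inferInstance : A.Normal).conj_mem x hx g⁻¹
      simpa using this
    have e1 := four A hcomm (n1 p.2 a (hA' a ha).1) (n1 p.2 c (hA' c hc).1) (hA' b hb).1
      (hA' d hd).1
    have e2 := four A hcomm (n1 (φ p.1) b (hA' b hb).1) (n1 (φ p.1) d (hA' d hd).1) (hA' a ha).2
      (hA' c hc).2
    simp only [Prod.mk_mul_mk, map_mul]
    calc (p.2⁻¹ * (a * c) * p.2) * (b * d)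
        = ((p.2⁻¹ * a * p.2) * (p.2⁻¹ * c * p.2)) * (b * d) := by group
      _ = ((p.2⁻¹ * a * p.2) * b) * ((p.2⁻¹ * c * p.2) * d) := e1
      _ = (((φ p.1)⁻¹ * b * φ p.1) * φ a) * (((φ p.1)⁻¹ * d * φ p.1) * φ c) := by rw [h, h']
      _ = (((φ p.1)⁻¹ * b * φ p.1) * ((φ p.1)⁻¹ * d * φ p.1)) * (φ a * φ c) := e2.symm
      _ = _ := by group
  inv_mem' := by
    rintro ⟨a, b⟩ ⟨ha, hb, h⟩
    simp only at ha hb h
    refine ⟨A'.inv_mem ha, A'.inv_mem hb, ?_⟩
    have n1 : ∀ g x : G, x ∈ A → g⁻¹ * x * g ∈ A := fun g x hx => by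
      have := (inferInstance : A.Normal).conj_mem x hx g⁻¹
      simpa using this
    have c1 := hcomm _ (n1 p.2 a (hA' a ha).1) _ (hA' b hb).1
    have c2 := hcomm _ (n1 (φ p.1) b (hA' b hb).1) _ (hA' a ha).2
    simp only [Prod.inv_mk, map_inv]
    have e1 : (p.2⁻¹ * a⁻¹ * p.2) * b⁻¹ = (b * (p.2⁻¹ * a * p.2))⁻¹ := by group
    have e2 : ((φ p.1)⁻¹ * b⁻¹ * φ p.1) * (φ a)⁻¹ =
        (φ a * ((φ p.1)⁻¹ * b * φ p.1))⁻¹ := by group
    rw [e1, e2, ← c1, ← c2, h]

lemma mem_E_iff (φ : G →* G) (A A' : Subgroup G) [A.Normal]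
    (hA' : ∀ a ∈ A', a ∈ A ∧ φ a ∈ A) (hcomm : ∀ x ∈ A, ∀ y ∈ A, x * y = y * x)
    (p : G × G) (hp : p ∈ E φ) (q : G × G) (h1 : q.1 ∈ A') (h2 : q.2 ∈ A') :
    p * q ∈ E φ ↔ q ∈ K φ A A' hA' hcomm p := by
  obtain ⟨x, y⟩ := p
  obtain ⟨a, b⟩ := q
  simp only [E, Set.mem_ofPred_eq] at hp
  simp only at h1 h2
  have e1 : x * a * (y * b) = (y * φ x) * ((y⁻¹ * a * y) * b) := by rw [← hp]; group
  have e2 : y * b * φ (x * a) = (y * φ x) * (((φ x)⁻¹ * b * φ x) * φ a) := by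
    rw [map_mul]; group
  constructor
  · intro h
    refine ⟨h1, h2, ?_⟩
    simp only [E, Set.mem_ofPred_eq, Prod.mk_mul_mk] at h
    rw [e1, e2] at h
    exact mul_left_cancel h
  · rintro ⟨_, _, h⟩
    simp only at h
    simp only [E, Set.mem_ofPred_eq, Prod.mk_mul_mk]
    rw [e1, e2, h]

/-- Density of a set. -/
def Dens {P : Type*} [Group P] (X S : Set P) (L : ℝ) : Prop :=
  Tendsto (fun n : ℕ => ((Ball X n ∩ S).ncard : ℝ) / ((Ball X n).ncard : ℝ)) atTop (𝓝 L)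

lemma dens_fiber {P ι : Type*} [Group P] [Fintype ι] {X : Set P} (hX : X.Finite) (S : Set P)
    (f : P → ι) (L : ι → ℝ) (h : ∀ i, Dens X (S ∩ {p | f p = i}) (L i)) :
    Dens X S (∑ i, L i) := by
  classical
  unfold Dens at h ⊢
  have h1 := tendsto_finsetSum Finset.univ fun i _ => h i
  refine h1.congr fun n => ?_
  rw [← Finset.sum_div]
  congr 1
  have hfin : (Ball X n ∩ S).Finite := (Ball_finite X hX n).subset Set.inter_subset_left
  have hfin' : ∀ i, (Ball X n ∩ (S ∩ {p | f p = i})).Finite := fun i =>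
    (Ball_finite X hX n).subset Set.inter_subset_left
  have h2 : (Ball X n ∩ S).ncard = ∑ i, (Ball X n ∩ (S ∩ {p | f p = i})).ncard := by
    rw [Set.ncard_eq_toFinset_card _ hfin, Finset.card_eq_sum_card_fiberwise (f := f)
      (s := hfin.toFinset) (t := Finset.univ) (by intro x _; simp)]
    refine Finset.sum_congr rfl fun i _ => ?_
    rw [Set.ncard_eq_toFinset_card _ (hfin' i)]
    congr 1
    ext p
    simp only [Finset.mem_filter, Set.Finite.mem_toFinset, Set.mem_inter_iff,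
      Set.mem_ofPred_eq, and_assoc]
  rw [h2]; push_cast; rfl

lemma dens_empty {P : Type*} [Group P] {X : Set P} : Dens X (∅ : Set P) 0 := by
  unfold Dens
  simp

/-- The degree of twisted commutativity of a virtually abelian group is a limit which does not
depend on the generating set. -/
theorem exists_tdc_limit (φ : G →* G) (A0 : Subgroup G) (hA0 : A0.index ≠ 0)
    (hcomm0 : ∀ x ∈ A0, ∀ y ∈ A0, x * y = y * x) :
    ∃ L : ℝ, ∀ X : Set G, X.Finite → Subgroup.closure X = ⊤ → Dens (Xp X) (E φ) L := by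
  classical
  have hfi0 : A0.FiniteIndex := ⟨hA0⟩
  set A := A0.normalCore with hA
  have hcomm : ∀ x ∈ A, ∀ y ∈ A, x * y = y * x := fun x hx y hy =>
    hcomm0 x (Subgroup.normalCore_le _ hx) y (Subgroup.normalCore_le _ hy)
  set A' := A ⊓ A.comap φ with hA'
  have hA'' : ∀ a ∈ A', a ∈ A ∧ φ a ∈ A := fun a ha => by
    rw [hA', Subgroup.mem_inf, Subgroup.mem_comap] at ha
    exact ha
  have hfiA : A.FiniteIndex := inferInstance
  have hfic : (A.comap φ).FiniteIndex := by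
    refine ⟨?_⟩
    rw [Subgroup.index_comap]
    intro h0
    have := Subgroup.relIndex_dvd_index_of_normal A φ.range
    rw [h0, zero_dvd_iff] at this
    exact hfiA.index_ne_zero this
  have hfi' : A'.FiniteIndex := inferInstance
  set B : Subgroup (G × G) := A'.prod A' with hB
  have hfiB : B.FiniteIndex := inferInstance
  have hfinB : Finite ((G × G) ⧸ B) := inferInstance
  have := Fintype.ofFinite ((G × G) ⧸ B)
  have hcB : ∀ x ∈ B, ∀ y ∈ B, x * y = y * x := by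
    rintro ⟨x1, x2⟩ hx ⟨y1, y2⟩ hy
    rw [hB, Subgroup.mem_prod] at hx hy
    rw [Prod.mk_mul_mk, Prod.mk_mul_mk, hcomm x1 (hA'' _ hx.1).1 y1 (hA'' _ hy.1).1,
      hcomm x2 (hA'' _ hx.2).1 y2 (hA'' _ hy.2).1]
  set Lc : (G × G) ⧸ B → ℝ := fun c =>
    if h : ∃ p ∈ E φ, (p : (G × G) ⧸ B) = c then
      (((K φ A A' hA'' hcomm h.choose).index : ℝ))⁻¹ else 0 with hLc
  refine ⟨∑ c, Lc c, fun X hX hgen => ?_⟩
  have hs : Stable (Xp X) :=
    stable_of_virtuallyAbelian (Xp_finite hX) (closure_Xp hgen) B hfiB.index_ne_zero hcB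
  refine dens_fiber (Xp_finite hX) (E φ) (fun p => (p : (G × G) ⧸ B)) Lc fun c => ?_
  by_cases h : ∃ p ∈ E φ, (p : (G × G) ⧸ B) = c
  · have e : Lc c = (((K φ A A' hA'' hcomm h.choose).index : ℝ))⁻¹ := by
      simp only [hLc]
      rw [dif_pos h]
    rw [e]
    obtain ⟨hp1, hp2⟩ := h.choose_spec
    set p := h.choose with hp
    have hset : E φ ∩ {q | ((q : G × G) : (G × G) ⧸ B) = c} =
        {q | p⁻¹ * q ∈ K φ A A' hA'' hcomm p} := by
      ext q
      simp only [Set.mem_inter_iff, Set.mem_ofPred_eq]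
      constructor
      · rintro ⟨h1, h2⟩
        have h3 : p⁻¹ * q ∈ B := by rw [← QuotientGroup.eq, hp2, h2]
        rw [hB, Subgroup.mem_prod] at h3
        rw [← mem_E_iff φ A A' hA'' hcomm p hp1 (p⁻¹ * q) h3.1 h3.2]
        simpa using h1
      · intro h1
        have h3 := (mem_E_iff φ A A' hA'' hcomm p hp1 (p⁻¹ * q) h1.1 h1.2.1).mpr h1
        refine ⟨by simpa using h3, ?_⟩
        rw [← hp2]
        symm
        rw [QuotientGroup.eq, hB, Subgroup.mem_prod]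
        exact ⟨h1.1, h1.2.1⟩
    rw [hset]
    exact density_coset (Xp_finite hX) (closure_Xp hgen) hs _ p
  · have e : Lc c = 0 := by
      simp only [hLc]
      rw [dif_neg h]
    have hset : E φ ∩ {q | ((q : G × G) : (G × G) ⧸ B) = c} = ∅ := by
      ext q
      simp only [Set.mem_inter_iff, Set.mem_ofPred_eq, Set.mem_empty_iff_false, iff_false]
      rintro ⟨h1, h2⟩
      exact h ⟨q, h1, h2⟩
    rw [e, hset]
    exact dens_empty

lemma tdc_eq_of_dens (φ : G →* G) (X : Set G) (L : ℝ) (h : Dens (Xp X) (E φ) L) :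
    tdc φ X = L := by
  unfold tdc
  refine Tendsto.limsup_eq ?_
  unfold Dens at h
  refine h.congr fun n => ?_
  rw [solution_set, ball_sq]

end Pool.Agent.Q105.Tw
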