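import Mathlib
import Pool.Agent.Q105.TwBall
import Pool.Agent.Q105.CRc
import Pool.Agent.Q105.Density
import Pool.Agent.Q105.Twisted

/-!
# The degree of twisted commutativity via finite quotients
-/

namespace Pool.Agent.Q105.Tw

open Pool.Agent.Q105.TwBall Pool.Agent.Q105.CR Pool.Agent.Q105.Growth Filter Topology

variable {G : Type*} [Group G]

/-- The degree of twisted commutativity of a finite group. -/
noncomputable def finTdc {F : Type*} [Group F] (ψ : F →* F) : ℝ :=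
  (({p : F × F | p.1 * p.2 = p.2 * ψ p.1}.ncard : ℕ) : ℝ) / ((Nat.card F : ℕ) : ℝ) ^ 2

/-- Solutions modulo `N`. -/
def EN (φ : G →* G) (N : Subgroup G) : Set (G × G) :=
  {p | (p.2 * φ p.1)⁻¹ * (p.1 * p.2) ∈ N}

lemma E_subset_EN (φ : G →* G) (N : Subgroup G) : E φ ⊆ EN φ N := by
  intro p hp
  simp only [E, Set.mem_ofPred_eq] at hp
  simp only [EN, Set.mem_ofPred_eq]
  rw [hp]
  simp

lemma dens_EN (φ : G →* G) (N : Subgroup G) [N.Normal] [N.FiniteIndex] (h : N ≤ N.comap φ)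
    {X : Set G} (hX : X.Finite) (hgen : Subgroup.closure X = ⊤) (hs : Stable (Xp X)) :
    Dens (Xp X) (EN φ N) (finTdc (QuotientGroup.map N N φ h)) := by
  classical
  have hfin : Finite (G ⧸ N) := inferInstance
  have := Fintype.ofFinite (G ⧸ N)
  set ψ := QuotientGroup.map N N φ h with hψ
  set Lc : (G ⧸ N) × (G ⧸ N) → ℝ := fun c =>
    if c.1 * c.2 = c.2 * ψ c.1 then (((N.prod N).index : ℝ))⁻¹ else 0 with hLc
  have hsum : ∑ c, Lc c = finTdc ψ := by
    unfold finTdc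
    have h1 : ∑ c, Lc c = ∑ c ∈ Finset.univ.filter
        (fun c : (G ⧸ N) × (G ⧸ N) => c.1 * c.2 = c.2 * ψ c.1), (((N.prod N).index : ℝ))⁻¹ := by
      rw [Finset.sum_filter]
    rw [h1, Finset.sum_const, nsmul_eq_mul, ← div_eq_mul_inv]
    congr 1
    · congr 1
      rw [← Set.ncard_coe_finset]
      congr 1
      ext c; simp
    · rw [Subgroup.index_prod]
      push_cast
      rw [sq]; rfl
  rw [← hsum]
  refine dens_fiber (Xp_finite hX) (EN φ N)
    (fun p : G × G => ((p.1 : G ⧸ N), (p.2 : G ⧸ N))) Lc fun c => ?_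
  have hmem : ∀ p : G × G, p ∈ EN φ N ↔
      ((p.1 : G ⧸ N) * (p.2 : G ⧸ N) = (p.2 : G ⧸ N) * ψ (p.1 : G ⧸ N)) := by
    intro p
    simp only [EN, Set.mem_ofPred_eq]
    rw [← QuotientGroup.eq, eq_comm]
    rfl
  by_cases hc : c.1 * c.2 = c.2 * ψ c.1
  · have e : Lc c = (((N.prod N).index : ℝ))⁻¹ := by simp only [hLc]; rw [if_pos hc]
    rw [e]
    obtain ⟨c1, c2⟩ := c
    obtain ⟨x, rfl⟩ := QuotientGroup.mk_surjective c1
    obtain ⟨y, rfl⟩ := QuotientGroup.mk_surjective c2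
    have hset : EN φ N ∩ {p : G × G | ((p.1 : G ⧸ N), (p.2 : G ⧸ N)) =
        ((x : G ⧸ N), (y : G ⧸ N))} = {p | ((x, y) : G × G)⁻¹ * p ∈ N.prod N} := by
      ext p
      simp only [Set.mem_inter_iff, Set.mem_ofPred_eq, Prod.mk.injEq, Subgroup.mem_prod,
        Prod.fst_mul, Prod.snd_mul, Prod.fst_inv, Prod.snd_inv, hmem]
      constructor
      · rintro ⟨_, h1, h2⟩
        rw [← QuotientGroup.eq, ← QuotientGroup.eq]
        exact ⟨h1.symm, h2.symm⟩
      · rintro ⟨h1, h2⟩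
        rw [← QuotientGroup.eq] at h1 h2
        rw [← h1, ← h2]
        exact ⟨hc, rfl, rfl⟩
    rw [hset]
    exact density_coset (Xp_finite hX) (closure_Xp hgen) hs _ _
  · have e : Lc c = 0 := by simp only [hLc]; rw [if_neg hc]
    have hset : EN φ N ∩ {p : G × G | ((p.1 : G ⧸ N), (p.2 : G ⧸ N)) = c} = ∅ := by
      ext p
      simp only [Set.mem_inter_iff, Set.mem_ofPred_eq, Set.mem_empty_iff_false, iff_false, hmem]
      rintro ⟨h1, rfl⟩
      exact hc h1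
    rw [e, hset]
    exact dens_empty

/-! ### Residual finiteness by fully invariant subgroups -/

/-- The verbal subgroup generated by `k`-th powers. -/
def V (G : Type*) [Group G] (k : ℕ) : Subgroup G := Subgroup.closure (Set.range fun g : G => g ^ k)

lemma V_normal (k : ℕ) : (V G k).Normal := by
  refine ⟨fun n hn g => ?_⟩
  unfold V at hn ⊢
  induction hn using Subgroup.closure_induction with
  | mem x hx =>
    obtain ⟨a, rfl⟩ := hx
    apply Subgroup.subset_closure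
    exact ⟨g * a * g⁻¹, by simp [conj_pow]⟩
  | one => simp
  | mul x y _ _ hx hy =>
    have : g * (x * y) * g⁻¹ = (g * x * g⁻¹) * (g * y * g⁻¹) := by group
    rw [this]
    exact Subgroup.mul_mem _ hx hy
  | inv x _ hx =>
    have : g * x⁻¹ * g⁻¹ = (g * x * g⁻¹)⁻¹ := by group
    rw [this]
    exact Subgroup.inv_mem _ hx

lemma V_invariant (φ : G →* G) (k : ℕ) : V G k ≤ (V G k).comap φ := by
  unfold V
  rw [Subgroup.closure_le]
  rintro _ ⟨g, rfl⟩
  simp only [Subgroup.coe_comap, Set.mem_preimage, SetLike.mem_coe, map_pow]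
  exact Subgroup.subset_closure ⟨φ g, rfl⟩

lemma V_finiteIndex [Group.FG G] (A : Subgroup G) [A.FiniteIndex]
    (hcomm : ∀ x ∈ A, ∀ y ∈ A, x * y = y * x) (k : ℕ) (hk : 0 < k) :
    (V G k).FiniteIndex := by
  classical
  let : CommGroup A :=
    { (inferInstance : Group A) with
      mul_comm := fun x y => Subtype.ext (hcomm x x.2 y y.2) }
  have hfg : Group.FG A := inferInstance
  set R : Subgroup A := (powMonoidHom k : A →* A).range with hR
  have hfin : Finite (A ⧸ R) := by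
    apply CommGroup.finite_of_fg_isMulTorsion
    intro q
    obtain ⟨a, rfl⟩ := QuotientGroup.mk_surjective q
    rw [isOfFinOrder_iff_pow_eq_one]
    refine ⟨k, hk, ?_⟩
    rw [← QuotientGroup.mk_pow, QuotientGroup.eq_one_iff]
    exact ⟨a, rfl⟩
  have hRf : R.FiniteIndex := Subgroup.finiteIndex_of_finite_quotient
  have hle : R ≤ (V G k).subgroupOf A := by
    rintro _ ⟨a, rfl⟩
    rw [Subgroup.mem_subgroupOf]
    exact Subgroup.subset_closure ⟨(a : G), by simp⟩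
  have h1 : ((V G k).subgroupOf A).FiniteIndex := Subgroup.finiteIndex_of_le hle
  have h2 : (V G k).relIndex A ≠ 0 := h1.index_ne_zero
  have h3 : A.relIndex ⊤ ≠ 0 := by
    rw [Subgroup.relIndex_top_right]
    exact Subgroup.FiniteIndex.index_ne_zero
  have h4 := Subgroup.relIndex_ne_zero_trans h2 h3
  rw [Subgroup.relIndex_top_right] at h4
  exact ⟨h4⟩

/-- In a finitely generated abelian group every nontrivial element fails to be a `j`-th power for
some positive `j`. -/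
lemma exists_not_pow (A : Type*) [CommGroup A] [Group.FG A] (a : A) (ha : a ≠ 1) :
    ∃ j, 0 < j ∧ ∀ b : A, b ^ j ≠ a := by
  obtain ⟨ι, J, _, _, p, hp, e, ⟨f⟩⟩ := CommGroup.equiv_free_prod_prod_multiplicative_zmod A
  by_cases h1 : (f a).1 = 1
  · have h2 : (f a).2 ≠ 1 := by
      intro h2
      apply ha
      apply f.injective
      rw [map_one]
      exact Prod.ext h1 h2
    obtain ⟨i, hi⟩ := Function.ne_iff.mp h2
    refine ⟨p i ^ e i, pow_pos (hp i).pos _, fun b hb => hi ?_⟩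
    rw [← hb, map_pow]
    simp only [Prod.pow_snd, Pi.pow_apply, Pi.one_apply]
    apply Multiplicative.toAdd.injective
    rw [toAdd_pow, toAdd_one, nsmul_eq_mul]
    simp
  · obtain ⟨i, hi⟩ := Function.ne_iff.mp h1
    set z : ℤ := Multiplicative.toAdd ((f a).1 i) with hz
    have hz0 : z ≠ 0 := by
      intro h
      apply hi
      apply Multiplicative.toAdd.injective
      rw [← hz, h]; rfl
    refine ⟨z.natAbs + 1, Nat.succ_pos _, fun b hb => ?_⟩
    have h3 : z = ((z.natAbs + 1 : ℕ) : ℤ) * Multiplicative.toAdd ((f b).1 i) := by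
      conv_lhs => rw [hz, ← hb, map_pow]
      simp only [Prod.pow_fst, Pi.pow_apply]
      rw [toAdd_pow, nsmul_eq_mul]
    have h4 : ((z.natAbs + 1 : ℕ) : ℤ) ∣ z := ⟨_, h3⟩
    have h5 := Int.le_of_dvd (by positivity) ((Int.dvd_natAbs).mpr h4)
    push_cast at h5
    omega

lemma exists_avoid [Group.FG G] (φ : G →* G) (A : Subgroup G) [A.Normal] [A.FiniteIndex]
    (hcomm : ∀ x ∈ A, ∀ y ∈ A, x * y = y * x) (g : G) (hg : g ≠ 1) :
    ∃ N : Subgroup G, N.Normal ∧ N.FiniteIndex ∧ N ≤ N.comap φ ∧ g ∉ N := by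
  classical
  let : CommGroup A :=
    { (inferInstance : Group A) with
      mul_comm := fun x y => Subtype.ext (hcomm x x.2 y y.2) }
  have hfg : Group.FG A := inferInstance
  have hm : 0 < A.index := Nat.pos_of_ne_zero Subgroup.FiniteIndex.index_ne_zero
  by_cases hgA : g ∈ A
  · obtain ⟨j, hj, hj2⟩ := exists_not_pow A ⟨g, hgA⟩ (fun h => hg (congrArg Subtype.val h))
    have hpos : 0 < A.index * j := Nat.mul_pos hm hj
    refine ⟨V G (A.index * j), V_normal _, V_finiteIndex A hcomm _ hpos, V_invariant φ _, ?_⟩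
    intro hcon
    have hle : V G (A.index * j) ≤ ((powMonoidHom j : A →* A).range).map A.subtype := by
      unfold V
      rw [Subgroup.closure_le]
      rintro _ ⟨x, rfl⟩
      refine ⟨(⟨x ^ A.index, A.pow_index_mem x⟩ : A) ^ j, ⟨_, rfl⟩, ?_⟩
      simp [pow_mul]
    obtain ⟨_, ⟨b, rfl⟩, hb⟩ := hle hcon
    exact hj2 b (Subtype.ext hb)
  · refine ⟨V G A.index, V_normal _, V_finiteIndex A hcomm _ hm, V_invariant φ _, ?_⟩
    intro hcon
    apply hgA
    have hle : V G A.index ≤ A := by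
      unfold V
      rw [Subgroup.closure_le]
      rintro _ ⟨x, rfl⟩
      exact A.pow_index_mem x
    exact hle hcon

lemma exists_avoid_finite [Group.FG G] (φ : G →* G) (A : Subgroup G) [A.Normal] [A.FiniteIndex]
    (hcomm : ∀ x ∈ A, ∀ y ∈ A, x * y = y * x) (A' : Subgroup G) [A'.Normal] [A'.FiniteIndex]
    (F : Set G) (hF : F.Finite) (hF1 : 1 ∉ F) :
    ∃ N : Subgroup G, N.Normal ∧ N.FiniteIndex ∧ N ≤ N.comap φ ∧ N ≤ A' ∧ ∀ g ∈ F, g ∉ N := by
  classical
  induction F, hF using Set.Finite.induction_on with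
  | empty =>
    have hm : 0 < A'.index := Nat.pos_of_ne_zero Subgroup.FiniteIndex.index_ne_zero
    refine ⟨V G A'.index, V_normal _, V_finiteIndex A hcomm _ hm, V_invariant φ _, ?_, by simp⟩
    unfold V
    rw [Subgroup.closure_le]
    rintro _ ⟨x, rfl⟩
    exact A'.pow_index_mem x
  | insert _ _ ih =>
    rename_i g F _ _
    obtain ⟨N, h1, h2, h3, h4, h5⟩ := ih (fun h => hF1 (Set.mem_insert_of_mem _ h))
    obtain ⟨N', k1, k2, k3, k4⟩ := exists_avoid φ A hcomm g (fun h => hF1 (by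
      rw [← h]; exact Set.mem_insert _ _))
    refine ⟨N ⊓ N', inferInstance, inferInstance, ?_, inf_le_left.trans h4, ?_⟩
    · intro x hx
      rw [Subgroup.mem_inf] at hx
      rw [Subgroup.mem_comap, Subgroup.mem_inf]
      exact ⟨h3 hx.1, k3 hx.2⟩
    · intro x hx hxN
      rw [Subgroup.mem_inf] at hxN
      rcases Set.mem_insert_iff.mp hx with rfl | hx
      · exact k4 hxN.2
      · exact h5 x hx hxN.1

/-! ### The solutions modulo a small subgroup -/

section Cosets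

variable (φ : G →* G) (A A' : Subgroup G) [A.Normal]

/-- The deviation. -/
def Lam (p q : G × G) : G :=
  (p.2⁻¹ * q.1 * p.2) * q.2 * (((φ p.1)⁻¹ * q.2 * φ p.1) * φ q.1)⁻¹

variable (hA' : ∀ a ∈ A', a ∈ A ∧ φ a ∈ A) (hcomm : ∀ x ∈ A, ∀ y ∈ A, x * y = y * x)

include hA'

lemma lam_parts (p q : G × G) (h1 : q.1 ∈ A') (h2 : q.2 ∈ A') :
    p.2⁻¹ * q.1 * p.2 ∈ A ∧ q.2 ∈ A ∧ (φ p.1)⁻¹ * q.2 * φ p.1 ∈ A ∧ φ q.1 ∈ A := by
  have n1 : ∀ g x : G, x ∈ A → g⁻¹ * x * g ∈ A := fun g x hx => by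
    have := (inferInstance : A.Normal).conj_mem x hx g⁻¹
    simpa using this
  exact ⟨n1 _ _ (hA' _ h1).1, (hA' _ h2).1, n1 _ _ (hA' _ h2).1, (hA' _ h1).2⟩

lemma lam_mem (p q : G × G) (h1 : q.1 ∈ A') (h2 : q.2 ∈ A') : Lam φ p q ∈ A := by
  obtain ⟨a, b, c, d⟩ := lam_parts φ A A' hA' p q h1 h2
  exact A.mul_mem (A.mul_mem a b) (A.inv_mem (A.mul_mem c d))

include hcomm

lemma lam_mul (p q q' : G × G) (h1 : q.1 ∈ A') (h2 : q.2 ∈ A') (h1' : q'.1 ∈ A')
    (h2' : q'.2 ∈ A') : Lam φ p (q * q') = Lam φ p q * Lam φ p q' := by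
  obtain ⟨u, b, w, v⟩ := lam_parts φ A A' hA' p q h1 h2
  obtain ⟨u', b', w', v'⟩ := lam_parts φ A A' hA' p q' h1' h2'
  have e1 := four A hcomm u u' b b'
  have e2 := four A hcomm w w' v v'
  unfold Lam
  rw [Prod.fst_mul, Prod.snd_mul, map_mul]
  have e3 : p.2⁻¹ * (q.1 * q'.1) * p.2 * (q.2 * q'.2) =
      ((p.2⁻¹ * q.1 * p.2) * (p.2⁻¹ * q'.1 * p.2)) * (q.2 * q'.2) := by group
  have e4 : (φ p.1)⁻¹ * (q.2 * q'.2) * φ p.1 * (φ q.1 * φ q'.1) =
      (((φ p.1)⁻¹ * q.2 * φ p.1) * ((φ p.1)⁻¹ * q'.2 * φ p.1)) * (φ q.1 * φ q'.1) := by group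
  rw [e3, e4, e1, e2]
  set s := p.2⁻¹ * q.1 * p.2 * q.2 with hs
  set s' := p.2⁻¹ * q'.1 * p.2 * q'.2 with hs'
  set t := (φ p.1)⁻¹ * q.2 * φ p.1 * φ q.1 with ht
  set t' := (φ p.1)⁻¹ * q'.2 * φ p.1 * φ q'.1 with ht'
  have htA : t ∈ A := A.mul_mem w v
  have ht'A : t' ∈ A := A.mul_mem w' v'
  have hs'A : s' ∈ A := A.mul_mem u' b'
  have e5 : t⁻¹ * (s' * t'⁻¹) = (s' * t'⁻¹) * t⁻¹ :=
    hcomm _ (A.inv_mem htA) _ (A.mul_mem hs'A (A.inv_mem ht'A))
  calc s * s' * (t * t')⁻¹ = s * ((s' * t'⁻¹) * t⁻¹) := by group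
    _ = s * (t⁻¹ * (s' * t'⁻¹)) := by rw [e5]
    _ = s * t⁻¹ * (s' * t'⁻¹) := by group

lemma lam_inv (p q : G × G) (h1 : q.1 ∈ A') (h2 : q.2 ∈ A') :
    Lam φ p q⁻¹ = (Lam φ p q)⁻¹ := by
  have h := lam_mul φ A A' hA' hcomm p q q⁻¹ h1 h2 (A'.inv_mem h1) (A'.inv_mem h2)
  rw [mul_inv_cancel] at h
  have h0 : Lam φ p (1 : G × G) = 1 := by simp [Lam]
  rw [h0] at h
  exact eq_inv_of_mul_eq_one_right h.symm

omit hcomm in
lemma value_eq (p q : G × G) :
    ((p * q).2 * φ (p * q).1)⁻¹ * ((p * q).1 * (p * q).2) =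
      (((φ p.1)⁻¹ * q.2 * φ p.1) * φ q.1)⁻¹ * ((p.2 * φ p.1)⁻¹ * (p.1 * p.2)) *
        ((p.2⁻¹ * q.1 * p.2) * q.2) := by
  rw [Prod.fst_mul, Prod.snd_mul, map_mul]
  group

lemma mem_EN_iff (N : Subgroup G) (p q : G × G) (h1 : q.1 ∈ A')
    (h2 : q.2 ∈ A') (hc : (p.2 * φ p.1)⁻¹ * (p.1 * p.2) ∈ A) :
    p * q ∈ EN φ N ↔ ((p.2 * φ p.1)⁻¹ * (p.1 * p.2)) * Lam φ p q ∈ N := by
  obtain ⟨u, b, w, v⟩ := lam_parts φ A A' hA' p q h1 h2
  simp only [EN, Set.mem_ofPred_eq]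
  rw [value_eq φ A A' hA']
  unfold Lam
  set s := p.2⁻¹ * q.1 * p.2 * q.2 with hs
  set t := (φ p.1)⁻¹ * q.2 * φ p.1 * φ q.1 with ht
  set c := (p.2 * φ p.1)⁻¹ * (p.1 * p.2) with hc'
  have htA : t ∈ A := A.mul_mem w v
  have hsA : s ∈ A := A.mul_mem u b
  have e : t⁻¹ * c * s = c * (s * t⁻¹) := by
    have e5 : t⁻¹ * (c * s) = (c * s) * t⁻¹ := hcomm _ (A.inv_mem htA) _ (A.mul_mem hc hsA)
    calc t⁻¹ * c * s = t⁻¹ * (c * s) := by group
      _ = (c * s) * t⁻¹ := e5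
      _ = _ := by group
  rw [e]

omit hcomm in
lemma c_mem (N : Subgroup G) (hN : N ≤ A) (p q : G × G) (h1 : q.1 ∈ A')
    (h2 : q.2 ∈ A') (h : p * q ∈ EN φ N) : (p.2 * φ p.1)⁻¹ * (p.1 * p.2) ∈ A := by
  obtain ⟨u, b, w, v⟩ := lam_parts φ A A' hA' p q h1 h2
  simp only [EN, Set.mem_ofPred_eq] at h
  rw [value_eq φ A A' hA'] at h
  have h3 := hN h
  have h4 := A.mul_mem (A.mul_mem (A.mul_mem w v) h3) (A.inv_mem (A.mul_mem u b))
  have e : (φ p.1)⁻¹ * q.2 * φ p.1 * φ q.1 * (((φ p.1)⁻¹ * q.2 * φ p.1 * φ q.1)⁻¹ *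
      ((p.2 * φ p.1)⁻¹ * (p.1 * p.2)) * (p.2⁻¹ * q.1 * p.2 * q.2)) *
        (p.2⁻¹ * q.1 * p.2 * q.2)⁻¹ = (p.2 * φ p.1)⁻¹ * (p.1 * p.2) := by group
  rwa [e] at h4

/-- Periods modulo `N`. -/
def KN (N : Subgroup G) (p : G × G) : Subgroup (G × G) where
  carrier := {q | q.1 ∈ A' ∧ q.2 ∈ A' ∧ Lam φ p q ∈ N}
  one_mem' := ⟨A'.one_mem, A'.one_mem, by simp [Lam]⟩
  mul_mem' := by
    rintro q q' ⟨h1, h2, h3⟩ ⟨h1', h2', h3'⟩
    refine ⟨A'.mul_mem h1 h1', A'.mul_mem h2 h2', ?_⟩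
    rw [lam_mul φ A A' hA' hcomm p q q' h1 h2 h1' h2']
    exact N.mul_mem h3 h3'
  inv_mem' := by
    rintro q ⟨h1, h2, h3⟩
    refine ⟨A'.inv_mem h1, A'.inv_mem h2, ?_⟩
    rw [lam_inv φ A A' hA' hcomm p q h1 h2]
    exact N.inv_mem h3

lemma dens_E_coset {X : Set G} (hX : X.Finite) (hgen : Subgroup.closure X = ⊤)
    (hs : Stable (Xp X)) (c : (G × G) ⧸ (A'.prod A')) :
    ∃ e : ℝ, 0 ≤ e ∧
      Dens (Xp X) (E φ ∩ {q | ((q : G × G) : (G × G) ⧸ (A'.prod A')) = c}) e := by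
  classical
  by_cases h : ∃ p ∈ E φ, (p : (G × G) ⧸ (A'.prod A')) = c
  · obtain ⟨p, hp1, hp2⟩ := h
    refine ⟨(((K φ A A' hA' hcomm p).index : ℝ))⁻¹, by positivity, ?_⟩
    have hset : E φ ∩ {q | ((q : G × G) : (G × G) ⧸ (A'.prod A')) = c} =
        {q | p⁻¹ * q ∈ K φ A A' hA' hcomm p} := by
      ext q
      simp only [Set.mem_inter_iff, Set.mem_ofPred_eq]
      constructor
      · rintro ⟨h1, h2⟩
        have h3 : p⁻¹ * q ∈ A'.prod A' := by rw [← QuotientGroup.eq, hp2, h2]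
        rw [Subgroup.mem_prod] at h3
        rw [← mem_E_iff φ A A' hA' hcomm p hp1 (p⁻¹ * q) h3.1 h3.2]
        simpa using h1
      · intro h1
        have h3 := (mem_E_iff φ A A' hA' hcomm p hp1 (p⁻¹ * q) h1.1 h1.2.1).mpr h1
        refine ⟨by simpa using h3, ?_⟩
        rw [← hp2]
        symm
        rw [QuotientGroup.eq, Subgroup.mem_prod]
        exact ⟨h1.1, h1.2.1⟩
    rw [hset]
    exact density_coset (Xp_finite hX) (closure_Xp hgen) hs _ p
  · refine ⟨0, le_refl _, ?_⟩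
    have hset : E φ ∩ {q | ((q : G × G) : (G × G) ⧸ (A'.prod A')) = c} = ∅ := by
      ext q
      simp only [Set.mem_inter_iff, Set.mem_ofPred_eq, Set.mem_empty_iff_false, iff_false]
      rintro ⟨h1, h2⟩
      exact h ⟨q, h1, h2⟩
    rw [hset]
    exact dens_empty

lemma exists_close {X : Set G} (hX : X.Finite) (hgen : Subgroup.closure X = ⊤)
    (hs : Stable (Xp X)) (M : ℕ) (hM : 0 < M) (c : (G × G) ⧸ (A'.prod A')) :
    ∃ F : Set G, F.Finite ∧ (1 : G) ∉ F ∧ ∀ N : Subgroup G, N.Normal → N ≤ A →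
      (∀ g ∈ F, g ∉ N) → ∃ d e : ℝ,
        Dens (Xp X) (EN φ N ∩ {q | ((q : G × G) : (G × G) ⧸ (A'.prod A')) = c}) d ∧
        Dens (Xp X) (E φ ∩ {q | ((q : G × G) : (G × G) ⧸ (A'.prod A')) = c}) e ∧
        d ≤ e + 1 / M := by
  classical
  obtain ⟨e, he0, he⟩ := dens_E_coset φ A A' hA' hcomm hX hgen hs c
  have hM' : (0 : ℝ) < M := by exact_mod_cast hM
  obtain ⟨p, rfl⟩ := QuotientGroup.mk_surjective c
  -- membership in the coset
  have hcos : ∀ q : G × G, ((q : G × G) : (G × G) ⧸ (A'.prod A')) = (p : (G × G) ⧸ (A'.prod A')) ↔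
      (p⁻¹ * q).1 ∈ A' ∧ (p⁻¹ * q).2 ∈ A' := by
    intro q
    rw [eq_comm, QuotientGroup.eq, Subgroup.mem_prod]
  by_cases hc : (p.2 * φ p.1)⁻¹ * (p.1 * p.2) ∈ A
  · by_cases hfin : {g : G | ∃ q : G × G, q.1 ∈ A' ∧ q.2 ∈ A' ∧ g = Lam φ p q}.Finite
    · -- finite image
      refine ⟨((fun g => ((p.2 * φ p.1)⁻¹ * (p.1 * p.2)) * g) ''
        {g : G | ∃ q : G × G, q.1 ∈ A' ∧ q.2 ∈ A' ∧ g = Lam φ p q}) \ {1},
        (hfin.image _).subset Set.sdiff_subset, by simp, ?_⟩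
      intro N _ hNA hF
      refine ⟨e, e, ?_, he, by linarith [show (0 : ℝ) ≤ 1 / M by positivity]⟩
      have hset : EN φ N ∩ {q | ((q : G × G) : (G × G) ⧸ (A'.prod A')) =
          (p : (G × G) ⧸ (A'.prod A'))} =
          E φ ∩ {q | ((q : G × G) : (G × G) ⧸ (A'.prod A')) =
            (p : (G × G) ⧸ (A'.prod A'))} := by
        ext q
        simp only [Set.mem_inter_iff, Set.mem_ofPred_eq]
        constructor
        · rintro ⟨h1, h2⟩
          refine ⟨?_, h2⟩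
          obtain ⟨h3, h4⟩ := (hcos q).mp h2
          have e1 : q = p * (p⁻¹ * q) := by group
          rw [e1, mem_EN_iff φ A A' hA' hcomm N p _ h3 h4 hc] at h1
          have h5 : ((p.2 * φ p.1)⁻¹ * (p.1 * p.2)) * Lam φ p (p⁻¹ * q) = 1 := by
            by_contra hne
            exact hF _ ⟨⟨_, ⟨_, h3, h4, rfl⟩, rfl⟩, hne⟩ h1
          have h6 : p * (p⁻¹ * q) ∈ EN φ ⊥ := by
            rw [mem_EN_iff φ A A' hA' hcomm ⊥ p _ h3 h4 hc, h5]
            exact Subgroup.one_mem _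
          rw [← e1] at h6
          simp only [EN, Set.mem_ofPred_eq, Subgroup.mem_bot] at h6
          simp only [E, Set.mem_ofPred_eq]
          rw [inv_mul_eq_one] at h6
          exact h6.symm
        · rintro ⟨h1, h2⟩
          exact ⟨E_subset_EN φ N h1, h2⟩
      rw [hset]
      exact he
    · -- infinite image
      obtain ⟨f⟩ : Nonempty (Fin M ↪
          {g : G | ∃ q : G × G, q.1 ∈ A' ∧ q.2 ∈ A' ∧ g = Lam φ p q}) := by
        have : Infinite {g : G | ∃ q : G × G, q.1 ∈ A' ∧ q.2 ∈ A' ∧ g = Lam φ p q} :=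
          Set.Infinite.to_subtype hfin
        exact ⟨(Fin.valEmbedding).trans (Infinite.natEmbedding _)⟩
      choose q hq1 hq2 hq3 using fun i => (f i).2
      refine ⟨(Set.range fun ij : Fin M × Fin M =>
        (Lam φ p (q ij.1))⁻¹ * Lam φ p (q ij.2)) \ {1},
        (Set.finite_range _).subset Set.sdiff_subset, by simp, ?_⟩
      intro N _ hNA hF
      have hdist : ∀ i j, (q i)⁻¹ * q j ∈ KN φ A A' hA' hcomm N p → i = j := by
        intro i j hij
        obtain ⟨h1, h2, h3⟩ := hij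
        rw [lam_mul φ A A' hA' hcomm p _ _ (A'.inv_mem (hq1 i)) (A'.inv_mem (hq2 i)) (hq1 j)
          (hq2 j), lam_inv φ A A' hA' hcomm p _ (hq1 i) (hq2 i)] at h3
        have h4 : (Lam φ p (q i))⁻¹ * Lam φ p (q j) = 1 := by
          by_contra hne
          exact hF _ ⟨⟨(i, j), rfl⟩, hne⟩ h3
        rw [inv_mul_eq_one] at h4
        apply f.injective
        apply Subtype.ext
        rw [hq3 i, hq3 j, h4]
      by_cases hex : ∃ p0, p0 ∈ EN φ N ∩ {q | ((q : G × G) : (G × G) ⧸ (A'.prod A')) =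
          (p : (G × G) ⧸ (A'.prod A'))}
      · obtain ⟨p0, h01, h02⟩ := hex
        simp only [Set.mem_ofPred_eq] at h02
        obtain ⟨h03, h04⟩ := (hcos p0).mp h02
        have e0 : p0 = p * (p⁻¹ * p0) := by group
        have h05 := h01
        rw [e0, mem_EN_iff φ A A' hA' hcomm N p _ h03 h04 hc] at h05
        have hset : EN φ N ∩ {q | ((q : G × G) : (G × G) ⧸ (A'.prod A')) =
            (p : (G × G) ⧸ (A'.prod A'))} = {q | p0⁻¹ * q ∈ KN φ A A' hA' hcomm N p} := by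
          ext r
          simp only [Set.mem_inter_iff, Set.mem_ofPred_eq]
          have key : ∀ r : G × G, (p⁻¹ * r).1 ∈ A' → (p⁻¹ * r).2 ∈ A' →
              (r ∈ EN φ N ↔ Lam φ p (p0⁻¹ * r) ∈ N) := by
            intro r h3 h4
            have e1 : r = p * (p⁻¹ * r) := by group
            have e2 : p0⁻¹ * r = (p⁻¹ * p0)⁻¹ * (p⁻¹ * r) := by group
            have e3 : Lam φ p (p0⁻¹ * r) =
                (Lam φ p (p⁻¹ * p0))⁻¹ * Lam φ p (p⁻¹ * r) := by
              rw [e2, lam_mul φ A A' hA' hcomm p _ _ (A'.inv_mem h03) (A'.inv_mem h04) h3 h4,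
                lam_inv φ A A' hA' hcomm p _ h03 h04]
            conv_lhs => rw [e1]
            rw [mem_EN_iff φ A A' hA' hcomm N p _ h3 h4 hc, e3]
            have e4 : (Lam φ p (p⁻¹ * p0))⁻¹ * Lam φ p (p⁻¹ * r) =
                (((p.2 * φ p.1)⁻¹ * (p.1 * p.2)) * Lam φ p (p⁻¹ * p0))⁻¹ *
                  (((p.2 * φ p.1)⁻¹ * (p.1 * p.2)) * Lam φ p (p⁻¹ * r)) := by group
            rw [e4, N.mul_mem_cancel_left (N.inv_mem h05)]
          constructor
          · rintro ⟨h1, h2⟩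
            obtain ⟨h3, h4⟩ := (hcos r).mp h2
            have e2 : p0⁻¹ * r = (p⁻¹ * p0)⁻¹ * (p⁻¹ * r) := by group
            refine ⟨?_, ?_, (key r h3 h4).mp h1⟩
            · rw [e2]; exact A'.mul_mem (A'.inv_mem h03) h3
            · rw [e2]; exact A'.mul_mem (A'.inv_mem h04) h4
          · rintro ⟨h1, h2, h3⟩
            have e2 : p⁻¹ * r = (p⁻¹ * p0) * (p0⁻¹ * r) := by group
            have h4 : (p⁻¹ * r).1 ∈ A' := by rw [e2]; exact A'.mul_mem h03 h1
            have h5 : (p⁻¹ * r).2 ∈ A' := by rw [e2]; exact A'.mul_mem h04 h2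
            exact ⟨(key r h4 h5).mpr h3, (hcos r).mpr ⟨h4, h5⟩⟩
        refine ⟨(((KN φ A A' hA' hcomm N p).index : ℝ))⁻¹, e, ?_, he, ?_⟩
        · rw [hset]
          exact density_coset (Xp_finite hX) (closure_Xp hgen) hs _ p0
        · have h6 : (((KN φ A A' hA' hcomm N p).index : ℝ))⁻¹ ≤ 1 / M := by
            by_cases h0 : (KN φ A A' hA' hcomm N p).index = 0
            · rw [h0]; simp
            · have hfi : (KN φ A A' hA' hcomm N p).FiniteIndex := ⟨h0⟩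
              have hfin' : Finite ((G × G) ⧸ KN φ A A' hA' hcomm N p) := inferInstance
              have h7 : M ≤ (KN φ A A' hA' hcomm N p).index := by
                have h8 := Nat.card_le_card_of_injective
                  (fun i : Fin M => ((q i : G × G) : (G × G) ⧸ KN φ A A' hA' hcomm N p)) (by
                    intro i j hij
                    exact hdist i j (QuotientGroup.eq.mp hij))
                rw [Nat.card_eq_fintype_card, Fintype.card_fin] at h8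
                exact h8
              rw [one_div]
              exact inv_anti₀ hM' (by exact_mod_cast h7)
          linarith
      · refine ⟨0, e, ?_, he, by positivity⟩
        have hset : EN φ N ∩ {q | ((q : G × G) : (G × G) ⧸ (A'.prod A')) =
            (p : (G × G) ⧸ (A'.prod A'))} = ∅ := by
          rw [Set.eq_empty_iff_forall_notMem]
          exact fun r hr => hex ⟨r, hr⟩
        rw [hset]
        exact dens_empty
  · refine ⟨∅, Set.finite_empty, by simp, ?_⟩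
    intro N _ hNA _
    refine ⟨0, e, ?_, he, by positivity⟩
    have hset : EN φ N ∩ {q | ((q : G × G) : (G × G) ⧸ (A'.prod A')) =
        (p : (G × G) ⧸ (A'.prod A'))} = ∅ := by
      rw [Set.eq_empty_iff_forall_notMem]
      rintro r ⟨hr1, hr2⟩
      simp only [Set.mem_ofPred_eq] at hr2
      obtain ⟨h3, h4⟩ := (hcos r).mp hr2
      apply hc
      have e1 : r = p * (p⁻¹ * r) := by group
      rw [e1] at hr1
      exact c_mem φ A A' hA' N hNA p _ h3 h4 hr1
    rw [hset]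
    exact dens_empty

end Cosets

end Pool.Agent.Q105.Tw
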